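import Pool.Agent.Lib.H62y.Stage
import Pool.Agent.Lib.H62y.SkCountD

set_option autoImplicit false

/-!
Chunk L5: words of every large size, from stages. The windows of `log Θ` of consecutive stages overlap.
`GoodW` is the only thing used from `SkCountD`.
-/

open Finset

namespace H62y
open H62w

/-- Windows of consecutive stages cover a half line. -/
theorem windows_cover {N : ℕ} (hN : 100 ≤ N) (Ls : ℕ → ℕ) (h0 : N ≤ Ls 0)
    (hs : ∀ j, Ls (j + 1) = Ls j + Ls j / N) (L1 : ℕ) :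
    ∃ X0 : ℝ, ∀ X : ℝ, X0 ≤ X → ∃ j : ℕ, L1 ≤ Ls j ∧
      Real.log (4 / 3) * Ls j + 11 / 10 * Ls j / N ≤ X ∧
      X ≤ Real.log (4 / 3) * Ls j + 19 / 10 * Ls j / N := by
  have hN0 : (0 : ℝ) < N := by
    have : 0 < N := by omega
    exact_mod_cast this
  have hN100 : (100 : ℝ) ≤ N := by exact_mod_cast hN
  have hLN : ∀ j, N ≤ Ls j := by
    intro j
    induction j with
    | zero => exact h0
    | succ j ih => rw [hs]; exact le_trans ih (Nat.le_add_right _ _)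
  have hstep : ∀ j, Ls j + 1 ≤ Ls (j + 1) := by
    intro j
    rw [hs]
    have : 1 ≤ Ls j / N := (Nat.one_le_div_iff (by omega)).2 (hLN j)
    omega
  have hge : ∀ j, j ≤ Ls j := by
    intro j
    induction j with
    | zero => omega
    | succ j ih => have := hstep j; omega
  have hmono : ∀ i j, i ≤ j → Ls i ≤ Ls j := fun i j hij =>
    monotone_nat_of_le_succ (fun n => le_trans (Nat.le_succ _) (hstep n)) hij
  set c : ℝ := Real.log (4 / 3) with hc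
  have hc0 : 0 < c := Real.log_pos (by norm_num)
  have hc1 : c ≤ 1 / 3 := by
    have := Real.log_le_sub_one_of_pos (show (0:ℝ) < 4 / 3 by norm_num)
    linarith
  set d : ℝ := c + 11 / 10 / N with hd
  have hd0 : 0 < d := by positivity
  have hlow : ∀ x : ℝ, c * x + 11 / 10 * x / N = d * x := by
    intro x
    rw [hd]
    ring
  refine ⟨d * Ls L1, fun X hX => ?_⟩
  -- the largest `j` with `d * Ls j ≤ X`
  have hbd : ∃ b : ℕ, ∀ j, d * Ls j ≤ X → j ≤ b := by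
    obtain ⟨b, hb⟩ := exists_nat_ge (X / d)
    refine ⟨b, fun j hj => ?_⟩
    have h1 : (Ls j : ℝ) ≤ X / d := by
      rw [le_div_iff₀ hd0]
      linarith
    have h2 : (Ls j : ℝ) ≤ b := le_trans h1 hb
    have h3 : Ls j ≤ b := by exact_mod_cast h2
    exact le_trans (hge j) h3
  obtain ⟨b, hb⟩ := hbd
  classical
  set S : Finset ℕ := (Finset.range (b + 1)).filter (fun j => d * Ls j ≤ X) with hS
  have hL1 : L1 ∈ S := by
    rw [hS, Finset.mem_filter, Finset.mem_range]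
    exact ⟨Nat.lt_succ_of_le (hb _ hX), hX⟩
  have hne : S.Nonempty := ⟨L1, hL1⟩
  set j := S.max' hne with hj
  have hjS : j ∈ S := S.max'_mem hne
  have hjX : d * Ls j ≤ X := (Finset.mem_filter.1 hjS).2
  have hjL : L1 ≤ j := S.le_max' _ hL1
  have hnext : X < d * Ls (j + 1) := by
    by_contra hcon
    rw [not_lt] at hcon
    have h1 : j + 1 ∈ S := by
      rw [hS, Finset.mem_filter, Finset.mem_range]
      exact ⟨Nat.lt_succ_of_le (hb _ hcon), hcon⟩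
    have h2 := S.le_max' _ h1
    omega
  refine ⟨j, le_trans (hge L1) (hmono _ _ hjL), ?_, ?_⟩
  · rw [hlow]; exact hjX
  · have h1 : (Ls (j + 1) : ℝ) ≤ Ls j * (1 + 1 / N) := by
      rw [hs]
      push_cast
      have := @Nat.cast_div_le ℝ _ _ _ (Ls j) N
      have h2 : (Ls j : ℝ) * (1 + 1 / N) = Ls j + Ls j / N := by ring
      linarith
    have h2 : d * Ls (j + 1) ≤ d * (Ls j * (1 + 1 / N)) := mul_le_mul_of_nonneg_left h1 hd0.le
    have h3 : d * (1 + 1 / N) ≤ c + 19 / 10 / N := by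
      have h4 : (1 : ℝ) / N ≤ 1 / 100 := one_div_le_one_div_of_le (by norm_num) hN100
      have h5 : d * (1 + 1 / N) = c + 11 / 10 / N + (c + 11 / 10 * (1 / N)) * (1 / N) := by
        rw [hd]; ring
      have h6 : (0 : ℝ) < 1 / N := by positivity
      have h7 : (c + 11 / 10 * (1 / N)) * (1 / N) ≤ (8 / 10) * (1 / N) := by
        apply mul_le_mul_of_nonneg_right _ h6.le
        linarith
      have h8 : c + 19 / 10 / N = c + 11 / 10 / N + 8 / 10 * (1 / N) := by ring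
      rw [h5, h8]
      linarith
    have h4 : (0 : ℝ) ≤ Ls j := Nat.cast_nonneg _
    calc X ≤ d * Ls (j + 1) := hnext.le
      _ ≤ d * (Ls j * (1 + 1 / N)) := h2
      _ = d * (1 + 1 / N) * Ls j := by ring
      _ ≤ (c + 19 / 10 / N) * Ls j := mul_le_mul_of_nonneg_right h3 h4
      _ = c * Ls j + 19 / 10 * Ls j / N := by ring

/-- chunk L5, with the last stage as a hypothesis. -/
theorem mass_of_stages_of {N : ℕ} (hN : 100 ≤ N) {C B D κ : ℝ} (T0 : ℕ)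
    (hlast : ∃ L1 : ℕ, ∃ C' : ℝ, ∀ L M t y : ℕ, L1 ≤ L → 2 * L ≤ M → t ≤ T0 → ∀ G : Finset (List ℕ),
      Stage N M t L y C B D κ G → ∀ Θ : ℝ,
      Real.log (4 / 3) * L + 11 / 10 * L / N ≤ Real.log Θ → Real.log Θ ≤ Real.log (4 / 3) * L + 19 / 10 * L / N →
      0 < Θ → ∃ G' : Finset (List ℕ), (∀ l ∈ G', GoodW (5 / N) C' (B + 1) Θ y l) ∧
        κ / 4 ≤ ∑ l ∈ G', (3 : ℝ) ^ l.length / (2 : ℝ) ^ l.sum)
    (Ls : ℕ → ℕ) (h0 : N ≤ Ls 0) (hs : ∀ j, Ls (j + 1) = Ls j + Ls j / N)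
    (H : ∀ y : ℕ, y % 3 ≠ 0 → ∀ j M : ℕ, 2 * Ls j ≤ M → ∃ t ≤ T0, ∃ G : Finset (List ℕ),
      Stage N M t (Ls j) y C B D κ G) :
    ∃ Θ0 C' : ℝ, ∀ y : ℕ, y % 3 ≠ 0 → ∀ Θ : ℝ, Θ0 ≤ Θ → ∃ G : Finset (List ℕ),
      (∀ l ∈ G, GoodW (5 / N) C' (B + 1) Θ y l) ∧
      κ / 4 ≤ ∑ l ∈ G, (3 : ℝ) ^ l.length / (2 : ℝ) ^ l.sum := by
  obtain ⟨L1, C', hl⟩ := hlast
  obtain ⟨X0, hX0⟩ := windows_cover hN Ls h0 hs L1
  refine ⟨Real.exp X0, C', fun y hy Θ hΘ => ?_⟩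
  have hΘ0 : 0 < Θ := lt_of_lt_of_le (Real.exp_pos _) hΘ
  have hlog : X0 ≤ Real.log Θ := by
    rw [Real.le_log_iff_exp_le hΘ0]
    exact hΘ
  obtain ⟨j, hj1, hj2, hj3⟩ := hX0 _ hlog
  obtain ⟨t, ht, G, hG⟩ := H y hy j (2 * Ls j) le_rfl
  exact hl (Ls j) (2 * Ls j) t y hj1 le_rfl ht G hG Θ hj2 hj3 hΘ0

end H62y
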