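import Pool.Agent.Lib.H62y.LastStage
import Pool.Agent.Lib.H62y.MassStages

set_option autoImplicit false
open Finset
namespace H62y
open H62w

/-- Mass of words of every large size, from stages. -/
theorem mass_of_stages
    (hT : ∀ A : ℕ, ∃ K : ℝ, ∀ M n : ℕ, 2 * n ≤ M → tt M (n + 1) n ≤ K / ((n : ℝ) + 1) ^ A)
    {N : ℕ} (hN : 100 ≤ N) {C B D κ : ℝ} (hC : 0 ≤ C) (hB : 0 ≤ B) (hD : 0 ≤ D) (hκ : 0 < κ) (T0 : ℕ)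
    (Ls : ℕ → ℕ) (h0 : N ≤ Ls 0) (hs : ∀ j, Ls (j + 1) = Ls j + Ls j / N)
    (H : ∀ y : ℕ, y % 3 ≠ 0 → ∀ j M : ℕ, 2 * Ls j ≤ M → ∃ t ≤ T0, ∃ G : Finset (List ℕ),
      Stage N M t (Ls j) y C B D κ G) :
    ∃ Θ0 C' : ℝ, ∀ y : ℕ, y % 3 ≠ 0 → ∀ Θ : ℝ, Θ0 ≤ Θ → ∃ G : Finset (List ℕ),
      (∀ l ∈ G, GoodW (5 / N) C' (B + 1) Θ y l) ∧
      κ / 4 ≤ ∑ l ∈ G, (3 : ℝ) ^ l.length / (2 : ℝ) ^ l.sum :=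
  mass_of_stages_of hN T0 (last_stage hT hN hC hB hD hκ T0) Ls h0 hs H

end H62y
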