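import Pool.Agent.Lib.H62y.ThmB

/-!
# Chunk YA: superadditivity of the class means of `log W`
-/

set_option autoImplicit false
open Finset
namespace H62y
open H62w

variable {β : ℝ} {M : ℕ}

/-- The lifts of a residue `r` mod `3^(t+1)` to residues mod `3^(t+n+1)`. -/
theorem YA_lift (t n v : ℕ) (r : ℕ) (hr : r < 3 ^ (t + 1)) (hrv : r % 3 = v) :
    ((range (3 ^ (t + n + 1))).filter (fun y => y % 3 = v)).filter
        (fun x => x % 3 ^ (t + 1) = r) =
      (range (3 ^ n)).image (fun u => r + 3 ^ (t + 1) * u) := by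
  have hp : 3 ^ (t + n + 1) = 3 ^ (t + 1) * 3 ^ n := by
    rw [← pow_add]; congr 1; omega
  have h0 : 0 < 3 ^ (t + 1) := by positivity
  ext x
  simp only [mem_filter, mem_image, mem_range]
  constructor
  · rintro ⟨⟨hx, _⟩, hxr⟩
    refine ⟨x / 3 ^ (t + 1), ?_, ?_⟩
    · rw [hp] at hx
      exact Nat.div_lt_of_lt_mul hx
    · rw [← hxr]; exact Nat.mod_add_div x _
  · rintro ⟨u, hu, rfl⟩
    refine ⟨⟨?_, ?_⟩, ?_⟩
    · rw [hp]
      calc r + 3 ^ (t + 1) * u < 3 ^ (t + 1) + 3 ^ (t + 1) * u := by omega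
        _ = 3 ^ (t + 1) * (u + 1) := by ring
        _ ≤ 3 ^ (t + 1) * 3 ^ n := Nat.mul_le_mul_left _ hu
    · rw [pow_succ', mul_assoc, Nat.add_mul_mod_self_left]
      exact hrv
    · rw [Nat.add_mul_mod_self_left]
      exact Nat.mod_eq_of_lt hr

theorem YA_inj (t n r : ℕ) : Set.InjOn (fun u => r + 3 ^ (t + 1) * u)
    ((range (3 ^ n) : Finset ℕ) : Set ℕ) := by
  intro u _ u' _ h
  have h1 : 3 ^ (t + 1) * u = 3 ^ (t + 1) * u' := by
    have h2 : r + 3 ^ (t + 1) * u = r + 3 ^ (t + 1) * u' := h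
    omega
  exact Nat.eq_of_mul_eq_mul_left (by positivity) h1

/-- One class: mean of the log ratios. -/
theorem YA_class (hβ : 0 < β) (hβ1 : β ≤ 1) (hM : 7 ≤ M) (t n v r : ℕ) (hr : r < 3 ^ (t + 1))
    (hrv : r % 3 = v) (hv : v ≠ 0) :
    (3 : ℝ) ^ n * Real.log (W β M t r) + 3 ^ n * AA β M n ≤
      ∑ x ∈ ((range (3 ^ (t + n + 1))).filter (fun y => y % 3 = v)).filter
        (fun x => x % 3 ^ (t + 1) = r), Real.log (W β M (t + n) x) := by
  obtain ⟨Cb, _, hCb⟩ := W_bound hβ hβ1 hM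
  rw [YA_lift t n v r hr hrv]
  set C := (range (3 ^ n)).image (fun u => r + 3 ^ (t + 1) * u) with hC
  have hcard : C.card = 3 ^ n := by
    rw [hC, card_image_of_injOn (YA_inj t n r), card_range]
  have hmod : ∀ x ∈ C, x % 3 ^ (t + 1) = r := by
    intro x hx
    rw [hC, mem_image] at hx
    obtain ⟨u, _, rfl⟩ := hx
    rw [Nat.add_mul_mod_self_left]
    exact Nat.mod_eq_of_lt hr
  have hdiv : ∀ u, (r + 3 ^ (t + 1) * u) / 3 ^ (t + 1) = u := by
    intro u
    rw [Nat.add_mul_div_left _ _ (by positivity), Nat.div_eq_of_lt hr, zero_add]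
  have hun : ∀ w ∈ range (3 ^ n),
      |((C.filter (fun x => x / 3 ^ (t + 1) % 3 ^ n = w)).card : ℝ) / C.card - 1 / 3 ^ n| ≤ 0 := by
    intro w hw
    have h1 : C.filter (fun x => x / 3 ^ (t + 1) % 3 ^ n = w) = {r + 3 ^ (t + 1) * w} := by
      ext x
      rw [mem_filter, mem_singleton, hC, mem_image]
      constructor
      · rintro ⟨⟨u, hu, rfl⟩, h⟩
        rw [hdiv, Nat.mod_eq_of_lt (mem_range.1 hu)] at h
        rw [h]
      · rintro rfl
        refine ⟨⟨w, hw, rfl⟩, ?_⟩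
        rw [hdiv, Nat.mod_eq_of_lt (mem_range.1 hw)]
    rw [h1, card_singleton, hcard]
    push_cast
    rw [sub_self, abs_zero]
  have h := J_class_ratio hβ hβ1 hM hCb t n r hr (by rw [hrv]; exact hv) 0 le_rfl C hmod hun
  rw [Finset.sum_sub_distrib, hcard] at h
  have h2 : ∑ x ∈ C, Real.log (W β M t x) = (3 : ℝ) ^ n * Real.log (W β M t r) := by
    rw [Finset.sum_congr rfl (g := fun _ => Real.log (W β M t r))]
    · rw [Finset.sum_const, nsmul_eq_mul, hcard]; push_cast; ring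
    · intro x hx
      rw [W_mod, hmod x hx]
  rw [h2] at h
  push_cast at h
  linarith

theorem YA_card (t v : ℕ) (hv : v < 3) :
    ((range (3 ^ (t + 1))).filter (fun y => y % 3 = v)).card = 3 ^ t := by
  have h : (range (3 ^ (t + 1))).filter (fun y => y % 3 = v) =
      (range (3 ^ t)).image (fun w => 3 * w + v) := by
    ext y
    rw [mem_filter, mem_image, mem_range]
    constructor
    · rintro ⟨hy, hyv⟩
      refine ⟨y / 3, ?_, ?_⟩
      · rw [mem_range]
        rw [pow_succ'] at hy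
        exact Nat.div_lt_of_lt_mul hy
      · rw [← hyv]; exact Nat.div_add_mod y 3
    · rintro ⟨w, hw, rfl⟩
      rw [mem_range] at hw
      refine ⟨?_, ?_⟩
      · rw [pow_succ']; omega
      · omega
  rw [h, card_image_of_injective, card_range]
  intro a b hab
  have : 3 * a + v = 3 * b + v := hab
  omega

theorem YA_av (hβ : 0 < β) (hβ1 : β ≤ 1) (hM : 7 ≤ M) (t n v : ℕ) (hv : v < 3) (hv0 : v ≠ 0) :
    av β M t v + AA β M n ≤ av β M (t + n) v := by
  unfold av
  set A := (range (3 ^ (t + n + 1))).filter (fun y => y % 3 = v) with hA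
  set B := (range (3 ^ (t + 1))).filter (fun y => y % 3 = v) with hB
  have hmaps : ∀ x ∈ A, x % 3 ^ (t + 1) ∈ B := by
    intro x hx
    rw [hA, mem_filter] at hx
    rw [hB, mem_filter, mem_range]
    refine ⟨Nat.mod_lt _ (by positivity), ?_⟩
    rw [Nat.mod_mod_of_dvd _ (dvd_pow_self 3 (by omega))]
    exact hx.2
  have h1 : (3 : ℝ) ^ n * ∑ y ∈ B, Real.log (W β M t y) + 3 ^ n * AA β M n * 3 ^ t ≤
      ∑ x ∈ A, Real.log (W β M (t + n) x) := by
    rw [← Finset.sum_fiberwise_of_maps_to hmaps]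
    have h2 : (3 : ℝ) ^ n * ∑ y ∈ B, Real.log (W β M t y) + 3 ^ n * AA β M n * 3 ^ t =
        ∑ r ∈ B, ((3 : ℝ) ^ n * Real.log (W β M t r) + 3 ^ n * AA β M n) := by
      rw [Finset.sum_add_distrib, ← Finset.mul_sum, Finset.sum_const, nsmul_eq_mul,
        YA_card t v hv]
      push_cast
      ring
    rw [h2]
    refine Finset.sum_le_sum fun r hr => ?_
    rw [hB, mem_filter, mem_range] at hr
    exact YA_class hβ hβ1 hM t n v r hr.1 hr.2 hv0
  have h3 : (0 : ℝ) < 3 ^ t := by positivity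
  have h4 : (0 : ℝ) < 3 ^ n := by positivity
  rw [le_div_iff₀ (by positivity), pow_add]
  have h5 : ((∑ y ∈ B, Real.log (W β M t y)) / 3 ^ t + AA β M n) * (3 ^ t * 3 ^ n) =
      (3 : ℝ) ^ n * ∑ y ∈ B, Real.log (W β M t y) + 3 ^ n * AA β M n * 3 ^ t := by
    field_simp
  rw [h5]
  exact h1

theorem YA_add (hβ : 0 < β) (hβ1 : β ≤ 1) (hM : 7 ≤ M) (t n : ℕ) :
    AA β M t + AA β M n ≤ AA β M (t + n) := by
  have h1 := YA_av hβ hβ1 hM t n 1 (by norm_num) (by norm_num)
  have h2 := YA_av hβ hβ1 hM t n 2 (by norm_num) (by norm_num)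
  have h3 : AA β M t ≤ av β M t 1 := min_le_left _ _
  have h4 : AA β M t ≤ av β M t 2 := min_le_right _ _
  have h5 : AA β M (t + n) = min (av β M (t + n) 1) (av β M (t + n) 2) := rfl
  rw [h5, le_min_iff]
  constructor <;> linarith

theorem YA_zero (hβ : 0 < β) (hβ1 : β ≤ 1) (hM : 7 ≤ M) : AA β M 0 = 0 := by
  obtain ⟨Cb, _, hCb⟩ := W_bound hβ hβ1 hM
  have hz : ∀ v : ℕ, v ≠ 0 → av β M 0 v = 0 := by
    intro v hv
    unfold av
    rw [Finset.sum_eq_zero, zero_div]
    intro y hy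
    rw [mem_filter] at hy
    have h := (hCb 0 y (by rw [hy.2]; exact hv)).2
    rw [Nat.cast_zero, mul_zero] at h
    exact abs_eq_zero.1 (le_antisymm h (abs_nonneg _))
  have h5 : AA β M 0 = min (av β M 0 1) (av β M 0 2) := rfl
  rw [h5, hz 1 (by norm_num), hz 2 (by norm_num), min_self]

/-- Superadditivity of the mean (chunk YA). -/
theorem AA_super {β : ℝ} (hβ : 0 < β) (hβ1 : β ≤ 1) {M : ℕ} (hM : 7 ≤ M) (n j : ℕ) :
    (j : ℝ) * AA β M n ≤ AA β M (j * n) := by
  induction j with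
  | zero => rw [Nat.cast_zero, zero_mul, zero_mul, YA_zero hβ hβ1 hM]
  | succ j ih =>
    have h := YA_add hβ hβ1 hM (j * n) n
    have e : (j + 1) * n = j * n + n := by ring
    rw [e]
    push_cast
    linarith

end H62y
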