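import Pool.Agent.Lib.H62y.Stage
import Pool.Agent.Lib.H62w.Source1

set_option autoImplicit false
open Finset

/-!
Chunk L3b: the square root of `cc u / 2^|u|` has bounded mean when letters up to `M` with `3 ≤ M` are allowed.
(For `M = 1` and `M = 2` the statement is false.)
-/

namespace H62y
open H62w

namespace BadCc

/-- `1 / sqrt 2`. -/
noncomputable def rr : ℝ := Real.sqrt (1 / 2)

theorem rr_sq : rr * rr = 1 / 2 := Real.mul_self_sqrt (by norm_num)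

theorem rr_nonneg : 0 ≤ rr := Real.sqrt_nonneg _

theorem rr_le : rr ≤ 70711 / 100000 := by
  unfold rr
  rw [Real.sqrt_le_left (by norm_num)]
  norm_num

theorem s3_le : Real.sqrt 3 ≤ 173206 / 100000 := by
  rw [Real.sqrt_le_left (by norm_num)]
  norm_num

/-- `E 2^(-a/2)`. -/
noncomputable def gg (M : ℕ) : ℝ := ∑ a ∈ Icc 1 M, pa M a * rr ^ a

theorem gg_succ (m : ℕ) : gg (m + 1) = ∑ a ∈ Icc 1 m, ((1 : ℝ) / 2) ^ a * rr ^ a + (1 / 2) ^ m * rr ^ (m + 1) := by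
  unfold gg
  rw [Src.sum_Icc_split, sum_congr rfl (fun a ha => by rw [Src.pa_lt ha]), Src.pa_top]

theorem gg_anti (m : ℕ) : gg (m + 2) ≤ gg (m + 1) := by
  rw [gg_succ, gg_succ, Src.sum_Icc_split]
  have h1 : 0 ≤ ((1 : ℝ) / 2) ^ m * rr ^ (m + 1) := mul_nonneg (by positivity) (pow_nonneg rr_nonneg _)
  have h2 : ((1 : ℝ) / 2) ^ (m + 1) * rr ^ (m + 1) + (1 / 2) ^ (m + 1) * rr ^ (m + 1 + 1)
      = (1 / 2) ^ m * rr ^ (m + 1) * ((1 + rr) / 2) := by
    rw [pow_succ ((1 : ℝ) / 2) m, pow_succ rr (m + 1)]; ring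
  have h3 : (1 + rr) / 2 ≤ 1 := by have := rr_le; linarith
  nlinarith [mul_le_mul_of_nonneg_left h3 h1]

theorem gg_three : gg 3 ≤ 567 / 1000 := by
  have h : gg 3 = rr / 2 + rr * rr / 4 + rr * rr * rr / 4 := by
    rw [gg_succ 2]
    rw [show Icc 1 2 = ({1, 2} : Finset ℕ) from rfl, sum_pair (by norm_num)]
    ring
  rw [h, rr_sq]
  have := rr_le
  linarith

theorem gg_le {M : ℕ} (hM : 3 ≤ M) : gg M ≤ 567 / 1000 := by
  induction M, hM using Nat.le_induction with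
  | base => exact gg_three
  | succ m hm ih =>
    obtain ⟨j, rfl⟩ : ∃ j, m = j + 1 := ⟨m - 1, by omega⟩
    exact (gg_anti j).trans ih

theorem gg_nonneg (M : ℕ) : 0 ≤ gg M :=
  sum_nonneg (fun a _ => mul_nonneg (Src.pa_pos M a).le (pow_nonneg rr_nonneg _))

/-- `sqrt (cc l / 2^|l|)`. -/
noncomputable def zz (l : List ℕ) : ℝ := Real.sqrt ((cc l : ℝ) / 2 ^ l.sum)

theorem zz_cons (a : ℕ) (l : List ℕ) : zz (a :: l) ≤ rr ^ a * (1 + Real.sqrt 3 * zz l) := by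
  have hz : 0 ≤ zz l := Real.sqrt_nonneg _
  have hR : 0 ≤ rr ^ a * (1 + Real.sqrt 3 * zz l) := mul_nonneg (pow_nonneg rr_nonneg _) (by positivity)
  have hzz : zz l * zz l = (cc l : ℝ) / 2 ^ l.sum := Real.mul_self_sqrt (by positivity)
  have h3 : Real.sqrt 3 * Real.sqrt 3 = 3 := Real.mul_self_sqrt (by norm_num)
  have hra : rr ^ a * rr ^ a = (1 / 2) ^ a := by rw [← mul_pow, rr_sq]
  have hsq : (rr ^ a * (1 + Real.sqrt 3 * zz l)) ^ 2
      = (1 / 2) ^ a * (1 + 3 * ((cc l : ℝ) / 2 ^ l.sum) + 2 * (Real.sqrt 3 * zz l)) := by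
    rw [← hzz, ← hra]
    linear_combination (rr ^ a * rr ^ a * zz l * zz l) * h3
  rw [zz, Real.sqrt_le_left hR, hsq]
  have he : ((cc (a :: l) : ℕ) : ℝ) / 2 ^ (a :: l).sum = (1 / 2) ^ a * (1 + 3 * ((cc l : ℝ) / 2 ^ l.sum)) := by
    rw [cc, List.sum_cons, pow_add]
    push_cast
    field_simp
    rw [← mul_pow]
    norm_num
  rw [he]
  have h5 : 0 ≤ ((1 : ℝ) / 2) ^ a * (2 * (Real.sqrt 3 * zz l)) := by positivity
  linarith

theorem mean_le {M : ℕ} (hM : 3 ≤ M) (k : ℕ) : ∑ l ∈ words M k, pw M l * zz l ≤ 32 := by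
  obtain ⟨m, rfl⟩ : ∃ m, M = m + 1 := ⟨M - 1, by omega⟩
  induction k with
  | zero => simp [words, pw, zz, cc]
  | succ k ih =>
    rw [Src.sum_words_succ]
    have h1 : ∀ a ∈ Icc 1 (m + 1), ∑ l ∈ words (m + 1) k, pw (m + 1) (a :: l) * zz (a :: l)
        ≤ (pa (m + 1) a * rr ^ a) * (1 + Real.sqrt 3 * ∑ l ∈ words (m + 1) k, pw (m + 1) l * zz l) := by
      intro a _
      have h2 : ∀ l ∈ words (m + 1) k, pw (m + 1) (a :: l) * zz (a :: l)
          ≤ (pa (m + 1) a * rr ^ a) * (pw (m + 1) l + Real.sqrt 3 * (pw (m + 1) l * zz l)) := by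
        intro l _
        rw [Src.pw_cons]
        have h3 := mul_le_mul_of_nonneg_left (zz_cons a l)
          (mul_nonneg (Src.pa_pos (m + 1) a).le (Src.pw_pos (m + 1) l).le)
        calc _ ≤ _ := h3
          _ = _ := by ring
      calc _ ≤ _ := sum_le_sum h2
        _ = _ := by rw [← mul_sum, sum_add_distrib, ← mul_sum, pw_sum (by omega)]
    calc _ ≤ _ := sum_le_sum h1
      _ = gg (m + 1) * (1 + Real.sqrt 3 * ∑ l ∈ words (m + 1) k, pw (m + 1) l * zz l) := by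
        rw [← sum_mul]; rfl
      _ ≤ 567 / 1000 * (1 + 173206 / 100000 * 32) := by
        have h0 : 0 ≤ ∑ l ∈ words (m + 1) k, pw (m + 1) l * zz l :=
          sum_nonneg (fun l _ => mul_nonneg (Src.pw_pos _ _).le (Real.sqrt_nonneg _))
        have h4 : Real.sqrt 3 * ∑ l ∈ words (m + 1) k, pw (m + 1) l * zz l ≤ 173206 / 100000 * 32 :=
          mul_le_mul s3_le ih h0 (by norm_num)
        exact mul_le_mul (gg_le hM) (by linarith) (by positivity) (by norm_num)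
      _ ≤ 32 := by norm_num

end BadCc

/-- chunk L3b. -/
theorem bad_cc : ∃ C : ℝ, 0 < C ∧ ∀ M k : ℕ, 3 ≤ M → ∀ R : ℝ, 1 ≤ R →
    ∑ u ∈ (words M k).filter (fun u => R * 2 ^ u.sum < (cc u : ℝ)), pw M u ≤ C / Real.sqrt R := by
  refine ⟨32, by norm_num, ?_⟩
  intro M k hM R hR
  have hs : 0 < Real.sqrt R := Real.sqrt_pos.mpr (by linarith)
  rw [le_div_iff₀ hs, sum_mul]
  refine le_trans ?_ (BadCc.mean_le hM k)
  refine le_trans (sum_le_sum (g := fun u => pw M u * BadCc.zz u) ?_)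
    (sum_le_sum_of_subset_of_nonneg (filter_subset _ _)
      (fun u _ _ => mul_nonneg (Src.pw_pos M u).le (Real.sqrt_nonneg _)))
  intro u hu
  rw [mem_filter] at hu
  refine mul_le_mul_of_nonneg_left ?_ (Src.pw_pos M u).le
  unfold BadCc.zz
  apply Real.sqrt_le_sqrt
  rw [le_div_iff₀ (by positivity)]
  exact hu.2.le

end H62y
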