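import Pool.Agent.Lib.H62w.Defs

set_option autoImplicit false

/-!
Interface between the propagation (mass of long words never decays) and the last stage (count).
-/

open Finset

namespace H62y
open H62w

/-- `3^len / 2^|l|`. -/
noncomputable def om (l : List ℕ) : ℝ := (3 : ℝ) ^ l.length / (2 : ℝ) ^ l.sum

/-- Law of the sum of `m` letters. -/
noncomputable def PL (M m s : ℕ) : ℝ := ∑ l ∈ (words M m).filter (fun l => l.sum = s), pw M l

/-- A finite set `G` of words of length `t + L` valid at `y`, of controlled size, with bounded density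
of the end points on `0.15 L` digits, and with lookahead mass at least `κ`. -/
structure Stage (N M t L y : ℕ) (C B D κ : ℝ) (G : Finset (List ℕ)) : Prop where
  len : ∀ l ∈ G, l.length = t + L
  letters : ∀ l ∈ G, ∀ a ∈ l, 1 ≤ a ∧ a < M
  val : ∀ l ∈ G, va l y
  sums : ∀ l ∈ G, |(l.sum : ℝ) - 2 * L| ≤ (L : ℝ) / N + C
  ccb : ∀ l ∈ G, (cc l : ℝ) ≤ B * 2 ^ l.sum
  dens : ∀ r z : ℕ, 20 * r ≤ 3 * L →
    ∑ l ∈ G.filter (fun l => en l y % 3 ^ r = z % 3 ^ r), om l ≤ D * (L : ℝ) ^ 3 / 3 ^ r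
  phi : κ ≤ ∑ l ∈ G, om l * (3 ^ (L / N) * mu M (L / N) (en l y))

end H62y
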