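import Pool.Agent.Lib.H62w.Source1
import Pool.Agent.Lib.H62y.Stage

set_option autoImplicit false

/-!
Chunk L3a: typical words.
-/

open Finset

namespace H62y
open H62w H62w.Src

theorem bad_letter (M k : ℕ) (hM : 1 ≤ M) :
    ∑ u ∈ (words M k).filter (fun u => ¬ ∀ a ∈ u, a < M), pw M u ≤ k * (1 / 2) ^ (M - 1) := by
  obtain ⟨m, rfl⟩ : ∃ m, M = m + 1 := ⟨M - 1, by omega⟩
  induction k with
  | zero => rw [words, sum_filter, sum_singleton]; simp
  | succ k ih =>
    rw [sum_filter] at ih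
    rw [sum_filter, sum_words_succ]
    have h1 : ∀ a ∈ Icc 1 (m + 1), ∑ l ∈ words (m + 1) k,
        (if ¬ ∀ b ∈ a :: l, b < m + 1 then pw (m + 1) (a :: l) else 0) ≤
        (if a = m + 1 then (1 / 2 : ℝ) ^ m else 0) +
          pa (m + 1) a * ∑ l ∈ words (m + 1) k, (if ¬ ∀ b ∈ l, b < m + 1 then pw (m + 1) l else 0) := by
      intro a ha
      rw [mem_Icc] at ha
      by_cases h : a = m + 1
      · rw [if_pos h]
        have h2 : ∑ l ∈ words (m + 1) k, (if ¬ ∀ b ∈ a :: l, b < m + 1 then pw (m + 1) (a :: l) else 0)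
            ≤ ∑ l ∈ words (m + 1) k, (1 / 2 : ℝ) ^ m * pw (m + 1) l := by
          apply sum_le_sum
          intro l _
          have h3 : pw (m + 1) (a :: l) = (1 / 2 : ℝ) ^ m * pw (m + 1) l := by
            rw [pw_cons, h, pa_top]
          split_ifs
          · exact mul_nonneg (by positivity) (pw_pos _ _).le
          · rw [h3]
        rw [← mul_sum, pw_sum (by omega), mul_one] at h2
        have h4 : 0 ≤ pa (m + 1) a * ∑ l ∈ words (m + 1) k, (if ¬ ∀ b ∈ l, b < m + 1 then pw (m + 1) l else 0) := by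
          apply mul_nonneg (pa_pos _ _).le
          apply sum_nonneg
          intro l _
          split_ifs
          · exact le_refl _
          · exact (pw_pos _ _).le
        linarith
      · rw [if_neg h, zero_add, mul_sum]
        apply sum_le_sum
        intro l _
        have h5 : (∀ b ∈ a :: l, b < m + 1) ↔ ∀ b ∈ l, b < m + 1 := by
          rw [List.forall_mem_cons]
          constructor
          · exact fun h => h.2
          · exact fun h' => ⟨by omega, h'⟩
        simp only [h5, pw_cons]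
        split_ifs
        · simp
        · exact le_refl _
    refine (sum_le_sum h1).trans ?_
    rw [sum_add_distrib, ← sum_mul, pa_sum, one_mul, sum_ite_eq' (Icc 1 (m + 1)) (m + 1), if_pos (by simp)]
    simp only [Nat.add_sub_cancel] at ih ⊢
    push_cast
    linarith

theorem geo_exact (m : ℕ) (v : ℝ) (hv1 : v < 1) :
    ∑ a ∈ Icc 1 m, v ^ a = (v - v ^ (m + 1)) / (1 - v) := by
  rw [eq_div_iff (by linarith)]
  induction m with
  | zero => simp
  | succ m ih => rw [sum_Icc_split, add_mul, ih, pow_succ v (m + 1)]; ring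

/-- `E s^a` for `s ≤ 1`. -/
theorem letter_moment_low (m : ℕ) (s : ℝ) (hs : 0 < s) (hs1 : s ≤ 1) :
    ∑ a ∈ Icc 1 (m + 1), pa (m + 1) a * s ^ a ≤ s / (2 - s) * (1 + (1 / 2) ^ m) := by
  rw [sum_Icc_split, sum_congr rfl (fun a ha => by rw [pa_lt ha]), pa_top]
  have h1 : ∑ x ∈ Icc 1 m, ((1 : ℝ) / 2) ^ x * s ^ x = ∑ a ∈ Icc 1 m, (s / 2) ^ a := by
    apply sum_congr rfl; intro x _; rw [← mul_pow]; congr 1; ring
  rw [h1, geo_exact m (s / 2) (by linarith)]
  have h2 : (0 : ℝ) < 2 - s := by linarith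
  have h3 : (s / 2 - (s / 2) ^ (m + 1)) / (1 - s / 2) + (1 / 2) ^ m * s ^ (m + 1)
      = s / (2 - s) * (1 + (s / 2) ^ m * (1 - s)) := by
    have h4 : (1 / 2 : ℝ) ^ m * s ^ (m + 1) = (s / 2) ^ m * s := by
      rw [pow_succ, div_pow, div_pow, one_pow]; ring
    have h5 : (1 - s / 2) ≠ 0 := by linarith
    rw [h4, pow_succ (s / 2) m]
    field_simp
    ring
  rw [h3]
  apply mul_le_mul_of_nonneg_left _ (by positivity)
  have h6 : (s / 2) ^ m ≤ (1 / 2) ^ m := by gcongr
  have h7 : 0 ≤ (s / 2) ^ m := by positivity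
  nlinarith

theorem log_low {x : ℝ} (hx : 0 < x) : x - x ^ 2 ≤ Real.log (1 + x) := by
  have h := Real.one_sub_inv_le_log_of_pos (show (0 : ℝ) < 1 + x by linarith)
  refine le_trans ?_ h
  have h2 : 1 - (1 + x)⁻¹ = x / (1 + x) := by
    have : (1 + x) ≠ 0 := by linarith
    rw [eq_div_iff this, sub_mul, inv_mul_cancel₀ this]; ring
  rw [h2, le_div_iff₀ (by linarith)]
  nlinarith [pow_pos hx 3]

theorem log_low2 {x : ℝ} (hx : 0 < x) (hx1 : x ≤ 1 / 4) : -x - 4 / 3 * x ^ 2 ≤ Real.log (1 - x) := by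
  have h := Real.one_sub_inv_le_log_of_pos (show (0 : ℝ) < 1 - x by linarith)
  refine le_trans ?_ h
  have h2 : 1 - (1 - x)⁻¹ = -(x / (1 - x)) := by
    have : (1 - x) ≠ 0 := by linarith
    field_simp; ring
  rw [h2]
  have h3 : x / (1 - x) ≤ x + 4 / 3 * x ^ 2 := by
    rw [div_le_iff₀ (by linarith)]
    nlinarith [mul_nonneg (sq_nonneg x) (by linarith : (0:ℝ) ≤ 1 / 4 - x)]
  linarith

theorem bad_small (N : ℕ) (hN : 1 ≤ N) : ∃ c C : ℝ, 0 < c ∧ 0 < C ∧ ∀ M k : ℕ, k ≤ M →
    ∑ u ∈ (words M k).filter (fun u => ¬ (|(u.sum : ℝ) - 2 * k| ≤ (k : ℝ) / N)), pw M u ≤ C * Real.exp (-(c * k)) := by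
  have hN0 : (1 : ℝ) ≤ N := by exact_mod_cast hN
  set x : ℝ := 1 / (4 * N) with hx
  have hx0 : 0 < x := by positivity
  have hx4 : x ≤ 1 / 4 := by
    rw [hx]
    apply one_div_le_one_div_of_le (by norm_num)
    linarith
  have hxN : x * N = 1 / 4 := by
    rw [hx]; field_simp
  set t : ℝ := 1 + x with ht
  set s : ℝ := 1 - x with hs
  have hlt : x - x ^ 2 ≤ Real.log t := log_low hx0
  have hls : -x - 4 / 3 * x ^ 2 ≤ Real.log s := log_low2 hx0 hx4
  have hlt0 : 0 < Real.log t := Real.log_pos (by linarith)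
  have hls0 : Real.log s < 0 := Real.log_neg (by linarith) (by linarith)
  set δ : ℝ := 1 / N with hδ
  have hδ0 : 0 < δ := by positivity
  have hδ1 : δ ≤ 1 := by
    rw [hδ, div_le_one (by linarith)]; exact hN0
  have hxδ : x = δ / 4 := by rw [hx, hδ]; field_simp
  -- the two rates
  have hr1 : x * δ / 6 ≤ (1 + δ) * Real.log t + Real.log s := by
    have h1 : (1 + δ) * (x - x ^ 2) ≤ (1 + δ) * Real.log t := mul_le_mul_of_nonneg_left hlt (by linarith)
    rw [hxδ] at h1 hls ⊢
    nlinarith [mul_pos hδ0 hδ0, mul_nonneg (mul_pos hδ0 hδ0).le (by linarith : (0 : ℝ) ≤ 1 - δ)]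
  have hr2 : x * δ / 6 ≤ (1 - δ) * Real.log s + Real.log t := by
    have h1 : (1 - δ) * (-x - 4 / 3 * x ^ 2) ≤ (1 - δ) * Real.log s := mul_le_mul_of_nonneg_left hls (by linarith)
    rw [hxδ] at h1 hlt ⊢
    nlinarith [mul_pos hδ0 hδ0, mul_nonneg (mul_pos hδ0 hδ0).le (by linarith : (0 : ℝ) ≤ 1 - δ)]
  refine ⟨x * δ / 6, 4, by positivity, by norm_num, fun M k hk => ?_⟩
  rcases Nat.eq_zero_or_pos M with hM | hM
  · subst hM
    have hk0 : k = 0 := by omega
    subst hk0
    rw [words, sum_filter, sum_singleton]; simp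
  obtain ⟨m, rfl⟩ : ∃ m, M = m + 1 := ⟨M - 1, by omega⟩
  have hk0 : (0 : ℝ) ≤ k := Nat.cast_nonneg k
  rw [sum_filter]
  have hpt : ∀ u ∈ words (m + 1) k,
      (if ¬ (|(u.sum : ℝ) - 2 * k| ≤ (k : ℝ) / N) then pw (m + 1) u else 0) ≤
      Real.exp (-((2 + δ) * k * Real.log t)) * (pw (m + 1) u * t ^ u.sum) +
      Real.exp (-((2 - δ) * k * Real.log s)) * (pw (m + 1) u * s ^ u.sum) := by
    intro u _
    have hp := pw_pos (m + 1) u
    have ht0 : (0 : ℝ) < t := by linarith
    have hs0 : (0 : ℝ) < s := by linarith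
    have e1 : Real.exp (-((2 + δ) * k * Real.log t)) * (pw (m + 1) u * t ^ u.sum)
        = pw (m + 1) u * Real.exp ((u.sum - (2 + δ) * k) * Real.log t) := by
      have : t ^ u.sum = Real.exp (u.sum * Real.log t) := by
        rw [← Real.log_pow, Real.exp_log (by positivity)]
      rw [this, mul_comm, mul_assoc, ← Real.exp_add]
      congr 2
      ring
    have e2 : Real.exp (-((2 - δ) * k * Real.log s)) * (pw (m + 1) u * s ^ u.sum)
        = pw (m + 1) u * Real.exp ((u.sum - (2 - δ) * k) * Real.log s) := by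
      have : s ^ u.sum = Real.exp (u.sum * Real.log s) := by
        rw [← Real.log_pow, Real.exp_log (by positivity)]
      rw [this, mul_comm, mul_assoc, ← Real.exp_add]
      congr 2
      ring
    rw [e1, e2]
    split_ifs with h
    · positivity
    · rw [abs_le, not_and_or, not_le, not_le] at h
      have hkN : (k : ℝ) / N = δ * k := by rw [hδ]; ring
      rw [hkN] at h
      rcases h with h | h
      · have : 0 ≤ (u.sum - (2 - δ) * k) * Real.log s :=
          mul_nonneg_of_nonpos_of_nonpos (by linarith) hls0.le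
        have h1 := Real.one_le_exp this
        have h2 : 0 < pw (m + 1) u * Real.exp ((u.sum - (2 + δ) * k) * Real.log t) := by positivity
        nlinarith
      · have : 0 ≤ (u.sum - (2 + δ) * k) * Real.log t := mul_nonneg (by linarith) hlt0.le
        have h1 := Real.one_le_exp this
        have h2 : 0 < pw (m + 1) u * Real.exp ((u.sum - (2 - δ) * k) * Real.log s) := by positivity
        nlinarith
  refine (sum_le_sum hpt).trans ?_
  rw [sum_add_distrib, ← mul_sum, ← mul_sum]
  have hm1 := words_moment m k t _ (by linarith) (letter_moment m t (by linarith) (by linarith))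
  have hm2 := words_moment m k s _ (by linarith) (letter_moment_low m s (by linarith) (by linarith))
  have g1 : (t / 2) / (1 - t / 2) = Real.exp (Real.log t - Real.log s) := by
    rw [Real.exp_sub, Real.exp_log (by linarith), Real.exp_log (by linarith), ht, hs]
    have h1 : (1 - (1 + x) / 2) ≠ 0 := by linarith
    have h2 : (1 - x) ≠ 0 := by linarith
    rw [div_eq_div_iff h1 h2]
    ring
  have g2 : s / (2 - s) = Real.exp (Real.log s - Real.log t) := by
    rw [Real.exp_sub, Real.exp_log (by linarith), Real.exp_log (by linarith), ht, hs]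
    congr 1
    ring
  rw [g1, ← Real.exp_nat_mul] at hm1
  rw [g2, mul_pow, ← Real.exp_nat_mul] at hm2
  have hk2 : (1 + (1 / 2 : ℝ) ^ m) ^ k ≤ 3 := by
    have h1 : (1 + (1 / 2 : ℝ) ^ m) ≤ Real.exp ((1 / 2) ^ m) := by
      have := Real.add_one_le_exp ((1 / 2 : ℝ) ^ m)
      linarith
    have h2 : (1 + (1 / 2 : ℝ) ^ m) ^ k ≤ Real.exp ((1 / 2) ^ m) ^ k := by gcongr
    rw [← Real.exp_nat_mul] at h2
    have h3 : (k : ℝ) * (1 / 2) ^ m ≤ 1 := by
      have h4 : (k : ℝ) ≤ 2 ^ m := by
        have : k ≤ 2 ^ m := hk.trans (Nat.lt_two_pow_self)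
        exact_mod_cast this
      rw [one_div, inv_pow, ← div_eq_mul_inv, div_le_one (by positivity)]
      exact h4
    have h5 : Real.exp ((k : ℝ) * (1 / 2) ^ m) ≤ Real.exp 1 := Real.exp_le_exp.mpr h3
    have h6 := Real.exp_one_lt_d9
    linarith
  have f1 : Real.exp (-((2 + δ) * k * Real.log t)) * ∑ l ∈ words (m + 1) k, pw (m + 1) l * t ^ l.sum
      ≤ Real.exp (-(x * δ / 6 * k)) := by
    calc _ ≤ Real.exp (-((2 + δ) * k * Real.log t)) * Real.exp (k * (Real.log t - Real.log s)) :=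
          mul_le_mul_of_nonneg_left hm1 (Real.exp_pos _).le
      _ = Real.exp (-(((1 + δ) * Real.log t + Real.log s) * k)) := by
          rw [← Real.exp_add]; congr 1; ring
      _ ≤ _ := by
          apply Real.exp_le_exp.mpr
          have := mul_le_mul_of_nonneg_right hr1 hk0
          linarith
  have f2 : Real.exp (-((2 - δ) * k * Real.log s)) * ∑ l ∈ words (m + 1) k, pw (m + 1) l * s ^ l.sum
      ≤ 3 * Real.exp (-(x * δ / 6 * k)) := by
    calc _ ≤ Real.exp (-((2 - δ) * k * Real.log s)) *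
            (Real.exp (k * (Real.log s - Real.log t)) * (1 + (1 / 2) ^ m) ^ k) :=
          mul_le_mul_of_nonneg_left hm2 (Real.exp_pos _).le
      _ = (1 + (1 / 2) ^ m) ^ k * Real.exp (-(((1 - δ) * Real.log s + Real.log t) * k)) := by
          rw [← mul_assoc, ← Real.exp_add, mul_comm]; congr 2; ring
      _ ≤ 3 * Real.exp (-(x * δ / 6 * k)) := by
          apply mul_le_mul hk2 _ (Real.exp_pos _).le (by norm_num)
          apply Real.exp_le_exp.mpr
          have := mul_le_mul_of_nonneg_right hr2 hk0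
          linarith
  linarith

end H62y
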