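import Pool.Agent.Lib.H62y.ThmB
import Pool.Agent.Lib.H62y.AASuper

set_option autoImplicit false
open Finset
namespace H62y
open H62w

/-! Continuity in beta for the critical class, and the worst case growth. -/

/-- Weights decrease in beta. -/
theorem ZY_W_anti {β β' : ℝ} (h : β ≤ β') (M k y : ℕ) : W β' M k y ≤ W β M k y := by
  unfold W
  refine sum_le_sum fun l hl => ?_
  rw [mem_PP] at hl
  unfold wt
  have h1 : (2 : ℝ) ^ (19 * k) / 2 ^ (10 * l.sum) ≤ 1 := by
    rw [div_le_one (by positivity)]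
    apply pow_le_pow_right₀ (by norm_num)
    have h2 := QC_sum hl.2.2.2
    rw [hl.1.1] at h2
    exact h2
  exact Real.rpow_le_rpow_of_exponent_ge (by positivity) h1 h

theorem ZY_sum_le {M k : ℕ} {l : List ℕ} (hl : l ∈ words M k) : l.sum ≤ M * k := by
  rw [mem_words] at hl
  have h := List.sum_le_card_nsmul l M (fun a ha => (hl.2 a ha).2)
  rw [hl.1, smul_eq_mul, mul_comm] at h
  exact h

/-- Lipschitz continuity in beta. -/
theorem ZY_W_lip {β β' : ℝ} (h : β ≤ β') (M k y : ℕ) :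
    Real.exp (-((β' - β) * (10 * M * Real.log 2) * k)) * W β M k y ≤ W β' M k y := by
  unfold W
  rw [mul_sum]
  refine sum_le_sum fun l hl => ?_
  have hl' := mem_filter.1 hl
  have hs := ZY_sum_le hl'.1
  unfold wt
  have hpos : (0 : ℝ) < 2 ^ (19 * k) / 2 ^ (10 * l.sum) := by positivity
  have h1 : ((2 : ℝ) ^ (19 * k) / 2 ^ (10 * l.sum)) ^ β' =
      ((2 : ℝ) ^ (19 * k) / 2 ^ (10 * l.sum)) ^ (β' - β) * ((2 : ℝ) ^ (19 * k) / 2 ^ (10 * l.sum)) ^ β := by
    rw [← Real.rpow_add hpos]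
    congr 1
    ring
  rw [h1]
  refine mul_le_mul_of_nonneg_right ?_ (by positivity)
  rw [Real.rpow_def_of_pos hpos]
  refine Real.exp_le_exp.mpr ?_
  have h2 : -(10 * M * k * Real.log 2) ≤ Real.log ((2 : ℝ) ^ (19 * k) / 2 ^ (10 * l.sum)) := by
    rw [Real.log_div (by positivity) (by positivity), Real.log_pow, Real.log_pow]
    have h0 : 0 ≤ Real.log 2 := Real.log_nonneg (by norm_num)
    have h3 : (0 : ℝ) ≤ ((19 * k : ℕ) : ℝ) * Real.log 2 := by positivity
    have h4 : ((10 * l.sum : ℕ) : ℝ) * Real.log 2 ≤ 10 * M * k * Real.log 2 := by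
      refine mul_le_mul_of_nonneg_right ?_ h0
      have : ((10 * l.sum : ℕ) : ℝ) ≤ ((10 * (M * k) : ℕ) : ℝ) := by
        exact_mod_cast Nat.mul_le_mul_left 10 hs
      refine this.trans (le_of_eq ?_)
      push_cast
      ring
    linarith
  have h5 : 0 ≤ β' - β := by linarith
  nlinarith

theorem ZY_RR_lip {β β' : ℝ} (hβ : 0 < β) (h : β ≤ β') (hβ1 : β' ≤ 1) {M : ℕ} (hM : 7 ≤ M) :
    RR β M - (β' - β) * (10 * M * Real.log 2) ≤ RR β' M := by
  refine le_of_forall_pos_le_add fun ε hε => ?_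
  obtain ⟨C, hC, hge⟩ := log_mm_ge hβ (le_trans h hβ1) hM (ε := ε / 2) (by positivity)
  obtain ⟨k, hk⟩ := exists_nat_gt (C / (ε / 2))
  have hk0 : (0 : ℝ) < k := lt_of_le_of_lt (by positivity) hk
  have h1 := hge k
  have h2 : Real.log (mm β M k) - (β' - β) * (10 * M * Real.log 2) * k ≤ Real.log (mm β' M k) := by
    obtain ⟨y, hy, hyW⟩ := exists_mm β' M k
    have hy3 : y % 3 ≠ 0 := (mem_U.1 hy).2
    have h3 : Real.exp (-((β' - β) * (10 * M * Real.log 2) * k)) * mm β M k ≤ mm β' M k := by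
      rw [← hyW]
      exact le_trans (mul_le_mul_of_nonneg_left (mm_le β M k y hy3) (Real.exp_pos _).le) (ZY_W_lip h M k y)
    have h4 := mm_pos hβ (le_trans h hβ1) hM k
    have h5 := Real.log_le_log (by positivity) h3
    rw [Real.log_mul (Real.exp_pos _).ne' h4.ne', Real.log_exp] at h5
    linarith
  have h6 := log_mm_le (lt_of_lt_of_le hβ h) hβ1 hM k
  rw [div_lt_iff₀ (by positivity)] at hk
  have h7 : (RR β M - (β' - β) * (10 * M * Real.log 2)) * k ≤ (RR β' M + ε) * k := by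
    nlinarith
  exact le_of_mul_le_mul_right h7 hk0

/-- The means decrease in beta. -/
theorem ZY_AA_anti {β β' : ℝ} (hβ : 0 < β) (h : β ≤ β') (hβ1 : β' ≤ 1) {M : ℕ} (hM : 7 ≤ M) (n : ℕ) :
    AA β' M n ≤ AA β M n := by
  obtain ⟨C, hC, hbd⟩ := W_bound (lt_of_lt_of_le hβ h) hβ1 hM
  have key : ∀ v : ℕ, v = 1 ∨ v = 2 → av β' M n v ≤ av β M n v := by
    intro v hv
    unfold av
    apply div_le_div_of_nonneg_right _ (by positivity)
    refine sum_le_sum fun y hy => ?_
    rw [mem_filter] at hy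
    have hy3 : y % 3 ≠ 0 := by omega
    exact Real.log_le_log (hbd n y hy3).1 (ZY_W_anti h M n y)
  unfold AA
  exact min_le_min (key 1 (Or.inl rfl)) (key 2 (Or.inr rfl))

/-- Two letters. -/
theorem ZY_two (y : ℕ) (hy : y % 3 ≠ 0) : ∃ a b : ℕ, a < b ∧ 2 ≤ a ∧ b ≤ 7 ∧
    (2 ^ a * y % 3 = 1 ∧ nx a y % 3 ≠ 0) ∧ (2 ^ b * y % 3 = 1 ∧ nx b y % 3 ≠ 0) := by
  have hdec : y = 9 * (y / 9) + y % 9 := (Nat.div_add_mod y 9).symm
  set q := y / 9 with hq
  set r := y % 9 with hr
  have key : ∀ a : ℕ, 2 ^ a * y = 9 * (2 ^ a * q) + 2 ^ a * r := fun a => by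
    rw [hdec]; ring
  have hcases : r = 1 ∨ r = 2 ∨ r = 4 ∨ r = 5 ∨ r = 7 ∨ r = 8 := by omega
  unfold nx
  rcases hcases with h | h | h | h | h | h
  · refine ⟨2, 4, by norm_num, by norm_num, by norm_num, ⟨?_, ?_⟩, ?_, ?_⟩ <;> (rw [key, h]; omega)
  · refine ⟨3, 7, by norm_num, by norm_num, by norm_num, ⟨?_, ?_⟩, ?_, ?_⟩ <;> (rw [key, h]; omega)
  · refine ⟨2, 6, by norm_num, by norm_num, by norm_num, ⟨?_, ?_⟩, ?_, ?_⟩ <;> (rw [key, h]; omega)
  · refine ⟨3, 5, by norm_num, by norm_num, by norm_num, ⟨?_, ?_⟩, ?_, ?_⟩ <;> (rw [key, h]; omega)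
  · refine ⟨4, 6, by norm_num, by norm_num, by norm_num, ⟨?_, ?_⟩, ?_, ?_⟩ <;> (rw [key, h]; omega)
  · refine ⟨5, 7, by norm_num, by norm_num, by norm_num, ⟨?_, ?_⟩, ?_, ?_⟩ <;> (rw [key, h]; omega)

/-- Base case: two letters. -/
theorem ZY_base {M : ℕ} (hM : 7 ≤ M) : 0 < RR (1 / 60) M := by
  have hmm : 1 < mm (1 / 60) M 1 := by
    obtain ⟨y, hy, hyW⟩ := exists_mm (1 / 60) M 1
    have hy3 : y % 3 ≠ 0 := (mem_U.1 hy).2
    rw [← hyW]
    obtain ⟨a, b, hab, ha, hb, ⟨h1, h2⟩, h3, h4⟩ := ZY_two y hy3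
    have hmem : ∀ c : ℕ, 2 ≤ c → c ≤ 7 → 2 ^ c * y % 3 = 1 → nx c y % 3 ≠ 0 → [c] ∈ PP M 1 y := by
      intro c hc hc7 h5 h6
      rw [mem_PP]
      refine ⟨⟨rfl, fun d hd => ?_⟩, ⟨h5, trivial⟩, h6, ?_⟩
      · rw [List.mem_singleton] at hd
        omega
      · apply QC_of_two_le
        intro d hd
        rw [List.mem_singleton] at hd
        omega
    have hwt : ∀ c : ℕ, c ≤ 7 → (1 : ℝ) / 2 < wt (1 / 60) 1 [c] := by
      intro c hc
      unfold wt
      rw [List.sum_singleton]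
      have e1 : ((1 : ℝ) / 2) = (((1 : ℝ) / 2) ^ (60 : ℝ)) ^ ((1 : ℝ) / 60) := by
        rw [← Real.rpow_mul (by norm_num)]
        norm_num
      have e2 : ((1 : ℝ) / 2) ^ (60 : ℝ) = (1 / 2) ^ (60 : ℕ) := by
        rw [← Real.rpow_natCast]
        norm_num
      rw [e1, e2]
      refine Real.rpow_lt_rpow (by positivity) ?_ (by norm_num)
      rw [lt_div_iff₀ (by positivity), one_div, inv_pow, inv_mul_lt_iff₀ (by positivity), ← pow_add]
      apply pow_lt_pow_right₀ (by norm_num)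
      omega
    have hne : ([a] : List ℕ) ≠ [b] := by
      intro h
      have : a = b := by simpa using h
      omega
    have h5 : wt (1 / 60) 1 [a] + wt (1 / 60) 1 [b] ≤ W (1 / 60) M 1 y := by
      unfold W
      rw [← sum_pair hne]
      refine sum_le_sum_of_subset_of_nonneg ?_ fun l _ _ => (wt_pos _ _ _).le
      intro l hl
      rw [mem_insert, mem_singleton] at hl
      rcases hl with rfl | rfl
      · exact hmem a ha (by omega) h1 h2
      · exact hmem b (by omega) hb h3 h4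
    have h6 := hwt a (by omega)
    have h7 := hwt b hb
    linarith
  have h := log_mm_le (β := 1 / 60) (by norm_num) (by norm_num) hM 1
  have h1 := Real.log_pos hmm
  push_cast at h
  linarith

/-- The worst case growth is at least every mean, once it is positive. -/
theorem ZY_jump {β : ℝ} (hβ : 0 < β) (hβ1 : β ≤ 1) {M U : ℕ} (hM : 7 ≤ M) (hU : 1 ≤ U) (hR : 0 < RR β M) :
    AA β M U / U ≤ RR β M := by
  refine le_of_forall_pos_le_add fun ε hε => ?_
  obtain ⟨n0, hn0⟩ := thmB hβ hβ1 hM hR ε hε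
  have hU0 : (0 : ℝ) < U := by exact_mod_cast hU
  set j := n0 + 1 with hj
  have hj0 : (0 : ℝ) < j := by
    rw [hj]; positivity
  have h1 := hn0 (j * U) (by nlinarith)
  have h2 := AA_super hβ hβ1 hM U j
  rw [div_le_iff₀ hU0]
  have h3 : (j : ℝ) * AA β M U ≤ j * ((RR β M + ε) * U) := by
    refine (h2.trans h1).trans (le_of_eq ?_)
    push_cast
    ring
  exact le_of_mul_le_mul_left h3 hj0

/-- Worst case growth is at least the mean growth of every length, provided the mean is positive. -/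
theorem worst_of_mean {M U : ℕ} (hM : 7 ≤ M) (hU : 1 ≤ U) (hA : 0 < AA (1 / 10) M U) :
    AA (1 / 10) M U / U ≤ RR (1 / 10) M := by
  set g : ℝ := AA (1 / 10) M U / U with hg
  have hU0 : (0 : ℝ) < U := by exact_mod_cast hU
  have hg0 : 0 < g := by positivity
  have hjump : ∀ β : ℝ, 1 / 60 ≤ β → β ≤ 1 / 10 → 0 < RR β M → g ≤ RR β M := by
    intro β h60 h10 hR
    refine le_trans ?_ (ZY_jump (by linarith) (by linarith) hM hU hR)
    rw [hg]
    exact div_le_div_of_nonneg_right (ZY_AA_anti (by linarith) h10 (by norm_num) hM U) hU0.le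
  have hlog2 : 0 < Real.log 2 := Real.log_pos (by norm_num)
  have hMpos : (0 : ℝ) < M := by
    have : 0 < M := by omega
    exact_mod_cast this
  set h : ℝ := g / (2 * (10 * M * Real.log 2)) with hh
  have hhpos : 0 < h := by positivity
  have hiter : ∀ j : ℕ, 0 < RR (min (1 / 60 + j * h) (1 / 10)) M := by
    intro j
    induction j with
    | zero =>
      have : min (1 / 60 + ((0 : ℕ) : ℝ) * h) (1 / 10) = 1 / 60 := by
        rw [min_eq_left]
        · push_cast; ring
        · push_cast; norm_num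
      rw [this]
      exact ZY_base hM
    | succ j ih =>
      set b := min (1 / 60 + (j : ℝ) * h) (1 / 10) with hb
      set b' := min (1 / 60 + ((j + 1 : ℕ) : ℝ) * h) (1 / 10) with hb'
      have hjh : (0 : ℝ) ≤ j * h := by positivity
      have hb8 : 1 / 60 ≤ b := le_min (by linarith) (by norm_num)
      have hbb1 : b ≤ 1 / 10 := min_le_right _ _
      have hle : b ≤ b' := by
        refine min_le_min_right _ ?_
        push_cast
        linarith
      have hle2 : b' ≤ b + h := by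
        rw [hb, ← min_add_add_right, hb']
        refine le_min ?_ ?_
        · refine le_trans (min_le_left _ _) ?_
          push_cast
          linarith
        · refine le_trans (min_le_right _ _) ?_
          linarith
      have h1 := hjump b hb8 hbb1 ih
      have h2 := ZY_RR_lip (by linarith : 0 < b) hle (le_trans (min_le_right _ _) (by norm_num)) hM
      have h3 : (b' - b) * (10 * M * Real.log 2) ≤ g / 2 := by
        calc (b' - b) * (10 * M * Real.log 2) ≤ h * (10 * M * Real.log 2) :=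
              mul_le_mul_of_nonneg_right (by linarith) (by positivity)
          _ = g / 2 := by rw [hh]; field_simp
      linarith
  obtain ⟨j, hj⟩ := exists_nat_gt (1 / h)
  have h1 : 1 / 60 + (j : ℝ) * h ≥ 1 / 10 := by
    rw [div_lt_iff₀ hhpos] at hj
    linarith
  have h2 := hiter j
  rw [min_eq_right h1] at h2
  exact hjump (1 / 10) (by norm_num) le_rfl h2

/-- Uniform lower bound for all units. -/
theorem worst_all {M U : ℕ} (hM : 7 ≤ M) (hU : 1 ≤ U) (hA : 0 < AA (1 / 10) M U) (ε : ℝ) (hε : 0 < ε) :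
    ∃ N0 : ℕ, ∀ N : ℕ, N0 ≤ N → ∀ y : ℕ, y % 3 ≠ 0 →
      Real.exp ((AA (1 / 10) M U / U - ε) * N) ≤ W (1 / 10) M N y := by
  have hR := worst_of_mean hM hU hA
  obtain ⟨C, hC, hge⟩ := log_mm_ge (β := 1 / 10) (by norm_num) (by norm_num) hM (ε := ε / 2) (by positivity)
  obtain ⟨N0, hN0⟩ := exists_nat_gt (C / (ε / 2))
  refine ⟨N0, fun N hN y hy => ?_⟩
  have h1 := hge N
  rw [div_lt_iff₀ (by positivity)] at hN0
  have hNR : (N0 : ℝ) ≤ N := by exact_mod_cast hN
  have h2 : (AA (1 / 10) M U / U - ε) * N ≤ Real.log (mm (1 / 10) M N) := by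
    have h3 : (N0 : ℝ) * (ε / 2) ≤ N * (ε / 2) := mul_le_mul_of_nonneg_right hNR (by positivity)
    have h4 : AA (1 / 10) M U / U * N ≤ RR (1 / 10) M * N :=
      mul_le_mul_of_nonneg_right hR (Nat.cast_nonneg N)
    linarith
  have h3 := mm_pos (β := 1 / 10) (by norm_num) (by norm_num) hM N
  rw [Real.le_log_iff_exp_le h3] at h2
  exact h2.trans (mm_le (1 / 10) M N y hy)

end H62y
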