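import Pool.Agent.Lib.H62x.Count3

/-!
Count of integers from the mass of words of a given size.
-/

set_option autoImplicit false
open Finset
namespace H62y
open H62w

/-- A word valid at `y` whose size `2^|l|/3^len` is in `(Θ, 2Θ]`. -/
def GoodW (ε C B Θ : ℝ) (y : ℕ) (l : List ℕ) : Prop :=
  (∀ a ∈ l, 1 ≤ a) ∧ va l y ∧ Θ * 3 ^ l.length < (2 : ℝ) ^ l.sum ∧ (2 : ℝ) ^ l.sum ≤ 2 * Θ * 3 ^ l.length ∧
    (cc l : ℝ) ≤ B * 2 ^ l.sum ∧ |(l.sum : ℝ) - 2 * l.length| ≤ ε * l.length + C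

/-- one letter words -/
theorem cd_letter {α y : ℕ} (h1 : 2 ≤ α) (h2 : α ≤ 19) (h : 2 ^ α * y % 9 = 4) :
    [α] ∈ PP 19 1 y := by
  unfold PP
  rw [mem_filter, mem_words]
  refine ⟨⟨rfl, fun a ha => ?_⟩, ?_, ?_, ?_⟩
  · rw [List.mem_singleton] at ha
    omega
  · simp only [va]
    exact ⟨by omega, trivial⟩
  · simp only [en, nx]
    omega
  · rw [List.sum_singleton]
    have : 2 ^ 2 ≤ 2 ^ α := Nat.pow_le_pow_right (by norm_num) h1
    omega

theorem cd_period (α y : ℕ) (h : 2 ^ α * y % 9 = 4) : 2 ^ (α + 6) * y % 9 = 4 := by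
  have e : 2 ^ (α + 6) * y = 64 * (2 ^ α * y) := by rw [pow_add]; ring
  rw [e]
  omega

theorem cd_exists (y : ℕ) (hy : y % 3 ≠ 0) : ∃ α, 2 ≤ α ∧ α ≤ 7 ∧ 2 ^ α * y % 9 = 4 := by
  have h : y % 9 = 1 ∨ y % 9 = 2 ∨ y % 9 = 4 ∨ y % 9 = 5 ∨ y % 9 = 7 ∨ y % 9 = 8 := by omega
  rcases h with h | h | h | h | h | h
  · exact ⟨2, by norm_num, by norm_num, by omega⟩
  · exact ⟨7, by norm_num, by norm_num, by omega⟩
  · exact ⟨6, by norm_num, by norm_num, by omega⟩
  · exact ⟨3, by norm_num, by norm_num, by omega⟩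
  · exact ⟨4, by norm_num, by norm_num, by omega⟩
  · exact ⟨5, by norm_num, by norm_num, by omega⟩

theorem cd_wt {α : ℕ} (h : α ≤ 19) : (2 : ℝ) / 3 ≤ wt (1 / 40) 1 [α] := by
  unfold wt
  rw [List.sum_singleton, pow_one]
  have h1 : (3 : ℝ) / 2 ^ 19 ≤ 3 / 2 ^ α := by
    apply div_le_div_of_nonneg_left (by norm_num) (by positivity)
    exact pow_le_pow_right₀ (by norm_num) h
  have h2 : ((2 : ℝ) / 3) ^ (40 : ℕ) ≤ 3 / 2 ^ α := by
    refine le_trans ?_ h1
    norm_num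
  have h3 : (((2 : ℝ) / 3) ^ (40 : ℕ)) ^ ((1 : ℝ) / 40) = 2 / 3 := by
    rw [← Real.rpow_natCast, ← Real.rpow_mul (by norm_num)]
    norm_num
  rw [← h3]
  exact Real.rpow_le_rpow (by positivity) h2 (by norm_num)

theorem cd_W (y : ℕ) (hy : y % 3 ≠ 0) : 2 ≤ W (1 / 40) 19 1 y := by
  obtain ⟨α, h2, h7, h⟩ := cd_exists y hy
  have h' := cd_period α y h
  have h'' := cd_period (α + 6) y h'
  have m1 := cd_letter h2 (by omega) h
  have m2 := cd_letter (by omega) (by omega) h'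
  have m3 := cd_letter (by omega) (by omega) h''
  have hsub : ({[α], [α + 6], [α + 6 + 6]} : Finset (List ℕ)) ⊆ PP 19 1 y := by
    intro l hl
    simp only [mem_insert, mem_singleton] at hl
    rcases hl with rfl | rfl | rfl
    · exact m1
    · exact m2
    · exact m3
  have hn1 : ([α] : List ℕ) ∉ ({[α + 6], [α + 6 + 6]} : Finset (List ℕ)) := by
    simp
    omega
  have hn2 : ([α + 6] : List ℕ) ∉ ({[α + 6 + 6]} : Finset (List ℕ)) := by
    simp
  unfold W
  calc (2 : ℝ) ≤ wt (1 / 40) 1 [α] + (wt (1 / 40) 1 [α + 6] + wt (1 / 40) 1 [α + 6 + 6]) := by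
        have e1 := cd_wt (α := α) (by omega)
        have e2 := cd_wt (α := α + 6) (by omega)
        have e3 := cd_wt (α := α + 6 + 6) (by omega)
        linarith
    _ = ∑ l ∈ ({[α], [α + 6], [α + 6 + 6]} : Finset (List ℕ)), wt (1 / 40) 1 l := by
        rw [sum_insert hn1, sum_insert hn2, sum_singleton]
    _ ≤ ∑ l ∈ PP 19 1 y, wt (1 / 40) 1 l :=
        sum_le_sum_of_subset_of_nonneg hsub (fun l _ _ => (wt_pos _ _ l).le)

/-- a large non periodic predecessor of `a`, of size comparable to `a` -/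
theorem cd_root_gen {M n : ℕ} (hn : 1 ≤ n) (HW : ∀ y : ℕ, y % 3 ≠ 0 → 2 ≤ W (1 / 40) M n y)
    (B : ℝ) : ∃ K K0 : ℕ, 1 ≤ K ∧ ∀ a : ℕ, ¬ 3 ∣ a → ∃ b : ℕ, b % 3 ≠ 0 ∧
    (b : ℤ) ∉ Function.periodicPts Cnt.tz ∧ 2 * B ≤ b ∧ a ≤ b ∧ b ≤ K * a ∧
    ∃ k0 ≤ K0, Cnt.tz^[k0] (b : ℤ) = (a : ℤ) := by
  obtain ⟨s, hs⟩ := pow_unbounded_of_one_lt (2 * B) (by norm_num : (1 : ℝ) < 2)
  set K1 : ℕ := 2 ^ (2 * n + 2) * (Cnt.KK M n * (1 + Cnt.EC M n)) with hK1
  have hK11 : 1 ≤ K1 := Nat.mul_pos (by positivity) (Nat.mul_pos Nat.one_le_two_pow (by omega))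
  refine ⟨2 ^ s * K1, M * n + (2 * n + 2) + s, Nat.mul_pos (by positivity) hK11, fun a ha => ?_⟩
  have haz : (a : ℤ) % 3 ≠ 0 := by
    intro h
    apply ha
    exact_mod_cast Int.dvd_of_emod_eq_zero h
  have ha1 : 1 ≤ a := by
    rcases Nat.eq_zero_or_pos a with h | h
    · subst h; exact absurd (dvd_zero 3) ha
    · exact h
  have haz0 : (0 : ℤ) < (a : ℤ) := by exact_mod_cast ha1
  obtain ⟨b, hb3, hbp, hbs, hb4, hab, k0, hk0n, hk0⟩ :=
    Cnt.exists_base2 (by norm_num : (0 : ℝ) < 1 / 40) hn HW haz haz0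
  have hb0 : 0 < b := lt_of_lt_of_le (by positivity) hb4
  have hbb : ((b.toNat : ℕ) : ℤ) = b := Int.toNat_of_nonneg hb0.le
  have hbK : b.toNat ≤ K1 * a := by
    have h1 : b.toNat ≤ Cnt.ph M n b := by
      unfold Cnt.ph
      omega
    refine h1.trans (hbs.trans ?_)
    rw [hK1, mul_assoc]
    apply Nat.mul_le_mul_left
    rw [mul_assoc]
    apply Nat.mul_le_mul_left
    unfold Cnt.ph
    have : (a : ℤ).natAbs = a := Int.natAbs_natCast a
    rw [this]
    have h3 : Cnt.EC M n ≤ Cnt.EC M n * a := Nat.le_mul_of_pos_right _ ha1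
    nlinarith
  have hcast : ((2 ^ s * b.toNat : ℕ) : ℤ) = 2 ^ s * b := by
    push_cast
    rw [hbb]
  have hti := (Cnt.two_iter s b).1
  refine ⟨2 ^ s * b.toNat, ?_, ?_, ?_, ?_, ?_, k0 + s, by omega, ?_⟩
  · intro h
    have h1 : 3 ∣ 2 ^ s * b.toNat := Nat.dvd_of_mod_eq_zero h
    have hcop : Nat.Coprime 3 (2 ^ s) := Nat.Coprime.pow_right s (by norm_num)
    have h2 := hcop.dvd_of_dvd_mul_left h1
    omega
  · rw [hcast]
    intro h
    apply hbp
    rw [← hti]
    exact Cnt.per_iter h _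
  · push_cast
    have h1 : (1 : ℝ) ≤ (b.toNat : ℝ) := by
      have : 1 ≤ b.toNat := by omega
      exact_mod_cast this
    have h2 : (0 : ℝ) < 2 ^ s := by positivity
    nlinarith
  · have h1 : a ≤ b.toNat := by omega
    exact h1.trans (Nat.le_mul_of_pos_left _ (by positivity))
  · rw [mul_assoc]
    exact Nat.mul_le_mul_left _ hbK
  · rw [hcast, Function.iterate_add_apply, hti, hk0]

theorem cd_root (B : ℝ) : ∃ K K0 : ℕ, 1 ≤ K ∧ ∀ a : ℕ, ¬ 3 ∣ a → ∃ b : ℕ, b % 3 ≠ 0 ∧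
    (b : ℤ) ∉ Function.periodicPts Cnt.tz ∧ 2 * B ≤ b ∧ a ≤ b ∧ b ≤ K * a ∧
    ∃ k0 ≤ K0, Cnt.tz^[k0] (b : ℤ) = (a : ℤ) := cd_root_gen le_rfl cd_W B

/-- the real inequality -/
theorem cd_real {ε C κ Y S L r l2 lam : ℝ} (hε0 : 0 < ε) (hε : ε ≤ 1 / 100) (hL : 0 ≤ L)
    (hlam : 1 / 4 ≤ lam) (hlam2 : lam ≤ 2 * l2) (hl2 : l2 ≤ 0.6932) (_hl20 : 0 < l2)
    (hu : |S - 2 * L| ≤ ε * L + C) (hC : 0 ≤ C) (hκ : 0 ≤ κ) (hr : |r| ≤ κ)
    (hY : Y = L * lam + (S - 2 * L) * l2 + r) :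
    |S - 2 / lam * Y| ≤ 20 * ε * Y + 13 * (C + κ) := by
  have hlam0 : 0 < lam := by linarith
  set u := S - 2 * L with hu'
  have hu1 := abs_le.1 hu
  have hr1 := abs_le.1 hr
  have hεL : ε * L ≤ 1 / 100 * L := mul_le_mul_of_nonneg_right hε hL
  have hεL0 : 0 ≤ ε * L := by positivity
  -- bound for L
  have h1 : -(u * l2) ≤ (1 / 100 * L + C) * 0.6932 := by
    have e1 : -u ≤ 1 / 100 * L + C := by linarith
    have e2 : -(u * l2) ≤ (1 / 100 * L + C) * l2 := by nlinarith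
    have e3 : (1 / 100 * L + C) * l2 ≤ (1 / 100 * L + C) * 0.6932 := by
      apply mul_le_mul_of_nonneg_left hl2
      positivity
    linarith
  have h2 : L * (1 / 4) ≤ L * lam := mul_le_mul_of_nonneg_left hlam hL
  have hLb : L ≤ 4.1142 * (Y + (C + κ)) := by
    have h3 : L * lam = Y - u * l2 - r := by rw [hY]; ring
    have h4 : L * 0.243068 ≤ Y + (C + κ) := by nlinarith
    nlinarith
  have hYD : 0 ≤ Y + (C + κ) := by linarith
  -- the main term
  set q := 2 * l2 / lam - 1 with hq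
  have hq0 : 0 ≤ q := by
    rw [hq, sub_nonneg, le_div_iff₀ hlam0]
    linarith
  have hq1 : q ≤ 4.5456 := by
    rw [hq, sub_le_iff_le_add, div_le_iff₀ hlam0]
    nlinarith
  have h5 : S - 2 / lam * Y = -(q * u) - 2 / lam * r := by
    have e : S = u + 2 * L := by rw [hu']; ring
    rw [hY, hq, e]
    field_simp
    ring
  have h6 : |q * u| ≤ 4.5456 * (ε * L + C) := by
    rw [abs_mul, abs_of_nonneg hq0]
    exact mul_le_mul hq1 hu (abs_nonneg _) (by norm_num)
  have h7 : |2 / lam * r| ≤ 8 * κ := by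
    rw [abs_mul, abs_of_pos (by positivity)]
    have : 2 / lam ≤ 8 := by
      rw [div_le_iff₀ hlam0]
      linarith
    exact mul_le_mul this hr (abs_nonneg _) (by norm_num)
  have h8 : |S - 2 / lam * Y| ≤ 4.5456 * (ε * L + C) + 8 * κ := by
    rw [h5]
    have e1 := abs_sub (-(q * u)) (2 / lam * r)
    rw [abs_neg] at e1
    linarith
  have h9 : ε * L ≤ ε * (4.1142 * (Y + (C + κ))) := mul_le_mul_of_nonneg_left hLb hε0.le
  have h10 : 0 ≤ ε * (Y + (C + κ)) := by positivity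
  have h11 : ε * (C + κ) ≤ 1 / 100 * (C + κ) :=
    mul_le_mul_of_nonneg_right hε (by positivity)
  nlinarith

/-- Count of integers from the mass of words of a given size (chunk CD). -/
theorem count_density {ε c C B Θ0 : ℝ} (hε : 0 < ε) (hε1 : ε ≤ 1 / 100) (hc : 0 < c)
    (H : ∀ y : ℕ, y % 3 ≠ 0 → ∀ Θ : ℝ, Θ0 ≤ Θ → ∃ G : Finset (List ℕ),
      (∀ l ∈ G, GoodW ε C B Θ y l) ∧ c ≤ ∑ l ∈ G, (3 : ℝ) ^ l.length / (2 : ℝ) ^ l.sum) :
    ∃ c' C' : ℝ, 0 < c' ∧ 0 < C' ∧ ∀ a x : ℕ, ¬ 3 ∣ a → a ≤ x →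
      c' * ((x : ℝ) / (a : ℝ)) ≤
        (Set.ncard {n : ℕ | n ≤ x ∧ c' * (x : ℝ) ≤ (n : ℝ) ∧
          ∃ k : ℕ, (fun m : ℕ => if m % 2 = 0 then m / 2 else (3 * m + 1) / 2)^[k] n = a ∧
            (∀ j < k, (fun m : ℕ => if m % 2 = 0 then m / 2 else (3 * m + 1) / 2)^[j] n ≠ a) ∧
            |(k : ℝ) - 2 / Real.log (4 / 3) * Real.log ((n : ℝ) / (a : ℝ))| ≤
              20 * ε * Real.log ((n : ℝ) / (a : ℝ)) + C'} : ℝ) := by
  classical
  obtain ⟨K, K0, hK1, hroot⟩ := cd_root B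
  have hKr : (1 : ℝ) ≤ (K : ℝ) := by exact_mod_cast hK1
  have hlogK : 0 ≤ Real.log (K : ℝ) := Real.log_nonneg hKr
  set κ : ℝ := Real.log (K : ℝ) + 1 with hκ
  have hκ0 : 0 ≤ κ := by positivity
  set Θ1 : ℝ := max Θ0 1 with hΘ1
  have hΘ11 : 1 ≤ Θ1 := le_max_right _ _
  set c' : ℝ := min (min (c / (2 * K)) (1 / (2 * K * Θ1))) (1 / 4) with hc'
  have hc'0 : 0 < c' := by
    rw [hc']
    have h1 : 0 < c / (2 * K) := by positivity
    have h2 : 0 < 1 / (2 * K * Θ1) := by positivity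
    positivity
  have hc'1 : c' ≤ c / (2 * K) := (min_le_left _ _).trans (min_le_left _ _)
  have hc'2 : c' ≤ 1 / (2 * K * Θ1) := (min_le_left _ _).trans (min_le_right _ _)
  have hc'3 : c' ≤ 1 / 4 := min_le_right _ _
  set C' : ℝ := 13 * (|C| + κ) + K0 with hC'
  have hC'0 : 0 < C' := by
    have : 0 ≤ |C| := abs_nonneg C
    have h2 : (0 : ℝ) ≤ K0 := Nat.cast_nonneg _
    have h3 : 1 ≤ κ := by rw [hκ]; linarith
    rw [hC']
    linarith
  have hl2 : 0 < Real.log 2 := Real.log_pos (by norm_num)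
  have hl21 : Real.log 2 ≤ 0.6932 := by
    have := Real.log_two_lt_d9
    linarith
  have hl3 : 0 < Real.log 3 := Real.log_pos (by norm_num)
  have hlam : Real.log (4 / 3) = 2 * Real.log 2 - Real.log 3 := by
    rw [Real.log_div (by norm_num) (by norm_num), show (4 : ℝ) = 2 ^ 2 by norm_num, Real.log_pow]
    push_cast
    ring
  have hlam4 : 1 / 4 ≤ Real.log (4 / 3) := by
    have := Real.one_sub_inv_le_log_of_pos (show (0 : ℝ) < 4 / 3 by norm_num)
    norm_num at this ⊢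
    linarith
  refine ⟨c', C', hc'0, hC'0, fun a x ha3 hax => ?_⟩
  set f : ℕ → ℕ := fun m : ℕ => if m % 2 = 0 then m / 2 else (3 * m + 1) / 2 with hf
  have hftn : f = Cnt.tn := rfl
  set S : Set ℕ := {n : ℕ | n ≤ x ∧ c' * (x : ℝ) ≤ (n : ℝ) ∧ ∃ k : ℕ, f^[k] n = a ∧
    (∀ j < k, f^[j] n ≠ a) ∧
    |(k : ℝ) - 2 / Real.log (4 / 3) * Real.log ((n : ℝ) / (a : ℝ))| ≤
      20 * ε * Real.log ((n : ℝ) / (a : ℝ)) + C'} with hS
  have hfin : S.Finite := (Set.finite_Iic x).subset (fun m hm => hm.1)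
  have ha1 : 1 ≤ a := by
    rcases Nat.eq_zero_or_pos a with h | h
    · subst h; exact absurd (dvd_zero 3) ha3
    · exact h
  have har : (1 : ℝ) ≤ (a : ℝ) := by exact_mod_cast ha1
  have ha0 : (0 : ℝ) < (a : ℝ) := by linarith
  have hx0 : (0 : ℝ) < (x : ℝ) := by exact_mod_cast lt_of_lt_of_le ha1 hax
  obtain ⟨b, hb3, hbp, hbB, hab, hbK, k0, hk0K, hk0⟩ := hroot a ha3
  have hb1 : 1 ≤ b := ha1.trans hab
  have hb0 : (0 : ℝ) < (b : ℝ) := by exact_mod_cast hb1
  have hbKr : (b : ℝ) ≤ K * a := by exact_mod_cast hbK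
  have habr : (a : ℝ) ≤ b := by exact_mod_cast hab
  rcases lt_or_ge (x : ℝ) (2 * b * Θ1) with hcase | hcase
  · -- small case
    have hxa : (x : ℝ) ≤ 2 * K * Θ1 * a := by
      have h1 : 2 * (b : ℝ) * Θ1 ≤ 2 * (K * a) * Θ1 := by gcongr
      linarith
    have hmem : a ∈ S := by
      refine ⟨hax, ?_, 0, rfl, ?_, ?_⟩
      · calc c' * (x : ℝ) ≤ 1 / (2 * K * Θ1) * (2 * K * Θ1 * a) :=
              mul_le_mul hc'2 hxa hx0.le (by positivity)
          _ = a := by field_simp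
      · intro j hj
        omega
      · rw [div_self ha0.ne', Real.log_one]
        simpa using hC'0.le
    have h1 : 1 ≤ S.ncard := by
      rw [Nat.one_le_iff_ne_zero, Ne, Set.ncard_eq_zero hfin]
      exact Set.nonempty_iff_ne_empty.1 ⟨a, hmem⟩
    have h2 : (1 : ℝ) ≤ (S.ncard : ℝ) := by exact_mod_cast h1
    refine le_trans ?_ h2
    have h3 : (x : ℝ) / a ≤ 2 * K * Θ1 := by
      rw [div_le_iff₀ ha0]; exact hxa
    calc c' * ((x : ℝ) / a) ≤ 1 / (2 * K * Θ1) * (2 * K * Θ1) :=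
          mul_le_mul hc'2 h3 (by positivity) (by positivity)
      _ = 1 := by field_simp
  · -- large case
    set Θ : ℝ := (x : ℝ) / (2 * b) with hΘ
    have hΘge : Θ1 ≤ Θ := by
      rw [hΘ, le_div_iff₀ (by positivity)]
      linarith
    have hΘ0 : 0 < Θ := by linarith
    have hxΘ : (x : ℝ) = 2 * Θ * b := by
      rw [hΘ]; field_simp
    obtain ⟨G, hG, hGc⟩ := H b hb3 Θ ((le_max_left _ _).trans hΘge)
    -- facts on words
    have hv : ∀ l ∈ G, Cnt.vz l (b : ℤ) := by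
      intro l hl
      have h6 := en_eq l b (hG l hl).2.1
      have h6' : (2 : ℤ) ^ l.sum * (b : ℤ) = 3 ^ l.length * (en l b : ℤ) + (cc l : ℤ) := by
        exact_mod_cast h6
      rw [Cnt.vz_iff, h6']
      exact ⟨(en l b : ℤ), by ring⟩
    have hdyn : ∀ l ∈ G, Cnt.tz^[l.sum] (Cnt.ez l (b : ℤ)) = b ∧
        Cnt.oc (Cnt.ez l (b : ℤ)) l.sum = l.length := by
      intro l hl
      obtain ⟨d1, d2, -⟩ := Cnt.ez_dyn l (hG l hl).1 (b : ℤ) (hv l hl)
      exact ⟨d1, d2⟩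
    have hbz : (0 : ℤ) < (b : ℤ) := by exact_mod_cast hb1
    have hzpos : ∀ l ∈ G, 0 < Cnt.ez l (b : ℤ) := fun l hl =>
      Cnt.pos_of_iter (hdyn l hl).1 hbz
    -- injectivity
    have hinj : Set.InjOn (fun l => (Cnt.ez l (b : ℤ)).toNat) (G : Set (List ℕ)) := by
      intro l hl l' hl' he
      have h1 := hzpos l hl
      have h2 := hzpos l' hl'
      have he' : Cnt.ez l (b : ℤ) = Cnt.ez l' (b : ℤ) := by
        have : (Cnt.ez l (b : ℤ)).toNat = (Cnt.ez l' (b : ℤ)).toNat := he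
        omega
      obtain ⟨d1, d2⟩ := hdyn l hl
      obtain ⟨d1', d2'⟩ := hdyn l' hl'
      have hsum : l.sum = l'.sum := by
        rw [← he'] at d1'
        exact Cnt.not_per_time hbp d1 d1'
      have hlen : l.length = l'.length := by
        rw [← d2, ← d2', he', hsum]
      exact Cnt.cc_inj' rfl hlen.symm (hG l hl).1 (hG l' hl').1 hsum (hv l hl) (hv l' hl') he'
    -- membership
    have hmaps : ∀ l ∈ G, (Cnt.ez l (b : ℤ)).toNat ∈ S := by
      intro l hl
      obtain ⟨g1, g2, g3, g4, g5, g6⟩ := hG l hl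
      obtain ⟨d1, d2⟩ := hdyn l hl
      set z := Cnt.ez l (b : ℤ) with hz
      have hz0 := hzpos l hl
      rw [← hz] at hz0
      have hz0r : (0 : ℝ) < (z : ℝ) := by exact_mod_cast hz0
      have hzz : ((z.toNat : ℕ) : ℤ) = z := Int.toNat_of_nonneg hz0.le
      have hzr : ((z.toNat : ℕ) : ℝ) = (z : ℝ) := by
        exact_mod_cast congrArg (Int.cast (R := ℝ)) hzz
      have heq : (2 : ℝ) ^ l.sum * b = 3 ^ l.length * z + (cc l : ℝ) := by
        exact_mod_cast Cnt.ez_eq l (b : ℤ) (hv l hl)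
      have hcc0 : (0 : ℝ) ≤ (cc l : ℝ) := Nat.cast_nonneg _
      have h3L : (0 : ℝ) < 3 ^ l.length := by positivity
      have h2S : (0 : ℝ) < 2 ^ l.sum := by positivity
      have hup : (3 : ℝ) ^ l.length * z ≤ 2 ^ l.sum * b := by linarith
      have hlo : (2 : ℝ) ^ l.sum * b ≤ 2 * (3 ^ l.length * z) := by
        have h1 : B * 2 ^ l.sum * 2 ≤ 2 ^ l.sum * b := by nlinarith
        linarith
      have hzx : (z : ℝ) ≤ x := by
        have h1 : (3 : ℝ) ^ l.length * z ≤ 3 ^ l.length * x := by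
          rw [hxΘ]
          calc (3 : ℝ) ^ l.length * z ≤ 2 ^ l.sum * b := hup
            _ ≤ 2 * Θ * 3 ^ l.length * b := mul_le_mul_of_nonneg_right g4 hb0.le
            _ = 3 ^ l.length * (2 * Θ * b) := by ring
        exact le_of_mul_le_mul_left h1 h3L
      have hxz : (x : ℝ) ≤ 4 * z := by
        have h1 : (3 : ℝ) ^ l.length * x ≤ 3 ^ l.length * (4 * z) := by
          rw [hxΘ]
          calc (3 : ℝ) ^ l.length * (2 * Θ * b) = 2 * (Θ * 3 ^ l.length * b) := by ring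
            _ ≤ 2 * (2 ^ l.sum * b) := by
                have := mul_le_mul_of_nonneg_right g3.le hb0.le
                linarith
            _ ≤ 3 ^ l.length * (4 * z) := by linarith
        exact le_of_mul_le_mul_left h1 h3L
      obtain ⟨k', hkk', hk'k, hka, hkf⟩ := Cnt.first_hit (a := a) (z := z.toNat) hbp
        (by rw [hzz]; exact d1) hk0
      refine ⟨?_, ?_, k', ?_, ?_, ?_⟩
      · have : ((z.toNat : ℕ) : ℝ) ≤ (x : ℝ) := by rw [hzr]; exact hzx
        exact_mod_cast this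
      · rw [hzr]
        have : c' * (x : ℝ) ≤ 1 / 4 * x := mul_le_mul_of_nonneg_right hc'3 hx0.le
        linarith
      · rw [hftn]; exact hka
      · rw [hftn]; exact hkf
      · rw [hzr]
        have hlog3 : Real.log ((3 : ℝ) ^ l.length) = l.length * Real.log 3 := Real.log_pow _ _
        have hlog2 : Real.log ((2 : ℝ) ^ l.sum) = l.sum * Real.log 2 := Real.log_pow _ _
        have e1 : l.length * Real.log 3 + Real.log z ≤ l.sum * Real.log 2 + Real.log b := by
          have := Real.log_le_log (mul_pos h3L hz0r) hup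
          rw [Real.log_mul h3L.ne' hz0r.ne', Real.log_mul h2S.ne' hb0.ne', hlog3, hlog2] at this
          exact this
        have e2 : l.sum * Real.log 2 + Real.log b ≤
            Real.log 2 + (l.length * Real.log 3 + Real.log z) := by
          have := Real.log_le_log (mul_pos h2S hb0) hlo
          rw [Real.log_mul (by norm_num : (2 : ℝ) ≠ 0) (mul_pos h3L hz0r).ne',
            Real.log_mul h3L.ne' hz0r.ne', Real.log_mul h2S.ne' hb0.ne', hlog3, hlog2] at this
          exact this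
        have e3 : Real.log a ≤ Real.log b := Real.log_le_log ha0 habr
        have e4 : Real.log b ≤ Real.log K + Real.log a := by
          have hK0 : (0 : ℝ) < K := by linarith
          have := Real.log_le_log hb0 hbKr
          rwa [Real.log_mul hK0.ne' ha0.ne'] at this
        set Y := Real.log ((z : ℝ) / (a : ℝ)) with hY
        have hYe : Y = Real.log z - Real.log a := Real.log_div hz0r.ne' ha0.ne'
        set r : ℝ := Y - (l.length * Real.log (4 / 3) +
          ((l.sum : ℝ) - 2 * l.length) * Real.log 2) with hr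
        have hrb : |r| ≤ κ := by
          have hr' : r = Real.log z - Real.log a - (l.sum * Real.log 2 - l.length * Real.log 3) := by
            rw [hr, hYe, hlam]; ring
          rw [hr', abs_le, hκ]
          constructor <;> linarith
        have g6' : |(l.sum : ℝ) - 2 * l.length| ≤ ε * l.length + |C| :=
          g6.trans (by linarith [le_abs_self C])
        have hmain := cd_real (Y := Y) (S := (l.sum : ℝ)) (L := (l.length : ℝ)) (r := r)
          (l2 := Real.log 2) (lam := Real.log (4 / 3)) hε hε1 (Nat.cast_nonneg _) hlam4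
          (by rw [hlam]; linarith) hl21 hl2 g6' (abs_nonneg C) hκ0 hrb (by rw [hr]; ring)
        have hk1 : (l.sum : ℝ) ≤ k' := by exact_mod_cast hkk'
        have hk2 : (k' : ℝ) ≤ l.sum + K0 := by
          have : k' ≤ l.sum + K0 := by omega
          exact_mod_cast this
        rw [abs_le] at hmain ⊢
        rw [hC']
        have hK00 : (0 : ℝ) ≤ K0 := Nat.cast_nonneg _
        constructor
        · linarith [hmain.1]
        · linarith [hmain.2]
    -- number of words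
    have hcard : c * Θ ≤ (G.card : ℝ) := by
      have h1 : ∑ l ∈ G, (3 : ℝ) ^ l.length / (2 : ℝ) ^ l.sum ≤ ∑ _l ∈ G, 1 / Θ := by
        refine sum_le_sum fun l hl => ?_
        rw [div_le_div_iff₀ (by positivity) hΘ0]
        have := (hG l hl).2.2.1
        linarith
      rw [sum_const, nsmul_eq_mul] at h1
      have h2 := hGc.trans h1
      rw [mul_one_div, le_div_iff₀ hΘ0] at h2
      exact h2
    have hGS : G.card ≤ S.ncard := by
      have h3 : (G.image fun l => (Cnt.ez l (b : ℤ)).toNat).card = G.card :=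
        card_image_of_injOn hinj
      rw [← h3, ← Set.ncard_coe_finset]
      apply Set.ncard_le_ncard _ hfin
      intro m hm
      rw [mem_coe, mem_image] at hm
      obtain ⟨l, hl, rfl⟩ := hm
      exact hmaps l hl
    have hGS' : (G.card : ℝ) ≤ (S.ncard : ℝ) := by exact_mod_cast hGS
    refine le_trans ?_ (hcard.trans hGS')
    have h4 : (x : ℝ) / (2 * (K * a)) ≤ Θ := by
      rw [hΘ]
      exact div_le_div_of_nonneg_left hx0.le (by positivity) (by linarith)
    calc c' * ((x : ℝ) / a) ≤ c / (2 * K) * ((x : ℝ) / a) :=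
          mul_le_mul_of_nonneg_right hc'1 (by positivity)
      _ = c * ((x : ℝ) / (2 * (K * a))) := by field_simp
      _ ≤ c * Θ := mul_le_mul_of_nonneg_left h4 hc.le

end H62y
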