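import Pool.Agent.Lib.H62w.Defs

set_option autoImplicit false

/-!
Critical version (towards positive density). Class of words closed under concatenation: every
initial segment has average letter at least `19/10`, and every factor has average at least `19/10`
up to a defect `M / 10` in the sum. Weight `(2 ^ (19 k) / 2 ^ (10 |l|)) ^ β`; `β = 1/10` is the weight
`3 ^ k / 2 ^ |l|` up to the constant `(2 ^ 1.9 / 3) ^ k`.
-/

open Finset

namespace H62y
open H62w

/-- Sum of the first `i` letters. -/
def JJ (l : List ℕ) (i : ℕ) : ℕ := (l.take i).sum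

/-- The class condition. -/
def QC (M : ℕ) (l : List ℕ) : Prop :=
  ∀ j ∈ range (l.length + 1), 19 * j ≤ 10 * JJ l j ∧
    ∀ i ∈ range (j + 1), 19 * j + 10 * JJ l i ≤ 10 * JJ l j + 19 * i + M

instance decQC (M : ℕ) (l : List ℕ) : Decidable (QC M l) := by
  unfold QC; infer_instance

/-- Admissible words of length `k` at `y`. -/
def PP (M k y : ℕ) : Finset (List ℕ) :=
  (words M k).filter (fun l => va l y ∧ en l y % 3 ≠ 0 ∧ QC M l)

/-- Weight. -/
noncomputable def wt (β : ℝ) (k : ℕ) (l : List ℕ) : ℝ :=
  ((2 : ℝ) ^ (19 * k) / (2 : ℝ) ^ (10 * l.sum)) ^ β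

/-- Weighted number of admissible words. -/
noncomputable def W (β : ℝ) (M k y : ℕ) : ℝ := ∑ l ∈ PP M k y, wt β k l

/-- Worst case. -/
noncomputable def mm (β : ℝ) (M k : ℕ) : ℝ := (U k).inf' (U_nonempty k) (W β M k)

/-- Worst case exponential growth rate. -/
noncomputable def RR (β : ℝ) (M : ℕ) : ℝ := sSup {x : ℝ | ∃ k : ℕ, 1 ≤ k ∧ x = Real.log (mm β M k) / k}

/-- Mean of `log W` over the class `v` mod `3`. -/
noncomputable def av (β : ℝ) (M n v : ℕ) : ℝ :=
  (∑ y ∈ (range (3 ^ (n + 1))).filter (fun y => y % 3 = v), Real.log (W β M n y)) / 3 ^ n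

/-- The smaller of the two class means. -/
noncomputable def AA (β : ℝ) (M n : ℕ) : ℝ := min (av β M n 1) (av β M n 2)

/-- Near-worst residues mod `3^(m+1)`. -/
noncomputable def EE (β : ℝ) (M m : ℕ) (ε : ℝ) : Finset ℕ :=
  (U m).filter (fun y => Real.log (W β M m y) ≤ (RR β M + ε) * m)

theorem JJ_append (l l' : List ℕ) (i : ℕ) : JJ (l ++ l') i = JJ l i + JJ l' (i - l.length) := by
  unfold JJ
  rw [List.take_append, List.sum_append]

theorem JJ_all {l : List ℕ} {i : ℕ} (h : l.length ≤ i) : JJ l i = l.sum := by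
  unfold JJ
  rw [List.take_of_length_le h]

theorem JJ_zero (l : List ℕ) : JJ l 0 = 0 := by
  unfold JJ; simp

theorem QC_append {M : ℕ} {l l' : List ℕ} (h : QC M l) (h' : QC M l') : QC M (l ++ l') := by
  intro j hj
  rw [mem_range, List.length_append] at hj
  rw [JJ_append]
  have hn : 19 * l.length ≤ 10 * l.sum := by
    have := (h l.length (mem_range.2 (by omega))).1
    rwa [JJ_all le_rfl] at this
  rcases Nat.lt_or_ge j l.length with hjl | hjl
  · have hz : j - l.length = 0 := by omega
    rw [hz, JJ_zero, add_zero]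
    obtain ⟨h1, h2⟩ := h j (mem_range.2 (by omega))
    refine ⟨h1, fun i hi => ?_⟩
    rw [JJ_append, show i - l.length = 0 by rw [mem_range] at hi; omega, JJ_zero, add_zero]
    exact h2 i hi
  · obtain ⟨h1, h2⟩ := h' (j - l.length) (mem_range.2 (by omega))
    rw [JJ_all hjl]
    refine ⟨by omega, fun i hi => ?_⟩
    rw [JJ_append]
    rw [mem_range] at hi
    rcases Nat.lt_or_ge i l.length with hil | hil
    · rw [show i - l.length = 0 by omega, JJ_zero, add_zero]
      have h3 := (h l.length (mem_range.2 (by omega))).2 i (mem_range.2 (by omega))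
      rw [JJ_all le_rfl] at h3
      omega
    · rw [JJ_all hil]
      have h3 := h2 (i - l.length) (mem_range.2 (by omega))
      omega

theorem JJ_step {l : List ℕ} (h : ∀ a ∈ l, 2 ≤ a) : ∀ i j : ℕ, i ≤ j → j ≤ l.length →
    JJ l i + 2 * (j - i) ≤ JJ l j := by
  induction l with
  | nil =>
    intro i j h1 h2
    have h3 : j = 0 := by simpa using h2
    subst h3
    have : i = 0 := by omega
    subst this
    simp
  | cons a l ih =>
    intro i j h1 h2
    have ha := h a List.mem_cons_self
    have ih' := ih (fun b hb => h b (List.mem_cons_of_mem _ hb))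
    rcases j with _ | j
    · have : i = 0 := by omega
      subst this
      simp
    · have e2 : JJ (a :: l) (j + 1) = a + JJ l j := by unfold JJ; simp
      rw [e2]
      rw [List.length_cons] at h2
      rcases i with _ | i
      · rw [JJ_zero]
        have := ih' 0 j (by omega) (by omega)
        rw [JJ_zero] at this
        omega
      · have e1 : JJ (a :: l) (i + 1) = a + JJ l i := by unfold JJ; simp
        rw [e1]
        have := ih' i j (by omega) (by omega)
        omega

theorem QC_of_two_le {M : ℕ} {l : List ℕ} (h : ∀ a ∈ l, 2 ≤ a) : QC M l := by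
  intro j hj
  rw [mem_range] at hj
  have h0 := JJ_step h 0 j (by omega) (by omega)
  rw [JJ_zero] at h0
  refine ⟨by omega, fun i hi => ?_⟩
  rw [mem_range] at hi
  have := JJ_step h i j (by omega) (by omega)
  omega

theorem QC_nil (M : ℕ) : QC M [] := QC_of_two_le (by simp)

theorem QC_sum {M : ℕ} {l : List ℕ} (h : QC M l) : 19 * l.length ≤ 10 * l.sum := by
  have := (h l.length (mem_range.2 (by omega))).1
  rwa [JJ_all le_rfl] at this

end H62y
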