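import Pool.Agent.Lib.H62y.Defs
import Pool.Agent.Lib.H62w.Mu

/-!
Words with a bad factor are rare.
-/

set_option autoImplicit false
open Finset
namespace H62y
open H62w

theorem fm_geom (y : ℝ) (hy : y ≠ 1) (m : ℕ) : ∑ a ∈ Icc 1 m, y ^ a = y * (1 - y ^ m) / (1 - y) := by
  have h : (1 : ℝ) - y ≠ 0 := sub_ne_zero.2 hy.symm
  induction m with
  | zero => simp
  | succ m ih =>
    rw [Finset.sum_Icc_succ_top (by omega), ih, pow_succ]
    field_simp
    ring

theorem fm_letter {M : ℕ} (hM : 20 ≤ M) :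
    ∑ a ∈ Icc 1 M, pa M a * ((201 / 200 : ℝ) ^ 19 * (200 / 201) ^ (10 * a)) ≤ 1 := by
  obtain ⟨m, rfl⟩ : ∃ m, M = m + 1 := ⟨M - 1, by omega⟩
  rw [Finset.sum_Icc_succ_top (by omega)]
  set y : ℝ := (1 / 2) * (200 / 201) ^ 10 with hy
  have h1 : ∑ a ∈ Icc 1 m, pa (m + 1) a * ((201 / 200 : ℝ) ^ 19 * (200 / 201) ^ (10 * a)) =
      (201 / 200) ^ 19 * ∑ a ∈ Icc 1 m, y ^ a := by
    rw [mul_sum]
    refine sum_congr rfl fun a ha => ?_
    rw [mem_Icc] at ha
    unfold pa
    rw [if_pos (by omega), hy, mul_pow, ← pow_mul]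
    ring
  have h2 : pa (m + 1) (m + 1) * ((201 / 200 : ℝ) ^ 19 * (200 / 201) ^ (10 * (m + 1))) ≤
      (201 / 200) ^ 19 * (1 / 2) ^ 19 := by
    unfold pa
    rw [if_neg (by omega)]
    have a1 : (1 / 2 : ℝ) ^ (m + 1 - 1) ≤ (1 / 2) ^ 19 :=
      pow_le_pow_of_le_one (by norm_num) (by norm_num) (by omega)
    have a2 : (200 / 201 : ℝ) ^ (10 * (m + 1)) ≤ 1 := pow_le_one₀ (by norm_num) (by norm_num)
    have a3 : (201 / 200 : ℝ) ^ 19 * (200 / 201) ^ (10 * (m + 1)) ≤ (201 / 200) ^ 19 :=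
      mul_le_of_le_one_right (by positivity) a2
    calc (1 / 2 : ℝ) ^ (m + 1 - 1) * ((201 / 200) ^ 19 * (200 / 201) ^ (10 * (m + 1))) ≤
          (1 / 2) ^ 19 * (201 / 200) ^ 19 := mul_le_mul a1 a3 (by positivity) (by positivity)
      _ = _ := by ring
  have h3 : ∑ a ∈ Icc 1 m, y ^ a ≤ y / (1 - y) := by
    rw [fm_geom y (by rw [hy]; norm_num)]
    have a1 : 0 ≤ y ^ m := by positivity
    have a2 : 0 < 1 - y := by rw [hy]; norm_num
    apply div_le_div_of_nonneg_right _ a2.le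
    have a3 : 0 ≤ y := by positivity
    nlinarith
  have h4 : (201 / 200 : ℝ) ^ 19 * (y / (1 - y)) + (201 / 200) ^ 19 * (1 / 2) ^ 19 ≤ 1 := by
    rw [hy]; norm_num
  rw [h1]
  have h5 : (201 / 200 : ℝ) ^ 19 * ∑ a ∈ Icc 1 m, y ^ a ≤ (201 / 200) ^ 19 * (y / (1 - y)) :=
    mul_le_mul_of_nonneg_left h3 (by positivity)
  linarith

theorem fm_mean {M : ℕ} (hM : 20 ≤ M) (k : ℕ) :
    ∑ l ∈ words M k, pw M l * ((201 / 200 : ℝ) ^ (19 * k) * (200 / 201) ^ (10 * l.sum)) ≤ 1 := by
  induction k with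
  | zero => simp [words, pw]
  | succ k ih =>
    rw [L_sum_words_succ]
    have h1 : ∀ a ∈ Icc 1 M, ∑ l ∈ words M k, pw M (a :: l) *
        ((201 / 200 : ℝ) ^ (19 * (k + 1)) * (200 / 201) ^ (10 * (a :: l).sum)) ≤
        pa M a * ((201 / 200 : ℝ) ^ 19 * (200 / 201) ^ (10 * a)) := by
      intro a _
      have h2 : ∑ l ∈ words M k, pw M (a :: l) *
          ((201 / 200 : ℝ) ^ (19 * (k + 1)) * (200 / 201) ^ (10 * (a :: l).sum)) =
          pa M a * ((201 / 200 : ℝ) ^ 19 * (200 / 201) ^ (10 * a)) *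
          ∑ l ∈ words M k, pw M l * ((201 / 200 : ℝ) ^ (19 * k) * (200 / 201) ^ (10 * l.sum)) := by
        rw [mul_sum]
        refine sum_congr rfl fun l _ => ?_
        have : pw M (a :: l) = pa M a * pw M l := by simp [pw]
        rw [this, List.sum_cons, mul_add, mul_add, pow_add, pow_add]
        ring
      rw [h2]
      exact mul_le_of_le_one_right (mul_nonneg (L_pa_nonneg M a) (by positivity)) ih
    exact (sum_le_sum h1).trans (fm_letter hM)

/-- A word of small sum is rare. -/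
theorem fm_low {M : ℕ} (hM : 20 ≤ M) (k h : ℕ) :
    ∑ l ∈ (words M k).filter (fun l => 10 * l.sum + h ≤ 19 * k), pw M l ≤ (200 / 201) ^ h := by
  have h1 : ∀ l ∈ (words M k).filter (fun l => 10 * l.sum + h ≤ 19 * k), pw M l ≤
      (200 / 201 : ℝ) ^ h * (pw M l * ((201 / 200 : ℝ) ^ (19 * k) * (200 / 201) ^ (10 * l.sum))) := by
    intro l hl
    rw [mem_filter] at hl
    obtain ⟨d, hd⟩ : ∃ d, 19 * k = 10 * l.sum + h + d := ⟨19 * k - (10 * l.sum + h), by omega⟩
    have a1 : (200 / 201 : ℝ) ^ h * ((201 / 200 : ℝ) ^ (19 * k) * (200 / 201) ^ (10 * l.sum)) =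
        (201 / 200) ^ d := by
      rw [hd, pow_add, pow_add]
      have b1 : (200 / 201 : ℝ) ^ h * (201 / 200) ^ h = 1 := by
        rw [← mul_pow]; norm_num
      have b2 : (201 / 200 : ℝ) ^ (10 * l.sum) * (200 / 201) ^ (10 * l.sum) = 1 := by
        rw [← mul_pow]; norm_num
      calc (200 / 201 : ℝ) ^ h * ((201 / 200 : ℝ) ^ (10 * l.sum) * (201 / 200) ^ h * (201 / 200) ^ d *
            (200 / 201) ^ (10 * l.sum)) = ((200 / 201 : ℝ) ^ h * (201 / 200) ^ h) *
            ((201 / 200 : ℝ) ^ (10 * l.sum) * (200 / 201) ^ (10 * l.sum)) * (201 / 200) ^ d := by ring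
        _ = (201 / 200) ^ d := by rw [b1, b2]; ring
    have a2 : (1 : ℝ) ≤ (201 / 200) ^ d := one_le_pow₀ (by norm_num)
    calc pw M l = pw M l * 1 := (mul_one _).symm
      _ ≤ pw M l * (201 / 200) ^ d := mul_le_mul_of_nonneg_left a2 (L_pw_nonneg M l)
      _ = _ := by rw [← a1]; ring
  refine (sum_le_sum h1).trans ?_
  rw [← mul_sum]
  refine mul_le_of_le_one_right (by positivity) (le_trans ?_ (fm_mean hM k))
  exact sum_le_sum_of_subset_of_nonneg (filter_subset _ _)
    fun l _ _ => mul_nonneg (L_pw_nonneg M l) (by positivity)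

/-- One bad factor. -/
theorem fm_one {M : ℕ} (hM : 20 ≤ M) (n h i j : ℕ) (hij : i ≤ j) (hj : j ≤ n) :
    ∑ l ∈ (words M n).filter (fun l => 10 * JJ l j + 19 * i + h < 19 * j + 10 * JJ l i), pw M l ≤
      (200 / 201) ^ h := by
  obtain ⟨k, rfl⟩ : ∃ k, j = i + k := ⟨j - i, by omega⟩
  obtain ⟨m, rfl⟩ : ∃ m, n = i + (k + m) := ⟨n - (i + k), by omega⟩
  rw [sum_filter, L_sum_words_add]
  have h1 : ∀ l ∈ words M i, ∑ l' ∈ words M (k + m),
      (if 10 * JJ (l ++ l') (i + k) + 19 * i + h < 19 * (i + k) + 10 * JJ (l ++ l') i then pw M (l ++ l') else 0) ≤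
      pw M l * (200 / 201) ^ h := by
    intro l hl
    have hlen := (mem_words.1 hl).1
    rw [L_sum_words_add]
    have h2 : ∀ u ∈ words M k, ∑ v ∈ words M m,
        (if 10 * JJ (l ++ (u ++ v)) (i + k) + 19 * i + h < 19 * (i + k) + 10 * JJ (l ++ (u ++ v)) i then
          pw M (l ++ (u ++ v)) else 0) = pw M l * (if 10 * u.sum + h < 19 * k then pw M u else 0) := by
      intro u hu
      have hlu := (mem_words.1 hu).1
      have e1 : ∀ v, JJ (l ++ (u ++ v)) i = l.sum := by
        intro v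
        rw [JJ_append, JJ_all (by omega), show i - l.length = 0 by omega, JJ_zero, add_zero]
      have e2 : ∀ v, JJ (l ++ (u ++ v)) (i + k) = l.sum + u.sum := by
        intro v
        rw [JJ_append, JJ_all (by omega), JJ_append, JJ_all (by omega),
          show i + k - l.length - u.length = 0 by omega, JJ_zero, add_zero]
      have e3 : ∀ v ∈ words M m, (if 10 * JJ (l ++ (u ++ v)) (i + k) + 19 * i + h <
          19 * (i + k) + 10 * JJ (l ++ (u ++ v)) i then pw M (l ++ (u ++ v)) else 0) =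
          (pw M l * (if 10 * u.sum + h < 19 * k then pw M u else 0)) * pw M v := by
        intro v _
        rw [e1, e2, L_pw_append, L_pw_append]
        by_cases hc : 10 * u.sum + h < 19 * k
        · rw [if_pos hc, if_pos (by omega)]
          ring
        · rw [if_neg hc, if_neg (by omega)]
          ring
      rw [sum_congr rfl e3, ← mul_sum, pw_sum (by omega), mul_one]
    rw [sum_congr rfl h2, ← mul_sum, ← sum_filter]
    apply mul_le_mul_of_nonneg_left _ (L_pw_nonneg M l)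
    refine le_trans ?_ (fm_low hM k h)
    apply sum_le_sum_of_subset_of_nonneg _ fun l _ _ => L_pw_nonneg M l
    intro u hu
    rw [mem_filter] at hu ⊢
    exact ⟨hu.1, by omega⟩
  refine (sum_le_sum h1).trans ?_
  rw [← sum_mul, pw_sum (by omega), one_mul]

open Classical in
/-- Some bad factor. -/
theorem fm_all {M : ℕ} (hM : 20 ≤ M) (n h : ℕ) :
    ∑ l ∈ (words M n).filter (fun l => ¬ ∀ j ∈ range (n + 1), ∀ i ∈ range (j + 1),
      19 * j + 10 * JJ l i ≤ 10 * JJ l j + 19 * i + h), pw M l ≤ (n + 1) ^ 2 * (200 / 201) ^ h := by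
  have h1 : ∑ l ∈ (words M n).filter (fun l => ¬ ∀ j ∈ range (n + 1), ∀ i ∈ range (j + 1),
      19 * j + 10 * JJ l i ≤ 10 * JJ l j + 19 * i + h), pw M l ≤
      ∑ j ∈ range (n + 1), ∑ i ∈ range (j + 1),
        ∑ l ∈ (words M n).filter (fun l => 10 * JJ l j + 19 * i + h < 19 * j + 10 * JJ l i), pw M l := by
    have h2 : ∀ l ∈ words M n, (if ¬ ∀ j ∈ range (n + 1), ∀ i ∈ range (j + 1),
        19 * j + 10 * JJ l i ≤ 10 * JJ l j + 19 * i + h then pw M l else 0) ≤
        ∑ j ∈ range (n + 1), ∑ i ∈ range (j + 1),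
          (if 10 * JJ l j + 19 * i + h < 19 * j + 10 * JJ l i then pw M l else 0) := by
      intro l _
      have hnn : ∀ j i : ℕ, (0 : ℝ) ≤ (if 10 * JJ l j + 19 * i + h < 19 * j + 10 * JJ l i then pw M l else 0) := by
        intro j i
        split_ifs
        · exact L_pw_nonneg M l
        · exact le_rfl
      split_ifs with hc
      · exact sum_nonneg fun j _ => sum_nonneg fun i _ => hnn j i
      · push Not at hc
        obtain ⟨j, hj, i, hi, hlt⟩ := hc
        refine le_trans ?_ (single_le_sum (f := fun j => ∑ i ∈ range (j + 1),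
          (if 10 * JJ l j + 19 * i + h < 19 * j + 10 * JJ l i then pw M l else 0))
          (fun j _ => sum_nonneg fun i _ => hnn j i) hj)
        refine le_trans ?_ (single_le_sum (f := fun i =>
          (if 10 * JJ l j + 19 * i + h < 19 * j + 10 * JJ l i then pw M l else 0)) (fun i _ => hnn j i) hi)
        show _ ≤ (if 10 * JJ l j + 19 * i + h < 19 * j + 10 * JJ l i then pw M l else 0)
        rw [if_pos hlt]
    rw [sum_filter]
    refine (sum_le_sum h2).trans (le_of_eq ?_)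
    rw [sum_comm]
    refine sum_congr rfl fun j _ => ?_
    rw [sum_comm]
    refine sum_congr rfl fun i _ => ?_
    rw [sum_filter]
  refine h1.trans ?_
  have h3 : ∀ j ∈ range (n + 1), ∑ i ∈ range (j + 1),
      ∑ l ∈ (words M n).filter (fun l => 10 * JJ l j + 19 * i + h < 19 * j + 10 * JJ l i), pw M l ≤
      (n + 1) * (200 / 201 : ℝ) ^ h := by
    intro j hj
    rw [mem_range] at hj
    have h4 : ∀ i ∈ range (j + 1),
        ∑ l ∈ (words M n).filter (fun l => 10 * JJ l j + 19 * i + h < 19 * j + 10 * JJ l i), pw M l ≤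
        (200 / 201 : ℝ) ^ h := by
      intro i hi
      rw [mem_range] at hi
      exact fm_one hM n h i j (by omega) (by omega)
    refine (sum_le_card_nsmul _ _ _ h4).trans ?_
    rw [card_range, nsmul_eq_mul]
    apply mul_le_mul_of_nonneg_right _ (by positivity)
    have : j + 1 ≤ n + 1 := by omega
    exact_mod_cast this
  refine (sum_le_card_nsmul _ _ _ h3).trans (le_of_eq ?_)
  rw [card_range, nsmul_eq_mul]
  push_cast
  ring

end H62y
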