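import Pool.Agent.Lib.H62y.SkLast

/-!
Positive density from the stages.
-/

set_option autoImplicit false
open Finset
namespace H62y
open H62w

theorem finite_le_set (x : ℕ) (P : ℕ → Prop) : {n : ℕ | n ≤ x ∧ P n}.Finite :=
  (Set.finite_Iic x).subset fun _ hn => hn.1

/-- Positive density of the predecessors of `a`, from the stages. -/
theorem positive_of_stages
    (hT : ∀ A : ℕ, ∃ K : ℝ, ∀ M n : ℕ, 2 * n ≤ M → tt M (n + 1) n ≤ K / ((n : ℝ) + 1) ^ A)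
    (hS : ∀ N : ℕ, 500 ≤ N → ∃ C B D κ : ℝ, ∃ T0 : ℕ, ∃ Ls : ℕ → ℕ, 0 ≤ C ∧ 0 ≤ B ∧ 0 ≤ D ∧ 0 < κ ∧
      N ≤ Ls 0 ∧ (∀ j, Ls (j + 1) = Ls j + Ls j / N) ∧
      ∀ y : ℕ, y % 3 ≠ 0 → ∀ j M : ℕ, 2 * Ls j ≤ M → ∃ t ≤ T0, ∃ G : Finset (List ℕ),
        Stage N M t (Ls j) y C B D κ G) (ε : ℝ) (hε : 0 < ε) :
    ∃ c C : ℝ, 0 < c ∧ 0 < C ∧ ∀ a x : ℕ, ¬ 3 ∣ a → a ≤ x →
      c * ((x : ℝ) / (a : ℝ)) ≤
        (Set.ncard {n : ℕ | n ≤ x ∧ c * (x : ℝ) ≤ (n : ℝ) ∧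
          ∃ k : ℕ, (fun m : ℕ => if m % 2 = 0 then m / 2 else (3 * m + 1) / 2)^[k] n = a ∧
            (∀ j < k, (fun m : ℕ => if m % 2 = 0 then m / 2 else (3 * m + 1) / 2)^[j] n ≠ a) ∧
            |(k : ℝ) - 2 / Real.log (4 / 3) * Real.log ((x : ℝ) / (a : ℝ))| ≤
              ε * Real.log ((x : ℝ) / (a : ℝ)) + C} : ℝ) := by
  obtain ⟨N1, hN1⟩ := exists_nat_ge (100 / ε)
  set N : ℕ := max 500 N1 with hN
  have hN500 : 500 ≤ N := le_max_left _ _
  have hNε : 100 / ε ≤ N := hN1.trans (by exact_mod_cast le_max_right _ _)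
  have hN0 : (0 : ℝ) < N := by
    have : 0 < N := by omega
    exact_mod_cast this
  obtain ⟨C, B, D, κ, T0, Ls, hC, hB, hD, hκ, h0, hs, H⟩ := hS N hN500
  obtain ⟨Θ0, C1, hG⟩ := mass_of_stages hT (by omega) hC hB hD hκ T0 Ls h0 hs H
  have h5 : 5 / (N : ℝ) ≤ 1 / 100 := by
    rw [div_le_div_iff₀ hN0 (by norm_num)]
    have : (500 : ℝ) ≤ N := by exact_mod_cast hN500
    linarith
  obtain ⟨c, C2, hc, hC2, hfin⟩ := count_density (show (0 : ℝ) < 5 / N by positivity) h5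
    (show 0 < κ / 4 by positivity) hG
  have h20 : 20 * (5 / (N : ℝ)) ≤ ε := by
    have h1 : 100 ≤ N * ε := by
      rw [div_le_iff₀ hε] at hNε
      exact hNε
    rw [show 20 * (5 / (N : ℝ)) = 100 / N by ring, div_le_iff₀ hN0]
    linarith
  set b : ℝ := 2 / Real.log (4 / 3) with hb
  have hlog : 0 < Real.log (4 / 3) := Real.log_pos (by norm_num)
  have hb0 : 0 < b := by positivity
  refine ⟨c, C2 + b * |Real.log c|, hc, by positivity, fun a x ha hax => ?_⟩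
  refine (hfin a x ha hax).trans ?_
  have ha0 : 0 < a := Nat.pos_of_ne_zero fun h => ha (h ▸ dvd_zero 3)
  have ha0' : (0 : ℝ) < a := by exact_mod_cast ha0
  have hx0 : (0 : ℝ) < x := lt_of_lt_of_le ha0' (by exact_mod_cast hax)
  have hsub : {n : ℕ | n ≤ x ∧ c * (x : ℝ) ≤ (n : ℝ) ∧
          ∃ k : ℕ, (fun m : ℕ => if m % 2 = 0 then m / 2 else (3 * m + 1) / 2)^[k] n = a ∧
            (∀ j < k, (fun m : ℕ => if m % 2 = 0 then m / 2 else (3 * m + 1) / 2)^[j] n ≠ a) ∧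
            |(k : ℝ) - b * Real.log ((n : ℝ) / (a : ℝ))| ≤
              20 * (5 / N) * Real.log ((n : ℝ) / (a : ℝ)) + C2} ⊆ {n : ℕ | n ≤ x ∧ c * (x : ℝ) ≤ (n : ℝ) ∧
          ∃ k : ℕ, (fun m : ℕ => if m % 2 = 0 then m / 2 else (3 * m + 1) / 2)^[k] n = a ∧
            (∀ j < k, (fun m : ℕ => if m % 2 = 0 then m / 2 else (3 * m + 1) / 2)^[j] n ≠ a) ∧
            |(k : ℝ) - b * Real.log ((x : ℝ) / (a : ℝ))| ≤
              ε * Real.log ((x : ℝ) / (a : ℝ)) + (C2 + b * |Real.log c|)} := by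
    rintro n ⟨h1, h2, k, h3, h4, h5⟩
    refine ⟨h1, h2, k, h3, h4, ?_⟩
    have hn0 : (0 : ℝ) < n := lt_of_lt_of_le (by positivity) h2
    have l1 : Real.log ((n : ℝ) / a) ≤ Real.log ((x : ℝ) / a) := by
      apply Real.log_le_log (by positivity)
      apply div_le_div_of_nonneg_right _ ha0'.le
      exact_mod_cast h1
    have l2 : Real.log c + Real.log ((x : ℝ) / a) ≤ Real.log ((n : ℝ) / a) := by
      rw [← Real.log_mul hc.ne' (by positivity)]
      apply Real.log_le_log (by positivity)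
      rw [← mul_div_assoc]
      exact div_le_div_of_nonneg_right h2 ha0'.le
    have l3 : 0 ≤ Real.log ((x : ℝ) / a) := by
      apply Real.log_nonneg
      rw [le_div_iff₀ ha0', one_mul]
      exact_mod_cast hax
    have l4 := neg_abs_le (Real.log c)
    have l5 : b * Real.log ((n : ℝ) / a) ≤ b * Real.log ((x : ℝ) / a) := mul_le_mul_of_nonneg_left l1 hb0.le
    have l6 : b * (Real.log ((x : ℝ) / a) - |Real.log c|) ≤ b * Real.log ((n : ℝ) / a) :=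
      mul_le_mul_of_nonneg_left (by linarith) hb0.le
    have l7 : 20 * (5 / (N : ℝ)) * Real.log ((n : ℝ) / a) ≤ ε * Real.log ((x : ℝ) / a) := by
      have w1 : 20 * (5 / (N : ℝ)) * Real.log ((n : ℝ) / a) ≤ 20 * (5 / (N : ℝ)) * Real.log ((x : ℝ) / a) :=
        mul_le_mul_of_nonneg_left l1 (by positivity)
      exact w1.trans (mul_le_mul_of_nonneg_right h20 l3)
    obtain ⟨m1, m2⟩ := abs_le.1 h5
    rw [abs_le]
    constructor
    · linarith
    · linarith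
  have := Set.ncard_le_ncard hsub (finite_le_set x _)
  exact_mod_cast this

end H62y
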