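import Pool.Agent.Lib.H62y.Stage
import Pool.Agent.Lib.H62w.Source1

set_option autoImplicit false
open Finset
namespace H62y
open H62w
namespace FP

/-- Expected number of visits to `(Θ, 2Θ]` up to time `n`. -/
noncomputable def vis (M : ℕ) (Θ : ℝ) (n : ℕ) (x : ℝ) : ℝ :=
  ∑ m ∈ range (n + 1), ∑ l ∈ (words M m).filter
      (fun l => Θ * 3 ^ m < x * 2 ^ l.sum ∧ x * 2 ^ l.sum ≤ 2 * Θ * 3 ^ m), pw M l

/-- Probability of crossing `Θ` up to time `n`. -/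
noncomputable def cr (M : ℕ) (Θ : ℝ) : ℕ → ℝ → ℝ
  | 0, x => if Θ < x then 1 else 0
  | n + 1, x => if Θ < x then 1 else ∑ a ∈ Icc 1 M, pa M a * cr M Θ n (x * 2 ^ a / 3)

theorem term_zero (M : ℕ) (Θ x : ℝ) : ∑ l ∈ (words M 0).filter
      (fun l => Θ * 3 ^ 0 < x * 2 ^ l.sum ∧ x * 2 ^ l.sum ≤ 2 * Θ * 3 ^ 0), pw M l =
      if Θ < x ∧ x ≤ 2 * Θ then 1 else 0 := by
  rw [sum_filter]
  simp [words, pw]

theorem term_succ (M : ℕ) (Θ x : ℝ) (m : ℕ) : ∑ l ∈ (words M (m + 1)).filter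
      (fun l => Θ * 3 ^ (m + 1) < x * 2 ^ l.sum ∧ x * 2 ^ l.sum ≤ 2 * Θ * 3 ^ (m + 1)), pw M l =
      ∑ a ∈ Icc 1 M, pa M a * ∑ l ∈ (words M m).filter
      (fun l => Θ * 3 ^ m < (x * 2 ^ a / 3) * 2 ^ l.sum ∧ (x * 2 ^ a / 3) * 2 ^ l.sum ≤ 2 * Θ * 3 ^ m), pw M l := by
  rw [sum_filter, Src.sum_words_succ]
  apply sum_congr rfl
  intro a _
  rw [sum_filter, mul_sum]
  apply sum_congr rfl
  intro l _
  rw [mul_ite, mul_zero, ← Src.pw_cons]
  have h1 : (Θ * 3 ^ (m + 1) < x * 2 ^ (a :: l).sum) ↔ (Θ * 3 ^ m < (x * 2 ^ a / 3) * 2 ^ l.sum) := by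
    rw [List.sum_cons, pow_add (2 : ℝ), pow_succ (3 : ℝ)]
    constructor <;> intro h <;> linarith
  have h2 : (x * 2 ^ (a :: l).sum ≤ 2 * Θ * 3 ^ (m + 1)) ↔ ((x * 2 ^ a / 3) * 2 ^ l.sum ≤ 2 * Θ * 3 ^ m) := by
    rw [List.sum_cons, pow_add (2 : ℝ), pow_succ (3 : ℝ)]
    constructor <;> intro h <;> linarith
  simp only [h1, h2]

theorem vis_zero (M : ℕ) (Θ x : ℝ) : vis M Θ 0 x = if Θ < x ∧ x ≤ 2 * Θ then 1 else 0 := by
  unfold vis
  rw [zero_add, sum_range_one, term_zero]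

theorem vis_succ (M : ℕ) (Θ : ℝ) (n : ℕ) (x : ℝ) :
    vis M Θ (n + 1) x = (if Θ < x ∧ x ≤ 2 * Θ then 1 else 0) + ∑ a ∈ Icc 1 M, pa M a * vis M Θ n (x * 2 ^ a / 3) := by
  unfold vis
  rw [sum_range_succ', term_zero, add_comm]
  congr 1
  rw [sum_congr rfl (fun m _ => term_succ M Θ x m), sum_comm]
  apply sum_congr rfl
  intro a _
  rw [mul_sum]

theorem vis_nonneg (M : ℕ) (Θ : ℝ) (n : ℕ) (x : ℝ) : 0 ≤ vis M Θ n x :=
  sum_nonneg (fun _ _ => sum_nonneg (fun l _ => (Src.pw_pos M l).le))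

theorem vis_ge_one {M : ℕ} {Θ : ℝ} {n : ℕ} {x : ℝ} (h1 : Θ < x) (h2 : x ≤ 2 * Θ) : 1 ≤ vis M Θ n x := by
  rcases n with _ | n
  · rw [vis_zero, if_pos ⟨h1, h2⟩]
  · rw [vis_succ, if_pos ⟨h1, h2⟩]
    have : 0 ≤ ∑ a ∈ Icc 1 M, pa M a * vis M Θ n (x * 2 ^ a / 3) :=
      sum_nonneg (fun a _ => mul_nonneg (Src.pa_pos M a).le (vis_nonneg _ _ _ _))
    linarith

theorem cr_of_lt {M : ℕ} {Θ : ℝ} {n : ℕ} {x : ℝ} (h1 : Θ < x) : cr M Θ n x = 1 := by
  rcases n with _ | n <;> simp [cr, h1]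

theorem tail_sum {M d : ℕ} (hd1 : 1 ≤ d) (hd : d ≤ M) : ∑ a ∈ Icc d M, pa M a = 2 * (1 / 2 : ℝ) ^ d := by
  obtain ⟨e, rfl⟩ := Nat.exists_eq_add_of_le hd
  clear hd
  induction e generalizing d with
  | zero =>
    rw [add_zero, Icc_self, sum_singleton]
    unfold pa
    rw [if_neg (by omega)]
    obtain ⟨c, rfl⟩ := Nat.exists_eq_add_of_le hd1
    rw [show 1 + c - 1 = c by omega, pow_add]
    ring
  | succ e ih =>
    rw [← Finset.insert_Icc_succ_left_eq_Icc (show d ≤ d + (e + 1) by omega), sum_insert (by simp)]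
    have h := ih (d := d + 1) (by omega)
    rw [show d + 1 + e = d + (e + 1) by ring] at h
    rw [show Order.succ d = d + 1 from rfl, h]
    unfold pa
    rw [if_pos (by omega), pow_succ]
    ring

theorem pa_ge (M a : ℕ) : (1 / 2 : ℝ) ^ a ≤ pa M a := by
  unfold pa
  split_ifs with h
  · exact le_rfl
  · exact pow_le_pow_of_le_one (by norm_num) (by norm_num) (by omega)

theorem half_cr (M : ℕ) (Θ : ℝ) : ∀ (n : ℕ) (x : ℝ), 0 < x → x ≤ Θ → cr M Θ n x / 2 ≤ vis M Θ n x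
  | 0, x, _, h1 => by
    have : cr M Θ 0 x = 0 := by simp [cr, not_lt.2 h1]
    rw [this]
    have := vis_nonneg M Θ 0 x
    linarith
  | n + 1, x, h0, h1 => by
    have e1 : cr M Θ (n + 1) x = ∑ a ∈ Icc 1 M, pa M a * cr M Θ n (x * 2 ^ a / 3) := by
      rw [cr, if_neg (not_lt.2 h1)]
    have e2 : vis M Θ (n + 1) x = ∑ a ∈ Icc 1 M, pa M a * vis M Θ n (x * 2 ^ a / 3) := by
      rw [vis_succ, if_neg (fun h => absurd h.1 (not_lt.2 h1)), zero_add]
    rw [e1, e2]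
    have hx : ∀ a : ℕ, 0 < x * 2 ^ a / 3 := fun a => by positivity
    by_cases hc : ∃ a ∈ Icc 1 M, Θ < x * 2 ^ a / 3
    · -- minimal crossing letter
      have hex : ∃ a : ℕ, 1 ≤ a ∧ Θ < x * 2 ^ a / 3 := by
        obtain ⟨a, ha, h⟩ := hc
        exact ⟨a, (mem_Icc.1 ha).1, h⟩
      classical
      set d := Nat.find hex with hdd
      obtain ⟨hd1, hd2⟩ := Nat.find_spec hex
      rw [← hdd] at hd1 hd2
      have hmin : ∀ a : ℕ, 1 ≤ a → a < d → x * 2 ^ a / 3 ≤ Θ := by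
        intro a ha had
        by_contra hcon
        exact Nat.find_min hex had ⟨ha, not_le.1 hcon⟩
      have hdM : d ≤ M := by
        obtain ⟨a, ha, h⟩ := hc
        exact le_trans (Nat.find_min' hex ⟨(mem_Icc.1 ha).1, h⟩) (mem_Icc.1 ha).2
      have hd3 : x * 2 ^ d / 3 ≤ 2 * Θ := by
        rcases Nat.lt_or_ge 1 d with h | h
        · have h4 := hmin (d - 1) (by omega) (by omega)
          obtain ⟨c, hc⟩ := Nat.exists_eq_add_of_le hd1
          rw [hc] at h4 ⊢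
          rw [show 1 + c - 1 = c by omega] at h4
          rw [pow_add]
          linarith
        · have : d = 1 := by omega
          rw [this]
          linarith
      have hsplit : Icc 1 M = (Icc 1 (d - 1)) ∪ (Icc d M) := by
        ext a; simp only [mem_Icc, mem_union]; omega
      have hdisj : Disjoint (Icc 1 (d - 1)) (Icc d M) := by
        rw [disjoint_left]; intro a ha hb; rw [mem_Icc] at ha hb; omega
      rw [hsplit, sum_union hdisj, sum_union hdisj, add_div]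
      apply add_le_add
      · rw [sum_div]
        apply sum_le_sum
        intro a ha
        rw [mem_Icc] at ha
        rw [mul_div_assoc]
        exact mul_le_mul_of_nonneg_left (half_cr M Θ n _ (hx a) (hmin a ha.1 (by omega))) (Src.pa_pos M a).le
      · have hge : ∀ a ∈ Icc d M, pa M a * cr M Θ n (x * 2 ^ a / 3) = pa M a := by
          intro a ha
          rw [mem_Icc] at ha
          rw [cr_of_lt, mul_one]
          refine lt_of_lt_of_le hd2 ?_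
          have : (2 : ℝ) ^ d ≤ 2 ^ a := pow_le_pow_right₀ (by norm_num) ha.1
          have := mul_le_mul_of_nonneg_left this h0.le
          linarith
        rw [sum_congr rfl hge, tail_sum hd1 hdM]
        calc 2 * (1 / 2 : ℝ) ^ d / 2 = (1 / 2 : ℝ) ^ d := by ring
          _ ≤ pa M d := pa_ge M d
          _ ≤ pa M d * vis M Θ n (x * 2 ^ d / 3) := by
              have := vis_ge_one (M := M) (n := n) hd2 hd3
              nlinarith [Src.pa_pos M d]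
          _ ≤ ∑ a ∈ Icc d M, pa M a * vis M Θ n (x * 2 ^ a / 3) :=
              single_le_sum (f := fun a => pa M a * vis M Θ n (x * 2 ^ a / 3))
                (fun a _ => mul_nonneg (Src.pa_pos M a).le (vis_nonneg _ _ _ _)) (mem_Icc.2 ⟨le_rfl, hdM⟩)
    · push Not at hc
      rw [sum_div]
      apply sum_le_sum
      intro a ha
      rw [mul_div_assoc]
      exact mul_le_mul_of_nonneg_left (half_cr M Θ n _ (hx a) (hc a ha)) (Src.pa_pos M a).le

/-- Mass of words of length `n` with final position above `Θ`. -/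
noncomputable def up (M : ℕ) (Θ : ℝ) (n : ℕ) (x : ℝ) : ℝ :=
  ∑ l ∈ (words M n).filter (fun l => Θ * 3 ^ n < x * 2 ^ l.sum), pw M l

theorem up_succ (M : ℕ) (Θ : ℝ) (n : ℕ) (x : ℝ) :
    up M Θ (n + 1) x = ∑ a ∈ Icc 1 M, pa M a * up M Θ n (x * 2 ^ a / 3) := by
  unfold up
  rw [sum_filter, Src.sum_words_succ]
  apply sum_congr rfl
  intro a _
  rw [sum_filter, mul_sum]
  apply sum_congr rfl
  intro l _
  rw [mul_ite, mul_zero, ← Src.pw_cons]
  have h1 : (Θ * 3 ^ (n + 1) < x * 2 ^ (a :: l).sum) ↔ (Θ * 3 ^ n < (x * 2 ^ a / 3) * 2 ^ l.sum) := by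
    rw [List.sum_cons, pow_add (2 : ℝ), pow_succ (3 : ℝ)]
    constructor <;> intro h <;> linarith
  simp only [h1]

theorem up_le_one {M : ℕ} (hM : 1 ≤ M) (Θ : ℝ) (n : ℕ) (x : ℝ) : up M Θ n x ≤ 1 := by
  rw [← pw_sum hM n]
  exact sum_le_sum_of_subset_of_nonneg (filter_subset _ _) (fun l _ _ => (Src.pw_pos M l).le)

theorem up_le_cr {M : ℕ} (hM : 1 ≤ M) (Θ : ℝ) : ∀ (n : ℕ) (x : ℝ), up M Θ n x ≤ cr M Θ n x
  | 0, x => by
    unfold up cr
    rw [sum_filter]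
    simp [words, pw]
  | n + 1, x => by
    by_cases h : Θ < x
    · rw [cr_of_lt h]; exact up_le_one hM _ _ _
    · rw [cr, if_neg h, up_succ]
      exact sum_le_sum (fun a _ => mul_le_mul_of_nonneg_left (up_le_cr hM Θ n _) (Src.pa_pos M a).le)

/-- lower moment of a letter. -/
theorem geo_low (m : ℕ) (v : ℝ) (hv : v < 1) :
    ∑ a ∈ Icc 1 m, v ^ a = (v - v ^ (m + 1)) / (1 - v) := by
  have h1 : (1 - v) * ∑ a ∈ Icc 1 m, v ^ a = v - v ^ (m + 1) := by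
    induction m with
    | zero => simp
    | succ m ih => rw [Src.sum_Icc_split, mul_add, ih, pow_succ v (m + 1)]; ring
  have h2 : (1 - v) ≠ 0 := by linarith
  rw [eq_div_iff h2, mul_comm]
  exact h1

theorem low_moment (m : ℕ) (t : ℝ) (ht : 0 ≤ t) (ht1 : t ≤ 1) :
    ∑ a ∈ Icc 1 (m + 1), pa (m + 1) a * t ^ a ≤ t / (2 - t) + (1 / 2) ^ m := by
  rw [Src.sum_Icc_split, sum_congr rfl (fun a ha => by rw [Src.pa_lt ha]), Src.pa_top]
  have h1 : ∑ x ∈ Icc 1 m, ((1 : ℝ) / 2) ^ x * t ^ x = ∑ a ∈ Icc 1 m, (t / 2) ^ a := by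
    apply sum_congr rfl; intro x _; rw [← mul_pow]; congr 1; ring
  rw [h1, geo_low m (t / 2) (by linarith)]
  have h2 : ((1 : ℝ) / 2) ^ m * t ^ (m + 1) ≤ (1 / 2) ^ m := by
    have h3 : t ^ (m + 1) ≤ 1 := pow_le_one₀ ht ht1
    have h4 : (0 : ℝ) < (1 / 2) ^ m := by positivity
    nlinarith
  have h5 : (t / 2 - (t / 2) ^ (m + 1)) / (1 - t / 2) ≤ t / (2 - t) := by
    rw [div_le_div_iff₀ (by linarith) (by linarith)]
    have h6 : 0 ≤ (t / 2) ^ (m + 1) := by positivity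
    nlinarith
  linarith

/-- numerical inputs -/
theorem num_log : 20 * (Real.log 3 + 1 / 4) ≤ 39 * Real.log 2 := by
  have h1 : (20 * Real.log 3 + 5 : ℝ) = Real.log (3 ^ 20 * Real.exp 5) := by
    rw [Real.log_mul (by positivity) (by positivity), Real.log_pow, Real.log_exp]; push_cast; ring
  have h2 : (39 * Real.log 2 : ℝ) = Real.log (2 ^ 39) := by
    rw [Real.log_pow]; push_cast; ring
  have h3 : Real.exp 5 ≤ 157 := by
    have h4 : Real.exp 1 < 2.7182818286 := Real.exp_one_lt_d9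
    have h5 : Real.exp 5 = Real.exp 1 ^ 5 := by rw [← Real.exp_nat_mul]; norm_num
    rw [h5]
    calc Real.exp 1 ^ 5 ≤ (2.7182818286 : ℝ) ^ 5 := pow_le_pow_left₀ (Real.exp_pos 1).le h4.le 5
      _ ≤ 157 := by norm_num
  have h6 : (20 * Real.log 3 + 5 : ℝ) ≤ 39 * Real.log 2 := by
    rw [h1, h2]
    apply Real.log_le_log (by positivity)
    calc (3 : ℝ) ^ 20 * Real.exp 5 ≤ 3 ^ 20 * 157 := by
          apply mul_le_mul_of_nonneg_left h3 (by positivity)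
      _ ≤ 2 ^ 39 := by norm_num
  linarith

/-- the mass of the words below the threshold decays exponentially. -/
theorem below (m n : ℕ) (hm : 20 ≤ m) (x Θ : ℝ) (hx : 0 < x) (hΘ : 0 < Θ) (hl : Real.log (Θ / x) ≤ n / 4) :
    ∑ l ∈ (words (m + 1) n).filter (fun l => ¬ Θ * 3 ^ n < x * 2 ^ l.sum), pw (m + 1) l ≤
      (((1997 / 2000 : ℝ) ^ 20 / (2 - (1997 / 2000) ^ 20) + (1 / 2) ^ 20) / (1997 / 2000) ^ 39) ^ n := by
  set r : ℝ := 1997 / 2000 with hr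
  have hr0 : 0 < r := by rw [hr]; norm_num
  have hr1 : r ≤ 1 := by rw [hr]; norm_num
  have ht1 : r ^ 20 ≤ 1 := pow_le_one₀ hr0.le hr1
  have h1 : ∑ a ∈ Icc 1 (m + 1), pa (m + 1) a * (r ^ 20) ^ a ≤ r ^ 20 / (2 - r ^ 20) + (1 / 2) ^ 20 := by
    refine le_trans (low_moment m (r ^ 20) (by positivity) ht1) ?_
    have : (1 / 2 : ℝ) ^ m ≤ (1 / 2) ^ 20 := pow_le_pow_of_le_one (by norm_num) (by norm_num) hm
    linarith
  have h2 := Src.words_moment m n (r ^ 20) _ (by positivity) h1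
  rw [div_pow, le_div_iff₀ (by positivity)]
  refine le_trans ?_ h2
  rw [sum_mul]
  refine le_trans (sum_le_sum (f := fun l => pw (m + 1) l * (r ^ 39) ^ n)
    (g := fun l => pw (m + 1) l * (r ^ 20) ^ l.sum) ?_) ?_
  · intro l hl'
    rw [mem_filter] at hl'
    apply mul_le_mul_of_nonneg_left _ (Src.pw_pos _ l).le
    rw [← pow_mul, ← pow_mul]
    apply pow_le_pow_of_le_one hr0.le hr1
    -- 20 |l| ≤ 39 n
    have h3 : x * 2 ^ l.sum ≤ Θ * 3 ^ n := not_lt.1 hl'.2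
    have h4 : Real.log (x * 2 ^ l.sum) ≤ Real.log (Θ * 3 ^ n) := Real.log_le_log (by positivity) h3
    rw [Real.log_mul hx.ne' (by positivity), Real.log_mul hΘ.ne' (by positivity), Real.log_pow, Real.log_pow] at h4
    rw [Real.log_div hΘ.ne' hx.ne'] at hl
    have h5 := num_log
    have h6 : 0 < Real.log 2 := Real.log_pos (by norm_num)
    have h7 : (20 * l.sum : ℝ) * Real.log 2 ≤ (39 * n : ℝ) * Real.log 2 := by
      have h8 : (n : ℝ) * (20 * (Real.log 3 + 1 / 4)) ≤ n * (39 * Real.log 2) :=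
        mul_le_mul_of_nonneg_left h5 (Nat.cast_nonneg n)
      nlinarith
    have h9 : (20 * l.sum : ℝ) ≤ 39 * n := le_of_mul_le_mul_right h7 h6
    exact_mod_cast h9
  · exact sum_le_sum_of_subset_of_nonneg (filter_subset _ _)
      (fun l _ _ => mul_nonneg (Src.pw_pos _ l).le (by positivity))

theorem rate_lt : ((1997 / 2000 : ℝ) ^ 20 / (2 - (1997 / 2000) ^ 20) + (1 / 2) ^ 20) / (1997 / 2000) ^ 39 < 1 := by
  rw [div_lt_one (by positivity)]
  norm_num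

theorem rate_nonneg : 0 ≤ ((1997 / 2000 : ℝ) ^ 20 / (2 - (1997 / 2000) ^ 20) + (1 / 2) ^ 20) / (1997 / 2000) ^ 39 := by
  norm_num

end FP

/-- chunk L2: first passage of the size walk. -/
theorem first_passage : ∃ m1 : ℕ, ∀ m2 : ℕ, m1 ≤ m2 → ∀ M : ℕ, m2 ≤ M → ∀ v Θ : ℝ, 0 < v → v ≤ Θ →
    Real.log (Θ / v) ≤ m2 / 4 →
    2 / 5 ≤ ∑ m ∈ range (m2 + 1), ∑ l ∈ (words M m).filter
      (fun l => Θ * 3 ^ m < v * 2 ^ l.sum ∧ v * 2 ^ l.sum ≤ 2 * Θ * 3 ^ m), pw M l := by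
  obtain ⟨n0, hn0⟩ := exists_pow_lt_of_lt_one (show (0 : ℝ) < 1 / 5 by norm_num) FP.rate_lt
  refine ⟨n0 + 21, fun m2 hm2 M hM v Θ hv hvΘ hlog => ?_⟩
  obtain ⟨m, rfl⟩ : ∃ m, M = m + 1 := ⟨M - 1, by omega⟩
  have hΘ : 0 < Θ := lt_of_lt_of_le hv hvΘ
  have h1 := FP.below m m2 (by omega) v Θ hv hΘ hlog
  have h2 : ∑ l ∈ (words (m + 1) m2).filter (fun l => ¬ Θ * 3 ^ m2 < v * 2 ^ l.sum), pw (m + 1) l ≤ 1 / 5 := by
    refine le_trans h1 (le_trans ?_ hn0.le)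
    exact pow_le_pow_of_le_one FP.rate_nonneg FP.rate_lt.le (by omega)
  have h3 : FP.up (m + 1) Θ m2 v + ∑ l ∈ (words (m + 1) m2).filter (fun l => ¬ Θ * 3 ^ m2 < v * 2 ^ l.sum), pw (m + 1) l
      = 1 := by
    unfold FP.up
    rw [sum_filter_add_sum_filter_not, pw_sum (by omega)]
  have h4 := FP.up_le_cr (M := m + 1) (by omega) Θ m2 v
  have h5 := FP.half_cr (m + 1) Θ m2 v hv hvΘ
  unfold FP.vis at h5
  linarith

end H62y
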