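import Pool.Agent.Lib.H62w.EntF
import Pool.Agent.Lib.H62y.Paths
import Pool.Agent.Lib.H62y.Expo
import Pool.Agent.Lib.H62w.Nonatomic

set_option autoImplicit false
open Finset
namespace H62y
open H62w

/-- Upper digits of the members of `E` above the residue `r`. -/
def Ar (E : Finset ℕ) (k r : ℕ) : Finset ℕ :=
  (E.filter (fun θ => θ % 3 ^ (k + 1) = r)).image (fun θ => θ / 3 ^ (k + 1))

/-- Upper digits of the end points with total `s` and class `v`. -/
def Br (M k r : ℕ) (p : ℕ × ℕ) : Finset ℕ :=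
  ((PP M k r).filter (fun l => (l.sum, en l r % 3) = p)).image (fun l => en l r / 3)

/-- The possible totals and classes. -/
def keys (M k r : ℕ) : Finset (ℕ × ℕ) := (PP M k r).image (fun l => (l.sum, en l r % 3))

noncomputable def ws (β : ℝ) (k s : ℕ) : ℝ := ((2 : ℝ) ^ (19 * k) / (2 : ℝ) ^ (10 * s)) ^ β

noncomputable def qq (β : ℝ) (M k r : ℕ) (p : ℕ × ℕ) : ℝ :=
  ((Br M k r p).card : ℝ) * ws β k p.1 / W β M k r

theorem card_Ar (E : Finset ℕ) (k r : ℕ) :
    (Ar E k r).card = (E.filter (fun θ => θ % 3 ^ (k + 1) = r)).card := by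
  apply card_image_of_injOn
  intro x hx y hy hxy
  simp only [coe_filter, Set.mem_setOf_eq] at hx hy
  dsimp only at hxy
  rw [← Nat.div_add_mod x (3 ^ (k + 1)), ← Nat.div_add_mod y (3 ^ (k + 1)), hx.2, hy.2, hxy]

theorem sum_Ar (E : Finset ℕ) (k r : ℕ) (g : ℕ → ℝ) :
    ∑ a ∈ Ar E k r, g a = ∑ θ ∈ E.filter (fun θ => θ % 3 ^ (k + 1) = r), g (θ / 3 ^ (k + 1)) := by
  apply sum_image
  intro x hx y hy hxy
  simp only [coe_filter, Set.mem_setOf_eq] at hx hy
  dsimp only at hxy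
  rw [← Nat.div_add_mod x (3 ^ (k + 1)), ← Nat.div_add_mod y (3 ^ (k + 1)), hx.2, hy.2, hxy]

theorem Br_injOn (M k r : ℕ) (p : ℕ × ℕ) :
    Set.InjOn (fun l => en l r / 3) ((PP M k r).filter (fun l => (l.sum, en l r % 3) = p) : Finset (List ℕ)) := by
  intro l hl l' hl' h
  simp only [coe_filter, Set.mem_setOf_eq, PP, mem_filter] at hl hl'
  obtain ⟨⟨hw, hv, _, _⟩, hp⟩ := hl
  obtain ⟨⟨hw', hv', _, _⟩, hp'⟩ := hl'
  rw [mem_words] at hw hw'
  have e1 : l.sum = l'.sum := by have := congrArg Prod.fst (hp.trans hp'.symm); simpa using this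
  have e2 : en l r % 3 = en l' r % 3 := by have := congrArg Prod.snd (hp.trans hp'.symm); simpa using this
  dsimp only at h
  have e3 : en l r = en l' r := by
    rw [← Nat.div_add_mod (en l r) 3, ← Nat.div_add_mod (en l' r) 3, h, e2]
  exact en_inj (hw.1.trans hw'.1.symm) e1 (fun a ha => (hw.2 a ha).1) (fun a ha => (hw'.2 a ha).1) hv hv' e3

theorem card_Br (M k r : ℕ) (p : ℕ × ℕ) :
    (Br M k r p).card = ((PP M k r).filter (fun l => (l.sum, en l r % 3) = p)).card :=
  card_image_of_injOn (Br_injOn M k r p)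

theorem sum_Br (M k r : ℕ) (p : ℕ × ℕ) (g : ℕ → ℝ) :
    ∑ b ∈ Br M k r p, g b = ∑ l ∈ (PP M k r).filter (fun l => (l.sum, en l r % 3) = p), g (en l r / 3) :=
  sum_image (Br_injOn M k r p)

theorem sum_keys (M k r : ℕ) (g : ℕ × ℕ → ℕ → ℝ) :
    ∑ p ∈ keys M k r, ∑ b ∈ Br M k r p, g p b =
      ∑ l ∈ PP M k r, g (l.sum, en l r % 3) (en l r / 3) := by
  rw [← sum_fiberwise_of_maps_to (s := PP M k r) (t := keys M k r) (g := fun l => (l.sum, en l r % 3))
    (fun l hl => mem_image_of_mem _ hl)]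
  refine sum_congr rfl (fun p _ => ?_)
  rw [sum_Br]
  refine sum_congr rfl (fun l hl => ?_)
  rw [(mem_filter.1 hl).2]

theorem sum_res (E : Finset ℕ) (k : ℕ) (g : ℕ → ℕ → ℝ) :
    ∑ r ∈ E.image (fun θ => θ % 3 ^ (k + 1)), ∑ a ∈ Ar E k r, g r a =
      ∑ θ ∈ E, g (θ % 3 ^ (k + 1)) (θ / 3 ^ (k + 1)) := by
  rw [← sum_fiberwise_of_maps_to (s := E) (t := E.image (fun θ => θ % 3 ^ (k + 1)))
    (g := fun θ => θ % 3 ^ (k + 1)) (fun l hl => mem_image_of_mem _ hl)]
  refine sum_congr rfl (fun p _ => ?_)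
  rw [sum_Ar]
  refine sum_congr rfl (fun l hl => ?_)
  rw [(mem_filter.1 hl).2]

theorem qq_sum (β : ℝ) (M k r : ℕ) (hW : 0 < W β M k r) : ∑ p ∈ keys M k r, qq β M k r p = 1 := by
  have h := sum_keys M k r (fun p _ => ws β k p.1)
  simp only [sum_const, nsmul_eq_mul] at h
  simp only [qq]
  rw [← sum_div, h, div_eq_one_iff_eq hW.ne']
  rfl

theorem qq_nonneg (β : ℝ) (M k r : ℕ) (hW : 0 < W β M k r) (p : ℕ × ℕ) : 0 ≤ qq β M k r p := by
  unfold qq ws
  positivity

theorem Br_nonempty {M k r : ℕ} {p : ℕ × ℕ} (hp : p ∈ keys M k r) : (Br M k r p).Nonempty := by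
  obtain ⟨l, hl, rfl⟩ := mem_image.1 hp
  exact ⟨_, mem_image_of_mem _ (mem_filter.2 ⟨hl, rfl⟩)⟩

theorem PP_sum_le {M k r : ℕ} {l : List ℕ} (hl : l ∈ PP M k r) : l.sum ≤ M * k := by
  simp only [PP, mem_filter, mem_words] at hl
  have := List.sum_le_card_nsmul l M (fun a ha => (hl.1.2 a ha).2)
  rw [hl.1.1] at this
  simpa [mul_comm] using this

theorem keys_card (M k r : ℕ) : ((keys M k r).card : ℝ) ≤ 2 * (M * k + 1) := by
  have h : keys M k r ⊆ (range (M * k + 1)) ×ˢ ({1, 2} : Finset ℕ) := by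
    intro p hp
    obtain ⟨l, hl, rfl⟩ := mem_image.1 hp
    have h1 := PP_sum_le hl
    have h2 : en l r % 3 ≠ 0 := by simp only [PP, mem_filter] at hl; exact hl.2.2.1
    simp only [mem_product, mem_range, mem_insert, mem_singleton]
    omega
  have := card_le_card h
  rw [card_product, card_range] at this
  have h3 : ({1, 2} : Finset ℕ).card = 2 := by decide
  rw [h3] at this
  have : ((keys M k r).card : ℝ) ≤ ((M * k + 1) * 2 : ℕ) := by exact_mod_cast this
  push_cast at this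
  linarith

theorem Br_sub {M k r : ℕ} (hr : r < 3 ^ (k + 1)) (p : ℕ × ℕ) : Br M k r p ⊆ range (3 ^ (M * k)) := by
  intro b hb
  obtain ⟨l, hl, rfl⟩ := mem_image.1 hb
  have hl := (mem_filter.1 hl).1
  have hs := PP_sum_le hl
  simp only [PP, mem_filter, mem_words] at hl
  have h1 := en_le l r hl.2.1
  rw [hl.1.1] at h1
  rw [mem_range]
  have h2 : 3 ^ k * en l r < 3 ^ k * (3 * 2 ^ l.sum) := by
    calc 3 ^ k * en l r ≤ 2 ^ l.sum * r := h1
      _ < 2 ^ l.sum * 3 ^ (k + 1) := Nat.mul_lt_mul_of_pos_left hr (by positivity)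
      _ = 3 ^ k * (3 * 2 ^ l.sum) := by ring
  have h3 : en l r < 3 * 2 ^ l.sum := Nat.lt_of_mul_lt_mul_left h2
  have h4 : en l r / 3 < 2 ^ l.sum := by omega
  calc en l r / 3 < 2 ^ l.sum := h4
    _ ≤ 2 ^ (M * k) := Nat.pow_le_pow_right (by norm_num) hs
    _ ≤ 3 ^ (M * k) := Nat.pow_le_pow_left (by norm_num) _

/-- Step 4, first half. -/
theorem log_card_Br {β : ℝ} (hβ : 0 ≤ β) (M k r : ℕ) (hW : 0 < W β M k r) :
    Real.log (W β M k r) - Real.log (2 * (M * k + 1)) ≤
      ∑ p ∈ keys M k r, qq β M k r p * Real.log ((Br M k r p).card : ℝ) := by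
  have h1 := nml_sum_le (keys M k r) (qq β M k r) (fun p _ => qq_nonneg β M k r hW p)
  rw [qq_sum β M k r hW] at h1
  simp only [one_mul, Real.negMulLog_one, add_zero] at h1
  have hne : (keys M k r).Nonempty := by
    by_contra h
    rw [not_nonempty_iff_eq_empty] at h
    have := qq_sum β M k r hW
    rw [h] at this
    simp at this
  have h2 : Real.log ((keys M k r).card : ℝ) ≤ Real.log (2 * (M * k + 1)) :=
    Real.log_le_log (by exact_mod_cast hne.card_pos) (keys_card M k r)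
  have h3 : ∀ p ∈ keys M k r, qq β M k r p * Real.log (W β M k r) - Real.negMulLog (qq β M k r p) ≤
      qq β M k r p * Real.log ((Br M k r p).card : ℝ) := by
    intro p hp
    have hc : (0 : ℝ) < (Br M k r p).card := by exact_mod_cast (Br_nonempty hp).card_pos
    have hws : 0 < ws β k p.1 := by unfold ws; positivity
    have hws1 : ws β k p.1 ≤ 1 := by
      obtain ⟨l, hl, rfl⟩ := mem_image.1 hp
      exact wt_le_one hβ hl
    have hq : 0 < qq β M k r p := by unfold qq; positivity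
    have e : Real.log (qq β M k r p) + Real.log (W β M k r) ≤ Real.log ((Br M k r p).card : ℝ) := by
      rw [← Real.log_mul hq.ne' hW.ne']
      apply Real.log_le_log (by positivity)
      unfold qq
      rw [div_mul_cancel₀ _ hW.ne']
      nlinarith
    rw [Real.negMulLog]
    nlinarith
  have h4 := sum_le_sum h3
  rw [sum_sub_distrib, ← sum_mul, qq_sum β M k r hW, one_mul] at h4
  linarith

end H62y
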