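import Pool.Agent.Lib.H62y.Stage
import Pool.Agent.Lib.H62w.Mu

set_option autoImplicit false
open Finset
namespace H62y
open H62w

theorem jlc_cc_append : ∀ (u v : List ℕ), cc (u ++ v) = 2 ^ v.sum * cc u + 3 ^ u.length * cc v
  | [], v => by simp [cc]
  | a :: u, v => by
      rw [List.cons_append, cc, jlc_cc_append u v, cc, List.sum_append, List.length_cons]
      ring

/-- chunk L1b: the law of (sum, residue mod `3^p`) of `p + m` letters. -/
theorem jl_cond {M : ℕ} (hM : 1 ≤ M) (p m s y : ℕ) :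
    jl M (p + m) p s y = ∑ u ∈ (words M p).filter (fun u => 2 ^ u.sum * y ≡ cc u [MOD 3 ^ p]),
      pw M u * (if u.sum ≤ s then PL M m (s - u.sum) else 0) := by
  unfold jl
  rw [sum_filter, L_sum_words_add, sum_filter]
  refine sum_congr rfl fun u hu => ?_
  have hlen : u.length = p := (mem_words.1 hu).1
  have key : ∀ v : List ℕ, (2 ^ (u ++ v).sum * y ≡ cc (u ++ v) [MOD 3 ^ p]) ↔
      (2 ^ u.sum * y ≡ cc u [MOD 3 ^ p]) := by
    intro v
    rw [jlc_cc_append, hlen, List.sum_append, pow_add]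
    have h1 : 2 ^ v.sum * cc u + 3 ^ p * cc v ≡ 2 ^ v.sum * cc u [MOD 3 ^ p] := by
      simp [Nat.ModEq]
    have h2 : 2 ^ u.sum * 2 ^ v.sum * y = 2 ^ v.sum * (2 ^ u.sum * y) := by ring
    rw [h2]
    constructor
    · intro h
      have h3 := h.trans h1
      refine Nat.ModEq.cancel_left_of_coprime ?_ h3
      exact Nat.Coprime.pow _ _ (by norm_num)
    · intro h
      exact (h.mul_left _).trans h1.symm
  by_cases hv : 2 ^ u.sum * y ≡ cc u [MOD 3 ^ p]
  · rw [if_pos hv]
    split_ifs with hs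
    · unfold PL
      rw [sum_filter, mul_sum]
      refine sum_congr rfl fun v _ => ?_
      by_cases h : v.sum = s - u.sum
      · rw [if_pos h, if_pos ⟨by rw [List.sum_append]; omega, (key v).2 hv⟩, L_pw_append]
      · rw [if_neg h, if_neg (by rintro ⟨h', _⟩; rw [List.sum_append] at h'; omega), mul_zero]
    · rw [mul_zero]
      refine sum_eq_zero fun v _ => ?_
      rw [if_neg]
      rintro ⟨h', _⟩
      rw [List.sum_append] at h'
      omega
  · rw [if_neg hv]
    refine sum_eq_zero fun v _ => ?_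
    rw [if_neg]
    rintro ⟨_, h'⟩
    exact hv ((key v).1 h')

end H62y
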