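import Pool.Agent.Lib.H62y.Stage
import Pool.Agent.Lib.H62w.Source2

set_option autoImplicit false

/-!
# Conditional means telescope (chunk L1a)
-/

open Finset

namespace H62y
open H62w H62w.Src

/-- Sum of a periodic function over several periods. -/
theorem sum_periodic_JL {f : ℕ → ℝ} {T : ℕ} (hf : ∀ x, f (x + T) = f x) (q : ℕ) :
    ∑ b ∈ range (q * T), f b = q * ∑ b ∈ range T, f b := by
  have h1 : ∀ q x : ℕ, f (q * T + x) = f x := by
    intro q
    induction q with
    | zero => intro x; rw [zero_mul, zero_add]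
    | succ n ih =>
      intro x
      rw [show (n + 1) * T + x = (n * T + x) + T by ring, hf, ih]
  induction q with
  | zero => simp
  | succ n ih =>
    rw [add_mul, one_mul, Finset.sum_range_add, ih]
    simp only [h1]
    push_cast
    ring

theorem jl_mod_add_JL (M k n s x j : ℕ) : jl M k n s (x + 3 ^ n * j) = jl M k n s x := by
  induction j with
  | zero => rw [mul_zero, add_zero]
  | succ m ih => rw [mul_add, mul_one, ← add_assoc, jl_mod, ih]

/-- One step. -/
theorem step_JL (M k n : ℕ) (hn : n + 1 ≤ k) (s : ℕ) :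
    ∑ b ∈ range (3 ^ k), |(1 / 3 : ℝ) ^ (k - (n + 1)) * jl M k (n + 1) s b -
      (1 / 3) ^ (k - n) * jl M k n s b| =
    ∑ y ∈ range (3 ^ (n + 1)), |jl M k (n + 1) s y - jl M k n s y / 3| := by
  obtain ⟨m, rfl⟩ : ∃ m, k = n + 1 + m := ⟨k - (n + 1), by omega⟩
  have e1 : n + 1 + m - (n + 1) = m := by omega
  have e2 : n + 1 + m - n = m + 1 := by omega
  rw [e1, e2]
  have h1 : ∀ b, |(1 / 3 : ℝ) ^ m * jl M (n + 1 + m) (n + 1) s b -
      (1 / 3) ^ (m + 1) * jl M (n + 1 + m) n s b| =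
      (1 / 3) ^ m * |jl M (n + 1 + m) (n + 1) s b - jl M (n + 1 + m) n s b / 3| := by
    intro b
    rw [← abs_of_nonneg (show (0 : ℝ) ≤ (1 / 3) ^ m by positivity), ← abs_mul,
      abs_of_nonneg (show (0 : ℝ) ≤ (1 / 3) ^ m by positivity)]
    congr 1
    rw [pow_succ]
    ring
  simp only [h1]
  rw [← Finset.mul_sum, show 3 ^ (n + 1 + m) = 3 ^ m * 3 ^ (n + 1) by rw [← pow_add]; ring_nf,
    sum_periodic_JL (T := 3 ^ (n + 1)) (q := 3 ^ m)
      (f := fun b => |jl M (n + 1 + m) (n + 1) s b - jl M (n + 1 + m) n s b / 3|)]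
  · push_cast
    rw [← mul_assoc, ← mul_pow]
    norm_num
  · intro x
    have h2 := jl_mod_add_JL M (n + 1 + m) n s x 3
    rw [← pow_succ] at h2
    simp only [jl_mod, h2]

/-- Conditional means telescope. -/
theorem jl_L1 {M : ℕ} (_hM : 1 ≤ M) (k p : ℕ) (hp : p ≤ k) :
    ∑ s ∈ range (M * k + 1), ∑ b ∈ range (3 ^ k), |jl M k k s b - (1 / 3) ^ (k - p) * jl M k p s b| ≤
      ∑ n ∈ Ico p k, tt M k n := by
  have key : ∀ r, p ≤ r → r ≤ k →
      ∑ s ∈ range (M * k + 1), ∑ b ∈ range (3 ^ k),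
        |(1 / 3 : ℝ) ^ (k - r) * jl M k r s b - (1 / 3) ^ (k - p) * jl M k p s b| ≤
        ∑ n ∈ Ico p r, tt M k n := by
    intro r hpr
    induction r, hpr using Nat.le_induction with
    | base => intro _; simp
    | succ n hn ih =>
      intro hk
      rw [Finset.sum_Ico_succ_top hn]
      have h1 := ih (by omega)
      have h2 : ∑ s ∈ range (M * k + 1), ∑ b ∈ range (3 ^ k),
          |(1 / 3 : ℝ) ^ (k - (n + 1)) * jl M k (n + 1) s b -
            (1 / 3) ^ (k - n) * jl M k n s b| = tt M k n := by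
        unfold tt
        exact Finset.sum_congr rfl fun s _ => step_JL M k n hk s
      rw [← h2]
      refine le_trans ?_ (add_le_add h1 (le_refl (∑ s ∈ range (M * k + 1), ∑ b ∈ range (3 ^ k),
          |(1 / 3 : ℝ) ^ (k - (n + 1)) * jl M k (n + 1) s b -
            (1 / 3) ^ (k - n) * jl M k n s b|)))
      rw [← Finset.sum_add_distrib]
      refine Finset.sum_le_sum fun s _ => ?_
      rw [← Finset.sum_add_distrib]
      refine Finset.sum_le_sum fun b _ => ?_
      have h3 := abs_sub_le ((1 / 3 : ℝ) ^ (k - (n + 1)) * jl M k (n + 1) s b)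
        ((1 / 3) ^ (k - n) * jl M k n s b) ((1 / 3) ^ (k - p) * jl M k p s b)
      linarith
  have h := key k hp le_rfl
  simpa using h

end H62y
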