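import Pool.Agent.Lib.H62y.SkLastA
import Pool.Agent.Lib.H62y.SkCountD
import Pool.Agent.Lib.H62w.Mu

set_option autoImplicit false
open Finset
namespace H62y
open H62w

theorem om_pos (l : List ℕ) : 0 < om l := by unfold om; positivity

theorem om_append (l l' : List ℕ) : om (l ++ l') = om l * om l' := by
  unfold om
  rw [List.length_append, List.sum_append, pow_add, pow_add]
  field_simp

/-- Density bound for functions of the end point. -/
theorem dens_sum {N M t L y : ℕ} {C B D κ : ℝ} {G : Finset (List ℕ)} (h : Stage N M t L y C B D κ G)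
    {r : ℕ} (hr : 20 * r ≤ 3 * L) (f : ℕ → ℝ) (hf : ∀ b, 0 ≤ f b) (hmod : ∀ b, f b = f (b % 3 ^ r)) :
    ∑ l ∈ G, om l * f (en l y) ≤ D * (L : ℝ) ^ 3 / 3 ^ r * ∑ z ∈ range (3 ^ r), f z := by
  have hm : ∀ l ∈ G, en l y % 3 ^ r ∈ range (3 ^ r) := fun l _ => mem_range.2 (Nat.mod_lt _ (by positivity))
  rw [← sum_fiberwise_of_maps_to hm, mul_sum]
  refine sum_le_sum fun z hz => ?_
  have hz' : z % 3 ^ r = z := Nat.mod_eq_of_lt (mem_range.1 hz)
  have h1 : ∑ l ∈ G.filter (fun l => en l y % 3 ^ r = z), om l * f (en l y) =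
      (∑ l ∈ G.filter (fun l => en l y % 3 ^ r = z % 3 ^ r), om l) * f z := by
    rw [hz', sum_mul]
    refine sum_congr rfl fun l hl => ?_
    rw [hmod (en l y), (mem_filter.1 hl).2]
  rw [h1]
  exact mul_le_mul_of_nonneg_right (h.dens r z hr) (hf z)

theorem tt_le {M : ℕ} (hM : 1 ≤ M) {k n : ℕ} (h : n < k) : tt M k n ≤ tt M (n + 1) n := by
  obtain ⟨d, rfl⟩ : ∃ d, k = n + 1 + d := ⟨k - (n + 1), by omega⟩
  induction d with
  | zero => exact le_rfl
  | succ d ih =>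
    refine (tt_anti hM (n + 1 + d) n).trans (ih (by omega))

theorem jl_mod (M k n s y : ℕ) : jl M k n s y = jl M k n s (y % 3 ^ n) := by
  unfold jl
  congr 1
  ext l
  simp only [mem_filter]
  refine and_congr_right fun _ => and_congr_right fun _ => ?_
  have h : 2 ^ l.sum * y ≡ 2 ^ l.sum * (y % 3 ^ n) [MOD 3 ^ n] :=
    Nat.ModEq.mul_left _ (Nat.mod_modEq y _).symm
  exact ⟨fun h' => h.symm.trans h', fun h' => h.trans h'⟩

theorem jl_nonneg (M k n s y : ℕ) : 0 ≤ jl M k n s y := by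
  unfold jl
  exact sum_nonneg fun l _ => L_pw_nonneg M l

/-- The sum over all valid words with a condition on the sum, in terms of `jl`. -/
theorem sum_valid_jl (M k b : ℕ) (P : ℕ → Prop) [DecidablePred P] :
    ∑ l ∈ (words M k).filter (fun l => 2 ^ l.sum * b ≡ cc l [MOD 3 ^ k] ∧ P l.sum), pw M l =
      ∑ s ∈ (range (M * k + 1)).filter P, jl M k k s b := by
  have hm : ∀ l ∈ (words M k).filter (fun l => 2 ^ l.sum * b ≡ cc l [MOD 3 ^ k] ∧ P l.sum),
      l.sum ∈ (range (M * k + 1)).filter P := by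
    intro l hl
    rw [mem_filter, mem_words] at hl
    rw [mem_filter, mem_range]
    refine ⟨?_, hl.2.2⟩
    have := List.sum_le_card_nsmul l M (fun a ha => (hl.1.2 a ha).2)
    rw [hl.1.1, smul_eq_mul, mul_comm] at this
    omega
  rw [← sum_fiberwise_of_maps_to hm]
  refine sum_congr rfl fun s hs => ?_
  unfold jl
  refine sum_congr ?_ fun _ _ => rfl
  ext l
  simp only [mem_filter] at hs ⊢
  constructor
  · rintro ⟨⟨h1, h2, h3⟩, h4⟩
    exact ⟨h1, h4, h2⟩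
  · rintro ⟨h1, h4, h2⟩
    exact ⟨⟨h1, h2, by rw [h4]; exact hs.2⟩, h4⟩

/-- Error of the conditional mean. -/
noncomputable def Em (M k p b : ℕ) : ℝ :=
  3 ^ k * ∑ s ∈ range (M * k + 1), |jl M k k s b - (1 / 3) ^ (k - p) * jl M k p s b|

theorem Em_nonneg (M k p b : ℕ) : 0 ≤ Em M k p b := by
  unfold Em
  exact mul_nonneg (by positivity) (sum_nonneg fun _ _ => abs_nonneg _)

theorem Em_mod {M k p : ℕ} (hp : p ≤ k) (b : ℕ) : Em M k p b = Em M k p (b % 3 ^ k) := by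
  unfold Em
  congr 1
  refine sum_congr rfl fun s _ => ?_
  rw [jl_mod M k k s b, jl_mod M k p s b, jl_mod M k p s (b % 3 ^ k),
    Nat.mod_mod_of_dvd _ (pow_dvd_pow 3 hp)]

theorem cell_diff (M k p b : ℕ) (hp : p ≤ k) (P : ℕ → Prop) [DecidablePred P] :
    3 ^ p * ∑ s ∈ (range (M * k + 1)).filter P, jl M k p s b - Em M k p b ≤
      3 ^ k * ∑ s ∈ (range (M * k + 1)).filter P, jl M k k s b := by
  have h1 : (3 : ℝ) ^ p = 3 ^ k * (1 / 3) ^ (k - p) := by
    have : k = p + (k - p) := by omega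
    nth_rw 1 [this]
    rw [pow_add, mul_assoc, ← mul_pow]
    norm_num
  rw [h1, mul_assoc, Em, ← mul_sub]
  apply mul_le_mul_of_nonneg_left _ (by positivity)
  rw [mul_sum, sub_le_iff_le_add]
  have h2 : ∑ s ∈ (range (M * k + 1)).filter P, |jl M k k s b - (1 / 3) ^ (k - p) * jl M k p s b| ≤
      ∑ s ∈ range (M * k + 1), |jl M k k s b - (1 / 3) ^ (k - p) * jl M k p s b| :=
    sum_le_sum_of_subset_of_nonneg (filter_subset _ _) fun _ _ _ => abs_nonneg _
  have h3 : ∑ s ∈ (range (M * k + 1)).filter P, (1 / 3 : ℝ) ^ (k - p) * jl M k p s b ≤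
      ∑ s ∈ (range (M * k + 1)).filter P, jl M k k s b +
      ∑ s ∈ (range (M * k + 1)).filter P, |jl M k k s b - (1 / 3) ^ (k - p) * jl M k p s b| := by
    rw [← sum_add_distrib]
    refine sum_le_sum fun s _ => ?_
    have := neg_abs_le (jl M k k s b - (1 / 3) ^ (k - p) * jl M k p s b)
    linarith
  linarith

theorem Em_sum {N M t L y : ℕ} {C B D κ : ℝ} {G : Finset (List ℕ)} (h : Stage N M t L y C B D κ G)
    (hM : 1 ≤ M) (hD : 0 ≤ D) {k p : ℕ} (hp : p ≤ k) (hk : 20 * k ≤ 3 * L) :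
    ∑ l ∈ G, om l * Em M k p (en l y) ≤ D * (L : ℝ) ^ 3 * ∑ n ∈ Ico p k, tt M k n := by
  refine (dens_sum h hk (Em M k p) (Em_nonneg M k p) (Em_mod hp)).trans ?_
  have h1 : ∑ z ∈ range (3 ^ k), Em M k p z = 3 ^ k * ∑ s ∈ range (M * k + 1), ∑ b ∈ range (3 ^ k),
      |jl M k k s b - (1 / 3) ^ (k - p) * jl M k p s b| := by
    unfold Em
    rw [← mul_sum, sum_comm]
  rw [h1]
  have h2 := jl_L1 hM k p hp
  have h3 : (0 : ℝ) < 3 ^ k := by positivity
  have e : D * (L : ℝ) ^ 3 / 3 ^ k * (3 ^ k * ∑ s ∈ range (M * k + 1), ∑ b ∈ range (3 ^ k),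
      |jl M k k s b - (1 / 3) ^ (k - p) * jl M k p s b|) = D * (L : ℝ) ^ 3 * ∑ s ∈ range (M * k + 1),
      ∑ b ∈ range (3 ^ k), |jl M k k s b - (1 / 3) ^ (k - p) * jl M k p s b| := by
    field_simp
  rw [e]
  exact mul_le_mul_of_nonneg_left h2 (by positivity)

/-- Splitting off the first `p` letters. -/
theorem cell_split {M : ℕ} (hM : 1 ≤ M) (p m b : ℕ) (P : ℕ → Prop) [DecidablePred P] :
    ∑ s ∈ (range (M * (p + m) + 1)).filter P, jl M (p + m) p s b =
      ∑ u ∈ (words M p).filter (fun u => 2 ^ u.sum * b ≡ cc u [MOD 3 ^ p]),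
        pw M u * ∑ v ∈ (words M m).filter (fun v => P (u.sum + v.sum)), pw M v := by
  rw [sum_congr rfl fun s _ => jl_cond hM p m s b, sum_comm]
  refine sum_congr rfl fun u hu => ?_
  rw [← mul_sum]
  congr 1
  rw [mem_filter, mem_words] at hu
  have hus : u.sum ≤ M * p := by
    have := List.sum_le_card_nsmul u M (fun a ha => (hu.1.2 a ha).2)
    rw [hu.1.1, smul_eq_mul, mul_comm] at this
    exact this
  have hm : ∀ v ∈ (words M m).filter (fun v => P (u.sum + v.sum)),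
      u.sum + v.sum ∈ (range (M * (p + m) + 1)).filter P := by
    intro v hv
    rw [mem_filter, mem_words] at hv
    have := List.sum_le_card_nsmul v M (fun a ha => (hv.1.2 a ha).2)
    rw [hv.1.1, smul_eq_mul, mul_comm] at this
    rw [mem_filter, mem_range, mul_add]
    exact ⟨by omega, hv.2⟩
  rw [← sum_fiberwise_of_maps_to hm]
  refine sum_congr rfl fun s hs => ?_
  rw [mem_filter] at hs
  split_ifs with h
  · unfold PL
    refine sum_congr ?_ fun _ _ => rfl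
    ext v
    simp only [mem_filter]
    constructor
    · rintro ⟨h1, h2⟩
      have e : u.sum + v.sum = s := by omega
      exact ⟨⟨h1, by rw [e]; exact hs.2⟩, e⟩
    · rintro ⟨⟨h1, _⟩, h2⟩
      exact ⟨h1, by omega⟩
  · symm
    apply sum_eq_zero
    intro v hv
    rw [mem_filter] at hv
    omega

/-- Mass of a family of bad continuations. -/
theorem bad_mass {N M t L y : ℕ} {C B D κ : ℝ} {G : Finset (List ℕ)} (h : Stage N M t L y C B D κ G)
    {r : ℕ} (hr : 20 * r ≤ 3 * L) (Q : List ℕ → Prop) [DecidablePred Q] :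
    ∑ l ∈ G, om l * (3 ^ r * ∑ u ∈ (words M r).filter (fun u => 2 ^ u.sum * en l y ≡ cc u [MOD 3 ^ r] ∧ Q u),
      pw M u) ≤ D * (L : ℝ) ^ 3 * ∑ u ∈ (words M r).filter Q, pw M u := by
  refine (dens_sum h hr (fun b => 3 ^ r * ∑ u ∈ (words M r).filter
    (fun u => 2 ^ u.sum * b ≡ cc u [MOD 3 ^ r] ∧ Q u), pw M u) ?_ ?_).trans ?_
  · intro b
    exact mul_nonneg (by positivity) (sum_nonneg fun l _ => L_pw_nonneg M l)
  · intro b
    congr 1
    refine sum_congr ?_ fun _ _ => rfl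
    ext l
    simp only [mem_filter]
    refine and_congr_right fun _ => and_congr_left fun _ => ?_
    have h : 2 ^ l.sum * b ≡ 2 ^ l.sum * (b % 3 ^ r) [MOD 3 ^ r] :=
      Nat.ModEq.mul_left _ (Nat.mod_modEq b _).symm
    exact ⟨fun h' => h.symm.trans h', fun h' => h.trans h'⟩
  · have h1 : ∑ z ∈ range (3 ^ r), (3 : ℝ) ^ r * ∑ u ∈ (words M r).filter
        (fun u => 2 ^ u.sum * z ≡ cc u [MOD 3 ^ r] ∧ Q u), pw M u =
        3 ^ r * ∑ u ∈ (words M r).filter Q, pw M u := by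
      rw [← mul_sum]
      congr 1
      have h2 : ∀ z ∈ range (3 ^ r), ∑ u ∈ (words M r).filter
          (fun u => 2 ^ u.sum * z ≡ cc u [MOD 3 ^ r] ∧ Q u), pw M u =
          ∑ u ∈ (words M r).filter Q, if 2 ^ u.sum * z ≡ cc u [MOD 3 ^ r] then pw M u else 0 := by
        intro z _
        rw [← sum_filter, filter_filter]
        refine sum_congr ?_ fun _ _ => rfl
        ext l
        simp only [mem_filter]
        tauto
      rw [sum_congr rfl h2, sum_comm]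
      refine sum_congr rfl fun u _ => ?_
      obtain ⟨c, hc, hc'⟩ := exists_unique_class u r
      rw [← sum_filter]
      have h3 : (range (3 ^ r)).filter (fun z => 2 ^ u.sum * z ≡ cc u [MOD 3 ^ r]) = {c} := by
        ext z
        rw [mem_filter, mem_range, mem_singleton, hc']
        constructor
        · rintro ⟨h4, h5⟩
          rwa [Nat.mod_eq_of_lt h4] at h5
        · rintro rfl
          exact ⟨hc, Nat.mod_eq_of_lt hc⟩
      rw [h3, sum_singleton]
    rw [h1]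
    have h3 : (0 : ℝ) < 3 ^ r := by positivity
    apply le_of_eq
    field_simp

theorem ev_exp (A : ℕ) {c : ℝ} (K : ℝ) {ε : ℝ} (hc : 0 < c) (hε : 0 < ε) :
    ∀ᶠ L : ℕ in Filter.atTop, K * (L : ℝ) ^ A * Real.exp (-(c * L)) ≤ ε := by
  have h1 := Real.tendsto_pow_mul_exp_neg_atTop_nhds_zero A
  have h2 : Filter.Tendsto (fun L : ℕ => c * (L : ℝ)) Filter.atTop Filter.atTop :=
    Filter.Tendsto.const_mul_atTop hc tendsto_natCast_atTop_atTop
  have h3 := h1.comp h2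
  have h4 : Filter.Tendsto (fun L : ℕ => K / c ^ A * ((c * (L : ℝ)) ^ A * Real.exp (-(c * L)))) Filter.atTop
      (nhds (K / c ^ A * 0)) := h3.const_mul _
  rw [mul_zero] at h4
  have h5 := h4.eventually (gt_mem_nhds hε)
  filter_upwards [h5] with L hL
  have hcA : (0 : ℝ) < c ^ A := by positivity
  have e : K * (L : ℝ) ^ A * Real.exp (-(c * L)) = K / c ^ A * ((c * (L : ℝ)) ^ A * Real.exp (-(c * L))) := by
    rw [mul_pow]; field_simp
  rw [e]
  exact hL.le

theorem ev_inv (K : ℝ) {ε : ℝ} (hε : 0 < ε) :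
    ∀ᶠ L : ℕ in Filter.atTop, K ≤ ε * (L : ℝ) := by
  have h2 : Filter.Tendsto (fun L : ℕ => ε * (L : ℝ)) Filter.atTop Filter.atTop :=
    Filter.Tendsto.const_mul_atTop hε tendsto_natCast_atTop_atTop
  exact h2.eventually_ge_atTop K

theorem om_eq {M : ℕ} {l : List ℕ} (h : ∀ a ∈ l, a < M) : om l = 3 ^ l.length * pw M l := by
  have h1 : pw M l = (1 / 2 : ℝ) ^ l.sum := by
    induction l with
    | nil => simp [pw]
    | cons a l ih =>
      have ha := h a List.mem_cons_self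
      have ih' := ih fun b hb => h b (List.mem_cons_of_mem _ hb)
      have : pw M (a :: l) = pa M a * pw M l := by simp [pw]
      rw [this, ih', List.sum_cons, pow_add]
      unfold pa
      rw [if_pos ha]
  rw [h1, om, one_div, inv_pow]
  rfl

theorem log3_gt : (1098572 : ℝ) / 1000000 < Real.log 3 := by
  have h : (84 : ℝ) * Real.log 2 < 53 * Real.log 3 := by
    have h1 : (2 : ℝ) ^ 84 < 3 ^ 53 := by norm_num
    have h2 := Real.log_lt_log (by positivity) h1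
    rw [Real.log_pow, Real.log_pow] at h2
    exact_mod_cast h2
  have := Real.log_two_gt_d9
  linarith

theorem log3_lt : Real.log 3 < (1098893 : ℝ) / 1000000 := by
  have h : (41 : ℝ) * Real.log 3 < 65 * Real.log 2 := by
    have h1 : (3 : ℝ) ^ 41 < 2 ^ 65 := by norm_num
    have h2 := Real.log_lt_log (by positivity) h1
    rw [Real.log_pow, Real.log_pow] at h2
    exact_mod_cast h2
  have := Real.log_two_lt_d9
  linarith

theorem log43 : Real.log (4 / 3) = 2 * Real.log 2 - Real.log 3 := by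
  rw [Real.log_div (by norm_num) (by norm_num), show (4 : ℝ) = 2 ^ 2 by norm_num, Real.log_pow]
  push_cast
  ring

/-- Range of the starting size of the last walk. -/
theorem v_range {N L t T0 σ μ : ℕ} (hN : 100 ≤ N) {C Θ : ℝ} (ht : t ≤ T0)
    (hσ : |(σ : ℝ) - 2 * L| ≤ (L : ℝ) / N + C) (hμ : |(μ : ℝ) - 2 * (L / N : ℕ)| ≤ ((L / N : ℕ) : ℝ) / 10)
    (h1 : Real.log (4 / 3) * L + 11 / 10 * L / N ≤ Real.log Θ)
    (h2 : Real.log Θ ≤ Real.log (4 / 3) * L + 19 / 10 * L / N) (hΘ : 0 < Θ)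
    (hL : |C| + 2 * T0 + 3 ≤ 4 / 100 * ((L : ℝ) / N)) :
    0 < (2 : ℝ) ^ (σ + μ) / 3 ^ (t + L + L / N) ∧ (2 : ℝ) ^ (σ + μ) / 3 ^ (t + L + L / N) ≤ Θ ∧
      Real.log (Θ / ((2 : ℝ) ^ (σ + μ) / 3 ^ (t + L + L / N))) ≤ ((10 * (L / N) : ℕ) : ℝ) / 4 := by
  have hN0 : (0 : ℝ) < N := by
    have : 0 < N := by omega
    exact_mod_cast this
  have hv : 0 < (2 : ℝ) ^ (σ + μ) / 3 ^ (t + L + L / N) := by positivity
  set p : ℕ := L / N with hp
  have hp1 : (p : ℝ) ≤ (L : ℝ) / N := Nat.cast_div_le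
  have hp2 : (L : ℝ) / N - 1 ≤ p := by
    rw [sub_le_iff_le_add, div_le_iff₀ hN0]
    have h3 : L < (p + 1) * N := by
      rw [hp]
      have := Nat.lt_mul_div_succ L (show 0 < N by omega)
      rw [mul_comm]
      exact this
    have h4 : (L : ℝ) < ((p + 1 : ℕ) : ℝ) * N := by exact_mod_cast h3
    push_cast at h4
    exact h4.le
  have hlv : Real.log ((2 : ℝ) ^ (σ + μ) / 3 ^ (t + L + p)) =
      (σ + μ) * Real.log 2 - (t + L + p) * Real.log 3 := by
    rw [Real.log_div (by positivity) (by positivity), Real.log_pow, Real.log_pow]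
    push_cast
    ring
  have hp0 : (0 : ℝ) ≤ p := Nat.cast_nonneg p
  have ht' : (t : ℝ) ≤ T0 := by exact_mod_cast ht
  have ht0 : (0 : ℝ) ≤ t := Nat.cast_nonneg t
  have hT0 : (0 : ℝ) ≤ T0 := Nat.cast_nonneg T0
  have hL0 : (0 : ℝ) ≤ L := Nat.cast_nonneg L
  obtain ⟨s1, s2⟩ := abs_le.1 hσ
  obtain ⟨u1, u2⟩ := abs_le.1 hμ
  have x1 := Real.log_two_gt_d9
  have x2 := Real.log_two_lt_d9
  have y1 := log3_gt
  have y2 := log3_lt
  rw [log43] at h1 h2
  have hC1 := le_abs_self C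
  have hC0 := abs_nonneg C
  set X := Real.log 2
  set Y := Real.log 3
  set q : ℝ := (L : ℝ) / N with hq
  have e1 : 11 / 10 * (L : ℝ) / N = 11 / 10 * q := by rw [hq]; ring
  have e2 : 19 / 10 * (L : ℝ) / N = 19 / 10 * q := by rw [hq]; ring
  rw [e1] at h1
  rw [e2] at h2
  have hq0 : 0 ≤ q := by positivity
  have hup : (σ + μ) * X - (t + L + p) * Y ≤ (2 * X - Y) * L + 11 / 10 * q := by
    have a1 : (σ + μ) * X ≤ (2 * L + q + |C| + 21 / 10 * p) * X := by
      apply mul_le_mul_of_nonneg_right _ (by linarith)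
      linarith
    have a2 : p * (21 / 10 * X - Y) ≤ q * (21 / 10 * X - Y) := mul_le_mul_of_nonneg_right hp1 (by linarith)
    have a3 : |C| * X ≤ |C| := mul_le_of_le_one_right hC0 (by linarith)
    have a4 : q * (4 / 100) ≤ q * (11 / 10 - 31 / 10 * X + Y) := mul_le_mul_of_nonneg_left (by linarith) hq0
    have a5 : 0 ≤ (t : ℝ) * Y := mul_nonneg ht0 (by linarith)
    linarith
  have hlo : (2 * X - Y) * L - q * X - |C| - 2 * T0 + p * (19 / 10 * X - Y) ≤ (σ + μ) * X - (t + L + p) * Y := by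
    have a1 : (2 * L - q - |C| + 19 / 10 * p) * X ≤ (σ + μ) * X := by
      apply mul_le_mul_of_nonneg_right _ (by linarith)
      linarith
    have a3 : |C| * X ≤ |C| := mul_le_of_le_one_right hC0 (by linarith)
    have a5 : (t : ℝ) * Y ≤ t * 2 := mul_le_mul_of_nonneg_left (by linarith) ht0
    linarith
  refine ⟨hv, ?_, ?_⟩
  · rw [← Real.log_le_log_iff hv hΘ, hlv]
    linarith
  · rw [Real.log_div hΘ.ne' hv.ne', hlv]
    push_cast
    have a1 : 218 / 1000 * (p : ℝ) ≤ p * (19 / 10 * X - Y) := by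
      rw [mul_comm]
      apply mul_le_mul_of_nonneg_left _ hp0
      linarith
    have a2 : q * X ≤ q * (69315 / 100000) := mul_le_mul_of_nonneg_left (by linarith) hq0
    linarith

/-- The final words have the right proportion. -/
theorem good_ratio {N L t T0 S k : ℕ} (hN : 100 ≤ N) {Θ : ℝ} (ht : t ≤ T0) (hΘ : 0 < Θ)
    (hk : (k : ℝ) ≤ 11 * ((L : ℝ) / N))
    (h1 : Real.log (4 / 3) * L + 11 / 10 * L / N ≤ Real.log Θ)
    (h2 : Real.log Θ ≤ Real.log (4 / 3) * L + 19 / 10 * L / N)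
    (h3 : Θ * 3 ^ (t + L + k) < (2 : ℝ) ^ S) (h4 : (2 : ℝ) ^ S ≤ 2 * Θ * 3 ^ (t + L + k)) :
    |(S : ℝ) - 2 * (t + L + k : ℕ)| ≤ 5 / N * ((t + L + k : ℕ) : ℝ) + (T0 + 1) := by
  have hN0 : (0 : ℝ) < N := by
    have : 0 < N := by omega
    exact_mod_cast this
  have g3 := Real.log_lt_log (by positivity) h3
  have g4 := Real.log_le_log (by positivity) h4
  rw [Real.log_mul hΘ.ne' (by positivity), Real.log_pow, Real.log_pow] at g3
  rw [Real.log_mul (by positivity) (by positivity), Real.log_mul (by norm_num) hΘ.ne', Real.log_pow,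
    Real.log_pow] at g4
  have ht' : (t : ℝ) ≤ T0 := by exact_mod_cast ht
  have ht0 : (0 : ℝ) ≤ t := Nat.cast_nonneg t
  have hk0 : (0 : ℝ) ≤ k := Nat.cast_nonneg k
  have hL0 : (0 : ℝ) ≤ L := Nat.cast_nonneg L
  have x1 := Real.log_two_gt_d9
  have x2 := Real.log_two_lt_d9
  have y1 := log3_gt
  have y2 := log3_lt
  rw [log43] at h1 h2
  push_cast at g3 g4 ⊢
  set X := Real.log 2
  set Y := Real.log 3
  set q : ℝ := (L : ℝ) / N with hq
  have e1 : 11 / 10 * (L : ℝ) / N = 11 / 10 * q := by rw [hq]; ring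
  have e2 : 19 / 10 * (L : ℝ) / N = 19 / 10 * q := by rw [hq]; ring
  rw [e1] at h1
  rw [e2] at h2
  have hq0 : 0 ≤ q := by positivity
  have e3 : 5 / (N : ℝ) * (t + L + k) = 5 * q + 5 / N * (t + k) := by rw [hq]; ring
  have h5 : 0 ≤ 5 / (N : ℝ) * (t + k) := by positivity
  rw [e3]
  have b0 : 0 ≤ 2 * X - Y := by linarith
  have b1 : (t : ℝ) * (2 * X - Y) ≤ T0 * (288 / 1000) := by
    have c1 : (t : ℝ) * (2 * X - Y) ≤ T0 * (2 * X - Y) := mul_le_mul_of_nonneg_right ht' b0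
    have c2 : (T0 : ℝ) * (2 * X - Y) ≤ T0 * (288 / 1000) :=
      mul_le_mul_of_nonneg_left (by linarith) (ht0.trans ht')
    linarith
  have b2 : (k : ℝ) * (2 * X - Y) ≤ 11 * q * (2878 / 10000) := by
    have c1 : (k : ℝ) * (2 * X - Y) ≤ 11 * q * (2 * X - Y) := mul_le_mul_of_nonneg_right hk b0
    have c2 : 11 * q * (2 * X - Y) ≤ 11 * q * (2878 / 10000) :=
      mul_le_mul_of_nonneg_left (by linarith) (by positivity)
    linarith
  have b3 : 0 ≤ (t : ℝ) * (2 * X - Y) := mul_nonneg ht0 b0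
  have b4 : 0 ≤ (k : ℝ) * (2 * X - Y) := mul_nonneg hk0 b0
  have k1 : ((S : ℝ) - 2 * (t + L + k)) * X ≤ (19 / 10) * q + X := by linarith
  have k2 : -(2066 / 1000 * q + 288 / 1000 * T0) ≤ ((S : ℝ) - 2 * (t + L + k)) * X := by linarith
  have k3 : q * (69314 / 100000) ≤ q * X := mul_le_mul_of_nonneg_left (by linarith) hq0
  have k4 : (T0 : ℝ) * (69314 / 100000) ≤ T0 * X := mul_le_mul_of_nonneg_left (by linarith) (ht0.trans ht')
  have hT0 : (0 : ℝ) ≤ T0 := ht0.trans ht'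
  rw [abs_le]
  constructor
  · by_contra hcon
    rw [not_le] at hcon
    have : ((S : ℝ) - 2 * (t + L + k)) * X < -(5 * q + (T0 + 1)) * X := by
      apply mul_lt_mul_of_pos_right _ (by linarith)
      linarith
    linarith
  · by_contra hcon
    rw [not_le] at hcon
    have : (5 * q + (T0 + 1)) * X < ((S : ℝ) - 2 * (t + L + k)) * X := by
      apply mul_lt_mul_of_pos_right _ (by linarith)
      linarith
    linarith

/-- The cell condition. -/
def cellP (Θ : ℝ) (n σ s : ℕ) : Prop :=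
  Θ * 3 ^ n < (2 : ℝ) ^ (σ + s) ∧ (2 : ℝ) ^ (σ + s) ≤ 2 * Θ * 3 ^ n

open Classical in
/-- Main term: mass of all continuations in the cells. -/
theorem main_term {N M t T0 L y : ℕ} {C B D κ Θ : ℝ} {G : Finset (List ℕ)} (h : Stage N M t L y C B D κ G)
    (hN : 100 ≤ N) (hD : 0 ≤ D) (ht : t ≤ T0) (hM : 1 ≤ M)
    (hfp : ∀ v Θ : ℝ, 0 < v → v ≤ Θ → Real.log (Θ / v) ≤ ((10 * (L / N) : ℕ) : ℝ) / 4 →
      2 / 5 ≤ ∑ m ∈ range (10 * (L / N) + 1), ∑ l ∈ (words M m).filter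
        (fun l => Θ * 3 ^ m < v * 2 ^ l.sum ∧ v * 2 ^ l.sum ≤ 2 * Θ * 3 ^ m), pw M l)
    (hΘ : 0 < Θ) (h1 : Real.log (4 / 3) * L + 11 / 10 * L / N ≤ Real.log Θ)
    (h2 : Real.log Θ ≤ Real.log (4 / 3) * L + 19 / 10 * L / N)
    (hL : |C| + 2 * T0 + 3 ≤ 4 / 100 * ((L : ℝ) / N)) :
    2 / 5 * (κ - D * (L : ℝ) ^ 3 * ∑ u ∈ (words M (L / N)).filter
        (fun u => ¬ (|(u.sum : ℝ) - 2 * (L / N : ℕ)| ≤ ((L / N : ℕ) : ℝ) / 10)), pw M u) -
      ∑ m ∈ range (10 * (L / N) + 1), D * (L : ℝ) ^ 3 * ∑ n ∈ Ico (L / N) (L / N + m), tt M (L / N + m) n ≤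
    ∑ l ∈ G, om l * ∑ m ∈ range (10 * (L / N) + 1), 3 ^ (L / N + m) *
      ∑ l' ∈ (words M (L / N + m)).filter (fun l' => 2 ^ l'.sum * en l y ≡ cc l' [MOD 3 ^ (L / N + m)] ∧
        cellP Θ (t + L + (L / N + m)) l.sum l'.sum), pw M l' := by
  set p : ℕ := L / N with hp
  have hpL : p * 100 ≤ L := by
    rw [hp]
    calc L / N * 100 ≤ L / N * N := Nat.mul_le_mul_left _ hN
      _ ≤ L := Nat.div_mul_le_self L N
  -- error terms
  have herr : ∑ l ∈ G, om l * ∑ m ∈ range (10 * p + 1), Em M (p + m) p (en l y) ≤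
      ∑ m ∈ range (10 * p + 1), D * (L : ℝ) ^ 3 * ∑ n ∈ Ico p (p + m), tt M (p + m) n := by
    have e0 : ∑ l ∈ G, om l * ∑ m ∈ range (10 * p + 1), Em M (p + m) p (en l y) =
        ∑ m ∈ range (10 * p + 1), ∑ l ∈ G, om l * Em M (p + m) p (en l y) := by
      rw [sum_comm]
      exact sum_congr rfl fun l _ => mul_sum _ _ _
    rw [e0]
    refine sum_le_sum fun m hm => ?_
    rw [mem_range] at hm
    exact Em_sum h hM hD (by omega) (by omega)
  -- pointwise in l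
  have hpt : ∀ l ∈ G, 2 / 5 * (3 ^ p * mu M p (en l y)) - 2 / 5 * (3 ^ p * ∑ u ∈ (words M p).filter
        (fun u => 2 ^ u.sum * en l y ≡ cc u [MOD 3 ^ p] ∧
          ¬ (|(u.sum : ℝ) - 2 * (p : ℕ)| ≤ ((p : ℕ) : ℝ) / 10)), pw M u) -
      ∑ m ∈ range (10 * p + 1), Em M (p + m) p (en l y) ≤
      ∑ m ∈ range (10 * p + 1), 3 ^ (p + m) *
      ∑ l' ∈ (words M (p + m)).filter (fun l' => 2 ^ l'.sum * en l y ≡ cc l' [MOD 3 ^ (p + m)] ∧
        cellP Θ (t + L + (p + m)) l.sum l'.sum), pw M l' := by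
    intro l hl
    have a1 : ∀ m ∈ range (10 * p + 1), 3 ^ p * ∑ u ∈ (words M p).filter
          (fun u => 2 ^ u.sum * en l y ≡ cc u [MOD 3 ^ p]), pw M u *
          ∑ v ∈ (words M m).filter (fun v => cellP Θ (t + L + (p + m)) l.sum (u.sum + v.sum)), pw M v -
        Em M (p + m) p (en l y) ≤ 3 ^ (p + m) *
        ∑ l' ∈ (words M (p + m)).filter (fun l' => 2 ^ l'.sum * en l y ≡ cc l' [MOD 3 ^ (p + m)] ∧
        cellP Θ (t + L + (p + m)) l.sum l'.sum), pw M l' := by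
      intro m _
      rw [sum_valid_jl M (p + m) (en l y) (cellP Θ (t + L + (p + m)) l.sum)]
      have := cell_diff M (p + m) p (en l y) (by omega) (cellP Θ (t + L + (p + m)) l.sum)
      rw [cell_split hM] at this
      exact this
    refine le_trans ?_ (sum_le_sum a1)
    rw [sum_sub_distrib]
    refine sub_le_sub ?_ (le_refl (∑ m ∈ range (10 * p + 1), Em M (p + m) p (en l y)))
    rw [← mul_sum, sum_comm]
    have a2 : 2 / 5 * (3 ^ p * mu M p (en l y)) - 2 / 5 * (3 ^ p * ∑ u ∈ (words M p).filter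
        (fun u => 2 ^ u.sum * en l y ≡ cc u [MOD 3 ^ p] ∧
          ¬ (|(u.sum : ℝ) - 2 * (p : ℕ)| ≤ ((p : ℕ) : ℝ) / 10)), pw M u) =
        3 ^ p * ∑ u ∈ ((words M p).filter (fun u => 2 ^ u.sum * en l y ≡ cc u [MOD 3 ^ p])).filter
          (fun u => |(u.sum : ℝ) - 2 * (p : ℕ)| ≤ ((p : ℕ) : ℝ) / 10), pw M u * (2 / 5) := by
      unfold mu
      rw [← sum_filter_add_sum_filter_not ((words M p).filter (fun u => 2 ^ u.sum * en l y ≡ cc u [MOD 3 ^ p]))
        (fun u => |(u.sum : ℝ) - 2 * (p : ℕ)| ≤ ((p : ℕ) : ℝ) / 10) (fun u => pw M u), ← sum_mul]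
      rw [filter_filter, filter_filter]
      ring
    rw [a2]
    apply mul_le_mul_of_nonneg_left _ (by positivity)
    refine le_trans (sum_le_sum (g := fun u => ∑ m ∈ range (10 * p + 1), pw M u *
          ∑ v ∈ (words M m).filter (fun v => cellP Θ (t + L + (p + m)) l.sum (u.sum + v.sum)), pw M v) ?_) ?_
    · intro u hu
      rw [mem_filter, mem_filter] at hu
      rw [← mul_sum]
      apply mul_le_mul_of_nonneg_left _ (L_pw_nonneg M u)
      obtain ⟨v1, v2, v3⟩ := v_range (T0 := T0) hN ht (h.sums l hl) hu.2 h1 h2 hΘ hL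
      refine (hfp _ Θ v1 v2 v3).trans (le_of_eq ?_)
      refine sum_congr rfl fun m _ => sum_congr ?_ fun _ _ => rfl
      ext v
      simp only [mem_filter]
      refine and_congr_right fun _ => ?_
      unfold cellP
      have e1 : (2 : ℝ) ^ (l.sum + (u.sum + v.sum)) = 2 ^ (l.sum + u.sum) * 2 ^ v.sum := by
        rw [← pow_add]; congr 1; ring
      have e2 : (3 : ℝ) ^ (t + L + (p + m)) = 3 ^ (t + L + p) * 3 ^ m := by
        rw [← pow_add]; congr 1; ring
      have e3 : (0 : ℝ) < 3 ^ (t + L + p) := by positivity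
      rw [e1, e2, div_mul_eq_mul_div, lt_div_iff₀ e3, div_le_iff₀ e3]
      constructor
      · rintro ⟨b1, b2⟩
        exact ⟨by linarith, by linarith⟩
      · rintro ⟨b1, b2⟩
        exact ⟨by linarith, by linarith⟩
    · apply sum_le_sum_of_subset_of_nonneg (filter_subset _ _)
      intro u _ _
      exact sum_nonneg fun m _ => mul_nonneg (L_pw_nonneg M u) (sum_nonneg fun v _ => L_pw_nonneg M v)
  have hsum : ∑ l ∈ G, om l * (2 / 5 * (3 ^ p * mu M p (en l y)) - 2 / 5 * (3 ^ p * ∑ u ∈ (words M p).filter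
        (fun u => 2 ^ u.sum * en l y ≡ cc u [MOD 3 ^ p] ∧
          ¬ (|(u.sum : ℝ) - 2 * (p : ℕ)| ≤ ((p : ℕ) : ℝ) / 10)), pw M u) -
      ∑ m ∈ range (10 * p + 1), Em M (p + m) p (en l y)) ≤ _ :=
    sum_le_sum fun l hl => mul_le_mul_of_nonneg_left (hpt l hl) (om_pos l).le
  refine le_trans ?_ hsum
  have hbad := bad_mass h (r := p) (by omega)
    (fun u => ¬ (|(u.sum : ℝ) - 2 * (p : ℕ)| ≤ ((p : ℕ) : ℝ) / 10))
  have hphi := h.phi
  rw [← hp] at hphi
  have e : ∑ l ∈ G, om l * (2 / 5 * (3 ^ p * mu M p (en l y)) - 2 / 5 * (3 ^ p * ∑ u ∈ (words M p).filter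
        (fun u => 2 ^ u.sum * en l y ≡ cc u [MOD 3 ^ p] ∧
          ¬ (|(u.sum : ℝ) - 2 * (p : ℕ)| ≤ ((p : ℕ) : ℝ) / 10)), pw M u) -
      ∑ m ∈ range (10 * p + 1), Em M (p + m) p (en l y)) =
      2 / 5 * ∑ l ∈ G, om l * (3 ^ p * mu M p (en l y)) -
      2 / 5 * ∑ l ∈ G, om l * (3 ^ p * ∑ u ∈ (words M p).filter
        (fun u => 2 ^ u.sum * en l y ≡ cc u [MOD 3 ^ p] ∧
          ¬ (|(u.sum : ℝ) - 2 * (p : ℕ)| ≤ ((p : ℕ) : ℝ) / 10)), pw M u) -
      ∑ l ∈ G, om l * ∑ m ∈ range (10 * p + 1), Em M (p + m) p (en l y) := by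
    rw [mul_sum, mul_sum, ← sum_sub_distrib, ← sum_sub_distrib]
    refine sum_congr rfl fun l _ => ?_
    ring
  rw [e]
  linarith

open Classical in
/-- The family of continuations as a finite set of words. -/
theorem mass_image {M n0 p m2 : ℕ} {G : Finset (List ℕ)} (hlen : ∀ l ∈ G, l.length = n0)
    (Q : List ℕ → ℕ → List ℕ → Prop) (hlet : ∀ l m l', Q l m l' → ∀ a ∈ l', a < M) :
    ∃ G' : Finset (List ℕ), (∀ x ∈ G', ∃ l ∈ G, ∃ m ≤ m2, ∃ l' ∈ words M (p + m), Q l m l' ∧ x = l ++ l') ∧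
      ∑ x ∈ G', (3 : ℝ) ^ x.length / (2 : ℝ) ^ x.sum = ∑ l ∈ G, om l * ∑ m ∈ range (m2 + 1), 3 ^ (p + m) *
        ∑ l' ∈ (words M (p + m)).filter (Q l m), pw M l' := by
  set S : Finset (Σ _ : List ℕ, Σ _ : ℕ, List ℕ) := G.sigma fun l => (range (m2 + 1)).sigma fun m =>
    (words M (p + m)).filter (Q l m) with hS
  set f : (Σ _ : List ℕ, Σ _ : ℕ, List ℕ) → List ℕ := fun x => x.1 ++ x.2.2 with hf
  have hinj : Set.InjOn f S := by
    rintro ⟨l, m, l'⟩ h ⟨l2, m2', l2'⟩ h2 he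
    simp only [hS, coe_sigma, Set.mem_sigma_iff, mem_coe, mem_filter, mem_range] at h h2
    obtain ⟨h1, h3, h4, h5⟩ := h
    obtain ⟨g1, g3, g4, g5⟩ := h2
    have e1 : l.length = l2.length := by rw [hlen l h1, hlen l2 g1]
    obtain ⟨e2, e3⟩ := List.append_inj he e1
    have e4 : l' = l2' := e3
    have e5 : l = l2 := e2
    subst e4 e5
    have e6 := (mem_words.1 h4).1
    have e7 := (mem_words.1 g4).1
    have e8 : m = m2' := by omega
    subst e8
    rfl
  refine ⟨S.image f, ?_, ?_⟩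
  · intro x hx
    obtain ⟨⟨l, m, l'⟩, h, rfl⟩ := mem_image.1 hx
    simp only [hS, mem_sigma, mem_filter, mem_range] at h
    exact ⟨l, h.1, m, by omega, l', h.2.2.1, h.2.2.2, rfl⟩
  · rw [sum_image hinj, hS, sum_sigma]
    refine sum_congr rfl fun l _ => ?_
    rw [sum_sigma, mul_sum]
    refine sum_congr rfl fun m _ => ?_
    rw [← mul_assoc, mul_sum]
    refine sum_congr rfl fun l' hl' => ?_
    rw [mem_filter] at hl'
    have e1 := om_eq (hlet l m l' hl'.2)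
    rw [(mem_words.1 hl'.1).1] at e1
    show (3 : ℝ) ^ (l ++ l').length / (2 : ℝ) ^ (l ++ l').sum = _
    have e2 : (3 : ℝ) ^ (l ++ l').length / (2 : ℝ) ^ (l ++ l').sum = om (l ++ l') := rfl
    rw [e2, om_append, e1]
    ring

/-- Bad final segments. -/
theorem fin_bad {K2 : ℝ} (hK2 : 0 < K2) (hcc : ∀ M k : ℕ, 5 ≤ M → ∀ R : ℝ, 1 ≤ R →
    ∑ u ∈ (words M k).filter (fun u => R * 2 ^ u.sum < (cc u : ℝ)), pw M u ≤ K2 / Real.sqrt R)
    {L M k : ℕ} (hk : k ≤ L) (hM : 2 * L ≤ M) (hM5 : 5 ≤ M) (hL : 1 ≤ L) :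
    ∑ u ∈ (words M k).filter (fun u => ¬ ((∀ a ∈ u, a < M) ∧ (cc u : ℝ) ≤ 4 ^ (L / 16) * 2 ^ u.sum)), pw M u ≤
      2 * L * Real.exp (-(1 * L)) + 2 * K2 * Real.exp (-(1 / 25 * L)) := by
  have h1 : ∑ u ∈ (words M k).filter (fun u => ¬ ((∀ a ∈ u, a < M) ∧ (cc u : ℝ) ≤ 4 ^ (L / 16) * 2 ^ u.sum)), pw M u ≤
      ∑ u ∈ (words M k).filter (fun u => ¬ ∀ a ∈ u, a < M), pw M u +
      ∑ u ∈ (words M k).filter (fun u => (4 : ℝ) ^ (L / 16) * 2 ^ u.sum < (cc u : ℝ)), pw M u := by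
    rw [← sum_union_inter]
    refine le_trans (sum_le_sum_of_subset_of_nonneg ?_ fun _ _ _ => L_pw_nonneg M _)
      (le_add_of_nonneg_right (sum_nonneg fun _ _ => L_pw_nonneg M _))
    intro u hu
    rw [mem_filter] at hu
    rw [mem_union, mem_filter, mem_filter]
    by_cases h : ∀ a ∈ u, a < M
    · right
      refine ⟨hu.1, ?_⟩
      by_contra h2
      exact hu.2 ⟨h, not_lt.1 h2⟩
    · left
      exact ⟨hu.1, h⟩
  have h2 := bad_letter M k (by omega)
  have h3 := hcc M k hM5 (4 ^ (L / 16)) (one_le_pow₀ (by norm_num))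
  have h4 : Real.sqrt ((4 : ℝ) ^ (L / 16)) = 2 ^ (L / 16) := by
    have : (4 : ℝ) ^ (L / 16) = (2 ^ (L / 16)) ^ 2 := by
      rw [← pow_mul, mul_comm, pow_mul]; norm_num
    rw [this, Real.sqrt_sq (by positivity)]
  rw [h4] at h3
  have hL0 : (0 : ℝ) ≤ L := Nat.cast_nonneg L
  have x1 := Real.log_two_gt_d9
  have h5 : (k : ℝ) * (1 / 2) ^ (M - 1) ≤ 2 * L * Real.exp (-(1 * L)) := by
    have a1 : (1 / 2 : ℝ) ^ (M - 1) ≤ 2 * Real.exp (-(1 * L)) := by
      have b1 : (1 / 2 : ℝ) ^ (M - 1) ≤ (1 / 2) ^ (2 * L - 1) :=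
        pow_le_pow_of_le_one (by norm_num) (by norm_num) (by omega)
      have b2 : (1 / 2 : ℝ) ^ (2 * L - 1) = 2 * (1 / 4) ^ L := by
        have : (1 / 4 : ℝ) ^ L = (1 / 2) ^ (2 * L - 1 + 1) := by
          rw [show 2 * L - 1 + 1 = 2 * L by omega, pow_mul]; norm_num
        rw [this, pow_succ]; ring
      have b3 : (1 / 4 : ℝ) ^ L ≤ Real.exp (-(1 * L)) := by
        have c1 : (1 / 4 : ℝ) ≤ Real.exp (-1) := by
          have d1 : Real.exp 1 ≤ 4 := by
            have := Real.exp_one_lt_d9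
            linarith
          rw [Real.exp_neg, one_div]
          exact inv_anti₀ (Real.exp_pos 1) d1
        calc (1 / 4 : ℝ) ^ L ≤ (Real.exp (-1)) ^ L := pow_le_pow_left₀ (by norm_num) c1 L
          _ = Real.exp (-(1 * L)) := by rw [← Real.exp_nat_mul]; congr 1; ring
      linarith
    have a2 : (k : ℝ) ≤ L := by exact_mod_cast hk
    calc (k : ℝ) * (1 / 2) ^ (M - 1) ≤ L * (2 * Real.exp (-(1 * L))) :=
          mul_le_mul a2 a1 (by positivity) hL0
      _ = 2 * L * Real.exp (-(1 * L)) := by ring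
  have h6 : K2 / 2 ^ (L / 16) ≤ 2 * K2 * Real.exp (-(1 / 25 * L)) := by
    rw [div_le_iff₀ (by positivity)]
    have a1 : (1 : ℝ) ≤ 2 * Real.exp (-(1 / 25 * L)) * 2 ^ (L / 16) := by
      have b1 : (2 : ℝ) ^ (L / 16) = Real.exp (Real.log 2 * (L / 16 : ℕ)) := by
        rw [mul_comm, Real.exp_nat_mul, Real.exp_log (by norm_num)]
      have b2 : (2 : ℝ) = Real.exp (Real.log 2) := (Real.exp_log (by norm_num)).symm
      have b3 : (2 : ℝ) * Real.exp (-(1 / 25 * L)) * 2 ^ (L / 16) =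
          Real.exp (Real.log 2 + -(1 / 25 * L) + Real.log 2 * (L / 16 : ℕ)) := by
        rw [Real.exp_add, Real.exp_add, ← b2, ← b1]
      rw [b3]
      apply Real.one_le_exp
      have b4 : (L : ℝ) / 16 - 1 ≤ (L / 16 : ℕ) := by
        have c1 : L < 16 * (L / 16 + 1) := Nat.lt_mul_div_succ L (by norm_num)
        have c2 : (L : ℝ) < 16 * ((L / 16 : ℕ) + 1) := by exact_mod_cast c1
        linarith
      have b5 : Real.log 2 * ((L : ℝ) / 16 - 1) ≤ Real.log 2 * (L / 16 : ℕ) :=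
        mul_le_mul_of_nonneg_left b4 (by linarith)
      have b6 : (6931 / 10000 : ℝ) * L ≤ Real.log 2 * L := mul_le_mul_of_nonneg_right (by linarith) hL0
      linarith
    calc K2 ≤ K2 * (2 * Real.exp (-(1 / 25 * L)) * 2 ^ (L / 16)) := le_mul_of_one_le_right hK2.le a1
      _ = 2 * K2 * Real.exp (-(1 / 25 * L)) * 2 ^ (L / 16) := by ring
  linarith

/-- Size of the shift of the constant. -/
theorem cc_room {N L t T0 σ : ℕ} (hN : 100 ≤ N) {C : ℝ} (ht : t ≤ T0)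
    (hσ : |(σ : ℝ) - 2 * L| ≤ (L : ℝ) / N + C) (hL : |C| + 2 * T0 ≤ 1 / 10 * (L : ℝ)) :
    (3 : ℝ) ^ (t + L) * 4 ^ (L / 16) ≤ 2 ^ σ := by
  rw [← Real.log_le_log_iff (by positivity) (by positivity), Real.log_mul (by positivity) (by positivity),
    Real.log_pow, Real.log_pow, Real.log_pow, show (4 : ℝ) = 2 ^ 2 by norm_num, Real.log_pow]
  push_cast
  have hL0 : (0 : ℝ) ≤ L := Nat.cast_nonneg L
  have x1 := Real.log_two_gt_d9
  have x2 := Real.log_two_lt_d9
  have y1 := log3_gt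
  have y2 := log3_lt
  have b4 : ((L / 16 : ℕ) : ℝ) ≤ (L : ℝ) / 16 := Nat.cast_div_le
  obtain ⟨s1, s2⟩ := abs_le.1 hσ
  have h1 : (L : ℝ) / N ≤ L / 100 := by
    apply div_le_div_of_nonneg_left hL0 (by norm_num)
    exact_mod_cast hN
  have hC := le_abs_self C
  have hC0 := abs_nonneg C
  have ht' : (t : ℝ) ≤ T0 := by exact_mod_cast ht
  have ht0 : (0 : ℝ) ≤ t := Nat.cast_nonneg t
  have a1 : (t + L) * Real.log 3 ≤ (T0 + L) * (109890 / 100000) := by
    apply mul_le_mul (by linarith) (by linarith) (by linarith) (by linarith)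
  have a2 : ((L / 16 : ℕ) : ℝ) * (2 * Real.log 2) ≤ L / 16 * (13864 / 10000) :=
    mul_le_mul b4 (by linarith) (by linarith) (by linarith)
  have a3 : (2 * L - L / 100 - |C|) * Real.log 2 ≤ σ * Real.log 2 :=
    mul_le_mul_of_nonneg_right (by linarith) (by linarith)
  have a4 : (2 * (L : ℝ) - L / 100) * (6931 / 10000) ≤ (2 * L - L / 100) * Real.log 2 :=
    mul_le_mul_of_nonneg_left (by linarith) (by linarith)
  have a5 : |C| * Real.log 2 ≤ |C| := mul_le_of_le_one_right hC0 (by linarith)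
  linarith

/-- chunk L4: last stage. `hT` is the superpolynomial mixing estimate. -/
theorem last_stage (hT : ∀ A : ℕ, ∃ K : ℝ, ∀ M n : ℕ, 2 * n ≤ M → tt M (n + 1) n ≤ K / ((n : ℝ) + 1) ^ A)
    {N : ℕ} (hN : 100 ≤ N) {C B D κ : ℝ} (_hC : 0 ≤ C) (hB : 0 ≤ B) (hD : 0 ≤ D) (hκ : 0 < κ) (T0 : ℕ) :
    ∃ L1 : ℕ, ∃ C' : ℝ, ∀ L M t y : ℕ, L1 ≤ L → 2 * L ≤ M → t ≤ T0 → ∀ G : Finset (List ℕ),
      Stage N M t L y C B D κ G → ∀ Θ : ℝ,
      Real.log (4 / 3) * L + 11 / 10 * L / N ≤ Real.log Θ → Real.log Θ ≤ Real.log (4 / 3) * L + 19 / 10 * L / N →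
      0 < Θ → ∃ G' : Finset (List ℕ), (∀ l ∈ G', GoodW (5 / N) C' (B + 1) Θ y l) ∧
        κ / 4 ≤ ∑ l ∈ G', (3 : ℝ) ^ l.length / (2 : ℝ) ^ l.sum := by
  classical
  obtain ⟨K8, hK8⟩ := hT 8
  obtain ⟨m1, hfp⟩ := first_passage
  obtain ⟨c1, K1, hc1, hK1, hbs⟩ := bad_small 10 (by norm_num)
  obtain ⟨K2, hK2, hcc⟩ := bad_cc
  have hN0 : (0 : ℝ) < N := by
    have : 0 < N := by omega
    exact_mod_cast this
  have E1 : ∀ᶠ L : ℕ in Filter.atTop, m1 ≤ 10 * (L / N) := by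
    filter_upwards [Filter.eventually_ge_atTop (m1 * N)] with L hL
    have : m1 ≤ L / N := (Nat.le_div_iff_mul_le (by omega)).2 hL
    omega
  have E2 := ev_inv (|C| + 2 * T0 + 3) (show (0 : ℝ) < 4 / 100 / N by positivity)
  have E3 := ev_inv (|C| + 2 * T0) (show (0 : ℝ) < 1 / 10 by norm_num)
  have E4 := ev_exp 3 (D * K1 * Real.exp c1) (show (0 : ℝ) < c1 / N by positivity) (show (0 : ℝ) < κ / 8 by positivity)
  have E5 := ev_inv (2200 * D * max K8 0 * N ^ 4) hκ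
  have E6 := ev_exp 5 (2 * D) (show (0 : ℝ) < 1 by norm_num) (show (0 : ℝ) < κ / 40 by positivity)
  have E7 := ev_exp 4 (2 * D * K2) (show (0 : ℝ) < 1 / 25 by norm_num) (show (0 : ℝ) < κ / 40 by positivity)
  have E8 : ∀ᶠ L : ℕ in Filter.atTop, 5 ≤ L := Filter.eventually_ge_atTop 5
  obtain ⟨L1, hL1⟩ := Filter.eventually_atTop.1 (((E1.and E2).and (E3.and E4)).and ((E5.and E6).and (E7.and E8)))
  refine ⟨L1, T0 + 1, fun L M t y hL hM ht G h Θ h1 h2 hΘ => ?_⟩
  obtain ⟨⟨⟨e1, e2⟩, ⟨e3, e4⟩⟩, ⟨⟨e5, e6⟩, ⟨e7, e8⟩⟩⟩ := hL1 L hL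
  have hL0 : (0 : ℝ) < L := by
    have : 0 < L := by omega
    exact_mod_cast this
  have hpL : L / N * 100 ≤ L := by
    calc L / N * 100 ≤ L / N * N := Nat.mul_le_mul_left _ hN
      _ ≤ L := Nat.div_mul_le_self L N
  have hp1 : ((L / N : ℕ) : ℝ) ≤ (L : ℝ) / N := Nat.cast_div_le
  have hp2 : (L : ℝ) ≤ ((L / N : ℕ) + 1) * N := by
    have h3 : L < (L / N + 1) * N := by
      have := Nat.lt_mul_div_succ L (show 0 < N by omega)
      rw [mul_comm]
      exact this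
    have h4 : (L : ℝ) < ((L / N + 1 : ℕ) : ℝ) * N := by exact_mod_cast h3
    push_cast at h4
    exact h4.le
  obtain ⟨G', hG', hmass⟩ := mass_image (M := M) (p := L / N) (m2 := 10 * (L / N)) h.len
    (fun l m l' => (2 ^ l'.sum * en l y ≡ cc l' [MOD 3 ^ (L / N + m)] ∧
      cellP Θ (t + L + (L / N + m)) l.sum l'.sum) ∧ ((∀ a ∈ l', a < M) ∧ (cc l' : ℝ) ≤ 4 ^ (L / 16) * 2 ^ l'.sum))
    (fun l m l' hh => hh.2.1)
  refine ⟨G', ?_, ?_⟩
  · intro x hx
    obtain ⟨l, hl, m, hm, l', hl', ⟨⟨q1, q2⟩, q3, q4⟩, rfl⟩ := hG' x hx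
    have hlen : (l ++ l').length = t + L + (L / N + m) := by
      rw [List.length_append, h.len l hl, (mem_words.1 hl').1]
    refine ⟨?_, ?_, ?_, ?_, ?_, ?_⟩
    · intro a ha
      rw [List.mem_append] at ha
      rcases ha with ha | ha
      · exact (h.letters l hl a ha).1
      · exact ((mem_words.1 hl').2 a ha).1
    · rw [va_append]
      refine ⟨h.val l hl, ?_⟩
      rw [va_iff, (mem_words.1 hl').1]
      exact q1
    · rw [hlen, List.sum_append]
      exact q2.1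
    · rw [hlen, List.sum_append]
      exact q2.2
    · rw [cc_append, h.len l hl, List.sum_append]
      push_cast
      have a1 : (2 : ℝ) ^ l'.sum * (cc l : ℝ) ≤ 2 ^ l'.sum * (B * 2 ^ l.sum) :=
        mul_le_mul_of_nonneg_left (h.ccb l hl) (by positivity)
      have a2 := cc_room (T0 := T0) hN ht (h.sums l hl) (by linarith)
      have a3 : (3 : ℝ) ^ (t + L) * (cc l' : ℝ) ≤ 3 ^ (t + L) * (4 ^ (L / 16) * 2 ^ l'.sum) :=
        mul_le_mul_of_nonneg_left q4 (by positivity)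
      have a4 : (3 : ℝ) ^ (t + L) * 4 ^ (L / 16) * 2 ^ l'.sum ≤ 2 ^ l.sum * 2 ^ l'.sum :=
        mul_le_mul_of_nonneg_right a2 (by positivity)
      rw [pow_add (2 : ℝ) l.sum]
      linarith
    · rw [hlen]
      refine good_ratio hN ht hΘ ?_ h1 h2 ?_ ?_
      · have : L / N + m ≤ 11 * (L / N) := by omega
        calc ((L / N + m : ℕ) : ℝ) ≤ ((11 * (L / N) : ℕ) : ℝ) := by exact_mod_cast this
          _ = 11 * ((L / N : ℕ) : ℝ) := by push_cast; ring
          _ ≤ 11 * ((L : ℝ) / N) := by linarith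
      · rw [List.sum_append]
        exact q2.1
      · rw [List.sum_append]
        exact q2.2
  · rw [hmass]
    have hmain := main_term (M := M) (T0 := T0) h hN hD ht (by omega)
      (hfp (10 * (L / N)) e1 M (by omega)) hΘ h1 h2 (by
        have : 4 / 100 / (N : ℝ) * L = 4 / 100 * ((L : ℝ) / N) := by ring
        linarith)
    -- the bad part
    have hbad : ∑ l ∈ G, om l * ∑ m ∈ range (10 * (L / N) + 1), 3 ^ (L / N + m) *
        ∑ l' ∈ (words M (L / N + m)).filter (fun l' => 2 ^ l'.sum * en l y ≡ cc l' [MOD 3 ^ (L / N + m)] ∧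
        ¬ ((∀ a ∈ l', a < M) ∧ (cc l' : ℝ) ≤ 4 ^ (L / 16) * 2 ^ l'.sum)), pw M l' ≤ κ / 40 + κ / 40 := by
      have a0 : ∑ l ∈ G, om l * ∑ m ∈ range (10 * (L / N) + 1), 3 ^ (L / N + m) *
          ∑ l' ∈ (words M (L / N + m)).filter (fun l' => 2 ^ l'.sum * en l y ≡ cc l' [MOD 3 ^ (L / N + m)] ∧
          ¬ ((∀ a ∈ l', a < M) ∧ (cc l' : ℝ) ≤ 4 ^ (L / 16) * 2 ^ l'.sum)), pw M l' =
          ∑ m ∈ range (10 * (L / N) + 1), ∑ l ∈ G, om l * (3 ^ (L / N + m) *
          ∑ l' ∈ (words M (L / N + m)).filter (fun l' => 2 ^ l'.sum * en l y ≡ cc l' [MOD 3 ^ (L / N + m)] ∧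
          ¬ ((∀ a ∈ l', a < M) ∧ (cc l' : ℝ) ≤ 4 ^ (L / 16) * 2 ^ l'.sum)), pw M l') := by
        rw [sum_comm]
        exact sum_congr rfl fun l _ => mul_sum _ _ _
      rw [a0]
      have a1 : ∀ m ∈ range (10 * (L / N) + 1), ∑ l ∈ G, om l * (3 ^ (L / N + m) *
          ∑ l' ∈ (words M (L / N + m)).filter (fun l' => 2 ^ l'.sum * en l y ≡ cc l' [MOD 3 ^ (L / N + m)] ∧
          ¬ ((∀ a ∈ l', a < M) ∧ (cc l' : ℝ) ≤ 4 ^ (L / 16) * 2 ^ l'.sum)), pw M l') ≤
          D * (L : ℝ) ^ 3 * (2 * L * Real.exp (-(1 * L)) + 2 * K2 * Real.exp (-(1 / 25 * L))) := by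
        intro m hm
        rw [mem_range] at hm
        refine (bad_mass h (by omega) _).trans ?_
        apply mul_le_mul_of_nonneg_left _ (by positivity)
        exact fin_bad hK2 (fun M k hM => hcc M k (by omega)) (by omega) hM (by omega) (by omega)
      refine (sum_le_sum a1).trans ?_
      rw [sum_const, card_range, nsmul_eq_mul]
      have a2 : ((10 * (L / N) + 1 : ℕ) : ℝ) ≤ L := by
        have : 10 * (L / N) + 1 ≤ L := by omega
        exact_mod_cast this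
      have a3 : 0 ≤ D * (L : ℝ) ^ 3 * (2 * L * Real.exp (-(1 * L)) + 2 * K2 * Real.exp (-(1 / 25 * L))) := by
        positivity
      calc ((10 * (L / N) + 1 : ℕ) : ℝ) * (D * (L : ℝ) ^ 3 *
            (2 * L * Real.exp (-(1 * L)) + 2 * K2 * Real.exp (-(1 / 25 * L)))) ≤
            L * (D * (L : ℝ) ^ 3 * (2 * L * Real.exp (-(1 * L)) + 2 * K2 * Real.exp (-(1 / 25 * L)))) :=
            mul_le_mul_of_nonneg_right a2 a3
        _ = 2 * D * (L : ℝ) ^ 5 * Real.exp (-(1 * L)) + 2 * D * K2 * (L : ℝ) ^ 4 * Real.exp (-(1 / 25 * L)) := by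
            ring
        _ ≤ κ / 40 + κ / 40 := add_le_add e6 e7
    -- good = main - bad
    have hgood : ∑ l ∈ G, om l * ∑ m ∈ range (10 * (L / N) + 1), 3 ^ (L / N + m) *
        ∑ l' ∈ (words M (L / N + m)).filter (fun l' => 2 ^ l'.sum * en l y ≡ cc l' [MOD 3 ^ (L / N + m)] ∧
        cellP Θ (t + L + (L / N + m)) l.sum l'.sum), pw M l' ≤
        ∑ l ∈ G, om l * ∑ m ∈ range (10 * (L / N) + 1), 3 ^ (L / N + m) *
        ∑ l' ∈ (words M (L / N + m)).filter (fun l' => (2 ^ l'.sum * en l y ≡ cc l' [MOD 3 ^ (L / N + m)] ∧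
        cellP Θ (t + L + (L / N + m)) l.sum l'.sum) ∧
          ((∀ a ∈ l', a < M) ∧ (cc l' : ℝ) ≤ 4 ^ (L / 16) * 2 ^ l'.sum)), pw M l' +
        ∑ l ∈ G, om l * ∑ m ∈ range (10 * (L / N) + 1), 3 ^ (L / N + m) *
        ∑ l' ∈ (words M (L / N + m)).filter (fun l' => 2 ^ l'.sum * en l y ≡ cc l' [MOD 3 ^ (L / N + m)] ∧
        ¬ ((∀ a ∈ l', a < M) ∧ (cc l' : ℝ) ≤ 4 ^ (L / 16) * 2 ^ l'.sum)), pw M l' := by
      rw [← sum_add_distrib]
      refine sum_le_sum fun l _ => ?_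
      rw [← mul_add, ← sum_add_distrib]
      refine mul_le_mul_of_nonneg_left (sum_le_sum fun m _ => ?_) (om_pos l).le
      rw [← mul_add]
      apply mul_le_mul_of_nonneg_left _ (by positivity)
      rw [← sum_union_inter]
      refine le_trans (sum_le_sum_of_subset_of_nonneg ?_ fun _ _ _ => L_pw_nonneg M _)
        (le_add_of_nonneg_right (sum_nonneg fun _ _ => L_pw_nonneg M _))
      intro u hu
      rw [mem_filter] at hu
      rw [mem_union, mem_filter, mem_filter]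
      by_cases hc : (∀ a ∈ u, a < M) ∧ (cc u : ℝ) ≤ 4 ^ (L / 16) * 2 ^ u.sum
      · left
        exact ⟨hu.1, hu.2, hc⟩
      · right
        exact ⟨hu.1, hu.2.1, hc⟩
    -- the mixing error
    have hmix : ∑ m ∈ range (10 * (L / N) + 1), D * (L : ℝ) ^ 3 * ∑ n ∈ Ico (L / N) (L / N + m), tt M (L / N + m) n ≤
        κ / 20 := by
      have hq0 : (0 : ℝ) ≤ (L / N : ℕ) := Nat.cast_nonneg _
      have a1 : ∀ m ∈ range (10 * (L / N) + 1), D * (L : ℝ) ^ 3 * ∑ n ∈ Ico (L / N) (L / N + m), tt M (L / N + m) n ≤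
          D * (L : ℝ) ^ 3 * (10 * (L / N : ℕ) * (max K8 0 / ((L / N : ℕ) + 1) ^ 8)) := by
        intro m hm
        rw [mem_range] at hm
        apply mul_le_mul_of_nonneg_left _ (by positivity)
        have b1 : ∀ n ∈ Ico (L / N) (L / N + m), tt M (L / N + m) n ≤ max K8 0 / ((L / N : ℕ) + 1) ^ 8 := by
          intro n hn
          rw [mem_Ico] at hn
          refine (tt_le (by omega) hn.2).trans ((hK8 M n (by omega)).trans ?_)
          have c1 : K8 / ((n : ℝ) + 1) ^ 8 ≤ max K8 0 / ((n : ℝ) + 1) ^ 8 :=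
            div_le_div_of_nonneg_right (le_max_left _ _) (by positivity)
          refine c1.trans (div_le_div_of_nonneg_left (le_max_right _ _) (by positivity) ?_)
          have c2 : ((L / N : ℕ) : ℝ) ≤ n := by exact_mod_cast hn.1
          exact pow_le_pow_left₀ (by positivity) (by linarith) 8
        refine (sum_le_card_nsmul _ _ _ b1).trans ?_
        rw [Nat.card_Ico, nsmul_eq_mul]
        apply mul_le_mul_of_nonneg_right _ (by positivity)
        have b2 : L / N + m - L / N ≤ 10 * (L / N) := by omega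
        calc ((L / N + m - L / N : ℕ) : ℝ) ≤ ((10 * (L / N) : ℕ) : ℝ) := by exact_mod_cast b2
          _ = 10 * ((L / N : ℕ) : ℝ) := by push_cast; ring
      refine (sum_le_sum a1).trans ?_
      rw [sum_const, card_range, nsmul_eq_mul]
      push_cast
      set q : ℝ := ((L / N : ℕ) : ℝ) with hq
      set K := max K8 0 with hK
      have hK0 : 0 ≤ K := le_max_right _ _
      have a2 : (L : ℝ) ^ 3 ≤ ((q + 1) * N) ^ 3 := pow_le_pow_left₀ hL0.le hp2 3
      have a3 : (10 * q + 1) * (D * (L : ℝ) ^ 3 * (10 * q * (K / (q + 1) ^ 8))) ≤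
          (10 * (q + 1)) * (D * ((q + 1) * N) ^ 3 * (10 * (q + 1) * (K / (q + 1) ^ 8))) := by
        apply mul_le_mul (by linarith) _ (by positivity) (by positivity)
        apply mul_le_mul _ _ (by positivity) (by positivity)
        · exact mul_le_mul_of_nonneg_left a2 hD
        · apply mul_le_mul_of_nonneg_right (by linarith) (by positivity)
      refine a3.trans ?_
      have hq1 : 0 < q + 1 := by linarith
      have a4 : (10 * (q + 1)) * (D * ((q + 1) * N) ^ 3 * (10 * (q + 1) * (K / (q + 1) ^ 8))) =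
          100 * D * K * N ^ 3 / (q + 1) ^ 3 := by
        field_simp
        ring
      rw [a4, div_le_iff₀ (by positivity)]
      have a5 : (q + 1) ≤ (q + 1) ^ 3 := by
        have : 1 ≤ (q + 1) ^ 2 := by
          apply one_le_pow₀
          linarith
        nlinarith
      have a6 : κ * L ≤ κ * ((q + 1) * N) := mul_le_mul_of_nonneg_left hp2 hκ.le
      have a7 : 2200 * D * K * N ^ 4 ≤ κ * ((q + 1) * N) := e5.trans a6
      have a8 : 2200 * D * K * N ^ 3 ≤ κ * (q + 1) := by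
        have b1 : 2200 * D * K * N ^ 3 * N ≤ κ * (q + 1) * N := by
          calc 2200 * D * K * N ^ 3 * N = 2200 * D * K * N ^ 4 := by ring
            _ ≤ κ * ((q + 1) * N) := a7
            _ = κ * (q + 1) * N := by ring
        exact le_of_mul_le_mul_right b1 hN0
      have a9 : κ * (q + 1) ≤ κ * (q + 1) ^ 3 := mul_le_mul_of_nonneg_left a5 hκ.le
      have a10 : 0 ≤ D * K * (N : ℝ) ^ 3 := by positivity
      linarith
    -- the bad start
    have hst : D * (L : ℝ) ^ 3 * ∑ u ∈ (words M (L / N)).filter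
        (fun u => ¬ (|(u.sum : ℝ) - 2 * (L / N : ℕ)| ≤ ((L / N : ℕ) : ℝ) / 10)), pw M u ≤ κ / 8 := by
      have a1 := hbs M (L / N) (by omega)
      simp only [Nat.cast_ofNat] at a1
      refine le_trans (mul_le_mul_of_nonneg_left a1 (by positivity)) (le_trans ?_ e4)
      have a2 : Real.exp (-(c1 * ((L / N : ℕ) : ℝ))) ≤ Real.exp c1 * Real.exp (-(c1 / N * L)) := by
        rw [← Real.exp_add]
        apply Real.exp_le_exp.2
        have : c1 / N * L ≤ c1 / N * (((L / N : ℕ) + 1) * N) := mul_le_mul_of_nonneg_left hp2 (by positivity)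
        have e : c1 / N * ((((L / N : ℕ) : ℝ) + 1) * N) = c1 * (L / N : ℕ) + c1 := by
          field_simp
        linarith
      calc D * (L : ℝ) ^ 3 * (K1 * Real.exp (-(c1 * ((L / N : ℕ) : ℝ)))) ≤
            D * (L : ℝ) ^ 3 * (K1 * (Real.exp c1 * Real.exp (-(c1 / N * L)))) := by
            apply mul_le_mul_of_nonneg_left _ (by positivity)
            exact mul_le_mul_of_nonneg_left a2 hK1.le
        _ = D * K1 * Real.exp c1 * (L : ℝ) ^ 3 * Real.exp (-(c1 / N * L)) := by ring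
    have hlow : κ / 4 ≤ ∑ l ∈ G, om l * ∑ m ∈ range (10 * (L / N) + 1), 3 ^ (L / N + m) *
        ∑ l' ∈ (words M (L / N + m)).filter (fun l' => (2 ^ l'.sum * en l y ≡ cc l' [MOD 3 ^ (L / N + m)] ∧
        cellP Θ (t + L + (L / N + m)) l.sum l'.sum) ∧
          ((∀ a ∈ l', a < M) ∧ (cc l' : ℝ) ≤ 4 ^ (L / 16) * 2 ^ l'.sum)), pw M l' := by
      have w1 := hmain.trans hgood
      linarith
    refine hlow.trans (le_of_eq ?_)
    refine sum_congr rfl fun l _ => ?_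
    congr 1
    refine sum_congr rfl fun m _ => ?_
    congr 1
    refine sum_congr ?_ fun _ _ => rfl
    ext u
    simp only [mem_filter]

end H62y
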