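import Pool.Agent.Lib.H62y.JlL1
import Pool.Agent.Lib.H62y.JlCond
import Pool.Agent.Lib.H62y.FirstPass
import Pool.Agent.Lib.H62y.BadSmall
import Pool.Agent.Lib.H62y.BadCc
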